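import Pool.Statements.S06366
import Pool.Agent.Helper13.FD.Weak

set_option autoImplicit false
open MeasureTheory
open Pool Pool.MP_da5d20_an

namespace Pool.Agent.S06366

open Pool.Agent.Helper13.FD

lemma axis_mem {s : ℝ} (h1 : 1 < s) (h2 : s < 2) : mk 0 0 s ∈ Om := by
  refine ⟨?_, h1, h2⟩
  show rr (mk 0 0 s) < _
  unfold rr
  simp only [mk_0, mk_1, abs_zero, add_zero]
  exact Real.exp_pos _

lemma ff_axis (s : ℝ) : ff (mk 0 0 s) = 0 := by
  unfold ff rr
  simp

lemma convex_Om : Convex ℝ Om := by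
  have h0 : Convex ℝ {x : E | rr x < Real.exp (-t0)} := by
    intro x hx y hy a b ha hb hab
    show rr (a • x + b • y) < _
    have e : rr (a • x + b • y) ≤ a * rr x + b * rr y := by
      unfold rr
      simp only [PiLp.add_apply, PiLp.smul_apply, smul_eq_mul]
      have h1 := abs_add_le (a * x 0) (b * y 0)
      have h2 := abs_add_le (a * x 1) (b * y 1)
      rw [abs_mul, abs_mul, abs_of_nonneg ha, abs_of_nonneg hb] at h1 h2
      linarith
    have hx' : rr x < Real.exp (-t0) := hx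
    have hy' : rr y < Real.exp (-t0) := hy
    rcases ha.eq_or_lt with h | h
    · rw [← h] at hab e
      rw [← h]
      have : b = 1 := by linarith
      rw [this] at e ⊢
      linarith
    · have h1 : a * rr x < a * Real.exp (-t0) := mul_lt_mul_of_pos_left hx' h
      have h2 : b * rr y ≤ b * Real.exp (-t0) := mul_le_mul_of_nonneg_left hy'.le hb
      have h3 : a * Real.exp (-t0) + b * Real.exp (-t0) = Real.exp (-t0) := by
        rw [← add_mul, hab, one_mul]
      linarith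
  have h1 : Convex ℝ {x : E | 1 < x 2} := convex_halfSpace_gt (pr 2).isLinear 1
  have h2 : Convex ℝ {x : E | x 2 < 2} := convex_halfSpace_lt (pr 2).isLinear 2
  have : Om = {x | rr x < Real.exp (-t0)} ∩ ({x | 1 < x 2} ∩ {x | x 2 < 2}) := rfl
  rw [this]
  exact h0.inter (h1.inter h2)

lemma isConnected_Om : IsConnected Om :=
  ⟨⟨mk 0 0 (3 / 2), axis_mem (by norm_num) (by norm_num)⟩, convex_Om.isPreconnected⟩

lemma volume_Om_pos : 0 < volume Om :=
  isOpen_Om.measure_pos _ ⟨mk 0 0 (3 / 2), axis_mem (by norm_num) (by norm_num)⟩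

lemma not_constant : ¬ ∃ c : E, ∀ x ∈ Om, ff x = c := by
  rintro ⟨c, hc⟩
  have h1 : ∀ᵐ x : E ∂(volume.restrict Om), False := by
    filter_upwards [good_ae_Om] with x hx
    have hO : x ∈ Om := hx.mem.2
    have : ff =ᶠ[nhds x] fun _ => c := by
      filter_upwards [isOpen_Om.mem_nhds hO] with y hy
      exact hc y hy
    have h2 : fderiv ℝ ff x = 0 := by
      rw [this.fderiv_eq]; exact fderiv_const_apply _
    obtain ⟨hJ, -⟩ := hx.K_le
    rw [h2] at hJ
    have h3 : dt (0 : E →L[ℝ] E) = 0 := by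
      have : (0 : E →L[ℝ] E) = clm 0 := by
        unfold clm; rw [map_zero]
      rw [this, dt_clm]
      simp
    rw [h3] at hJ
    exact lt_irrefl _ hJ
  have h2 : volume.restrict Om = 0 := by
    rw [← ae_eq_bot]
    exact Filter.eventually_false_iff_eq_bot.mp h1
  rw [Measure.restrict_eq_zero] at h2
  have := volume_Om_pos
  rw [h2] at this
  exact lt_irrefl _ this

lemma memLp_ff : MemLp ff ((3 : ℕ) : ENNReal) (volume.restrict Om) := by
  refine MemLp.of_bound aesm_ff 48000 ?_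
  filter_upwards [ae_restrict_mem isOpen_Om.measurableSet] with x hx
  exact norm_ff_le_const hx

lemma memLp_Dff : MemLp (fderiv ℝ ff) ((3 : ℕ) : ENNReal) (volume.restrict Om) := by
  refine MemLp.of_bound (measurable_fderiv ℝ ff).aestronglyMeasurable 17000000 ?_
  filter_upwards [good_ae_Om] with x hx
  exact hx.norm_le'

/-- The negation of the preceding statement: For n ≥ 3 and α in [n−2, n(n−2)], every non-constant continuous W^{1,n} map of finite distortion on a domain in ℝⁿ, whose distortion K has K^{n−1}log^α(e+K) integrable, is open and has isolated fibres. -/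
theorem result :
    ¬ (∀ (n : ℕ), 3 ≤ n → ∀ (α : ℝ), (n : ℝ) - 2 ≤ α → α ≤ (n : ℝ) * ((n : ℝ) - 2) →
  ∀ (Ω : Set (EuclideanSpace ℝ (Fin n))), IsOpen Ω → IsConnected Ω →
  ∀ (f : EuclideanSpace ℝ (Fin n) → EuclideanSpace ℝ (Fin n))
    (Df : EuclideanSpace ℝ (Fin n) → (EuclideanSpace ℝ (Fin n) →L[ℝ] EuclideanSpace ℝ (Fin n)))
    (J K : EuclideanSpace ℝ (Fin n) → ℝ),
  ContinuousOn f Ω →
  MemLp f ((n : ℕ) : ENNReal) (volume.restrict Ω) →
  MemLp Df ((n : ℕ) : ENNReal) (volume.restrict Ω) →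
  (∀ φ : EuclideanSpace ℝ (Fin n) → ℝ, ContDiff ℝ ((⊤ : ℕ∞) : WithTop ℕ∞) φ →
      HasCompactSupport φ → tsupport φ ⊆ Ω →
      ∀ v : EuclideanSpace ℝ (Fin n),
        ∫ x in Ω, (fderiv ℝ φ x v) • f x = - ∫ x in Ω, φ x • Df x v) →
  (∀ x, J x = LinearMap.det (Df x).toLinearMap) →
  (∀ x, K x = if 0 < J x then ‖Df x‖ ^ n / J x else 1) →
  (∀ᵐ x ∂(volume.restrict Ω), 0 ≤ J x ∧ (J x = 0 → Df x = 0)) →
  Integrable (fun x => K x ^ (n - 1) * Real.log (Real.exp 1 + K x) ^ α) (volume.restrict Ω) →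
  (¬ ∃ c : EuclideanSpace ℝ (Fin n), ∀ x ∈ Ω, f x = c) →
  (∀ U ⊆ Ω, IsOpen U → IsOpen (f '' U)) ∧
  (∀ x ∈ Ω, ∃ ε > 0, ∀ z ∈ Ω, f z = f x → dist z x < ε → z = x)) := by
  intro H
  have h := (H 3 le_rfl 1 (by norm_num) (by norm_num) Om isOpen_Om isConnected_Om ff
    (fderiv ℝ ff) Jf Kf continuousOn_ff memLp_ff memLp_Dff
    (fun φ h1 h2 h3 v => weak_deriv h1 h2 h3 v) (fun x => rfl) (fun x => rfl) ?_ ?_ not_constant).2
  · obtain ⟨ε, hε, h⟩ := h (mk 0 0 (3 / 2)) (axis_mem (by norm_num) (by norm_num))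
    set δ := min (ε / 2) (1 / 4) with hδ
    have hδ0 : 0 < δ := lt_min (by linarith) (by norm_num)
    have hδ1 : δ ≤ 1 / 4 := min_le_right _ _
    have hδ2 : δ ≤ ε / 2 := min_le_left _ _
    have hz := h (mk 0 0 (3 / 2 + δ)) (axis_mem (by linarith) (by linarith))
      (by rw [ff_axis, ff_axis]) ?_
    · have := congrArg (fun p : E => p 2) hz
      simp only [mk_2] at this
      linarith
    · rw [dist_eq_norm]
      refine lt_of_le_of_lt (norm_le_sum _) ?_
      simp only [PiLp.sub_apply, mk_0, mk_1, mk_2, sub_self, abs_zero, zero_add, add_sub_cancel_left]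
      rw [abs_of_pos hδ0]
      linarith
  · filter_upwards [good_ae_Om] with x hx
    obtain ⟨hJ, -⟩ := hx.K_le
    have hJ' : 0 < Jf x := hJ
    exact ⟨hJ'.le, fun h0 => absurd h0 hJ'.ne'⟩
  · have := integrable_Kf
    simpa using this

end Pool.Agent.S06366
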