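import Pool.Statements.S00051
import Pool.Agent.Helper97.TI.L_Final

set_option autoImplicit false
open Pool Pool.MP_17e24e_ag

namespace Pool.Agent.S00051

/-- For every degree d≥2 holomorphic self-map of P^k given by homogeneous polynomials without common zeros, every algebraic (equivalently analytic) subset E with f⁻¹(E)=f(E)=E is a finite union of projective linear subspaces. -/
theorem result :
    ∀ (k d : ℕ), 1 < d →
    ∀ F : Fin (k+1) → MvPolynomial (Fin (k+1)) ℂ,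
    (∀ i, (F i).IsHomogeneous d) →
    (∀ v : Fin (k+1) → ℂ, (∀ i, MvPolynomial.eval v (F i) = 0) → v = 0) →
    ∀ S : Finset (MvPolynomial (Fin (k+1)) ℂ),
    (∀ p ∈ S, ∃ n : ℕ, p.IsHomogeneous n) →
    (∀ v : Fin (k+1) → ℂ, v ≠ 0 →
      ((∀ p ∈ S, MvPolynomial.eval v p = 0) ↔
        (∀ p ∈ S, MvPolynomial.eval (fun i => MvPolynomial.eval v (F i)) p = 0))) →
    (∀ w : Fin (k+1) → ℂ, w ≠ 0 → (∀ p ∈ S, MvPolynomial.eval w p = 0) →
      ∃ v : Fin (k+1) → ℂ, v ≠ 0 ∧ (∀ p ∈ S, MvPolynomial.eval v p = 0) ∧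
        ∃ c : ℂ, c ≠ 0 ∧ (fun i => MvPolynomial.eval v (F i)) = c • w) →
    ∃ (m : ℕ) (W : Fin m → Submodule ℂ (Fin (k+1) → ℂ)),
      ∀ v : Fin (k+1) → ℂ, v ≠ 0 →
        ((∀ p ∈ S, MvPolynomial.eval v p = 0) ↔ ∃ j, v ∈ W j) := by
  intro k d hd F hF hnd S hS h1 _
  exact TI.main k d hd F hF hnd S hS h1

end Pool.Agent.S00051
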