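import Pool.Statements.S00143
import Pool.Agent.Helper72.FX.Fin

set_option autoImplicit false
open Pool Pool.MP_3bffab_ag

namespace Pool.Agent.S00143

/-- There is a smooth finitely presented ℂ-algebra, not isomorphic to any polynomial ring, whose tangent spaces at all complex points are spanned by locally nilpotent derivations, and whose complex points in some embedding are a smoothly embedded copy of ℂⁿ. -/
theorem result :
    ∃ (A : Type) (_ : CommRing A) (_ : Algebra ℂ A), Algebra.Smooth ℂ A ∧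
      (∀ φ : A →ₐ[ℂ] ℂ, ∀ δ : A →ₗ[ℂ] ℂ,
        (∀ a b : A, δ (a * b) = φ a * δ b + φ b * δ a) →
        δ ∈ Submodule.span ℂ
          {ℓ : A →ₗ[ℂ] ℂ | ∃ D : Derivation ℂ A A,
            (∀ a : A, ∃ k : ℕ, (⇑D)^[k] a = 0) ∧
            ℓ = φ.toLinearMap.comp D.toLinearMap}) ∧
      (∀ k : ℕ, IsEmpty (A ≃ₐ[ℂ] MvPolynomial (Fin k) ℂ)) ∧
      ∃ (m n : ℕ) (π : MvPolynomial (Fin m) ℂ →ₐ[ℂ] A), Function.Surjective π ∧
        ∃ g : (Fin n → ℂ) → (Fin m → ℂ),
          ContDiff ℝ (⊤ : ℕ∞) g ∧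
          (∀ x, Function.Injective (fderiv ℝ g x)) ∧
          Topology.IsEmbedding g ∧
          Set.range g = {x : Fin m → ℂ | ∀ p ∈ RingHom.ker π, MvPolynomial.eval x p = 0} := by
  exact Pool.Agent.Helper72.FX.asm Pool.Agent.Helper72.FX.finK Pool.Agent.Helper72.FX.finZ
    Pool.Agent.Helper72.FX.finA Pool.Agent.Helper72.FX.finF Pool.Agent.Helper72.FX.finT
    Pool.Agent.Helper72.FX.finS

end Pool.Agent.S00143
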