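import Pool.Statements.S02909
import Pool.Agent.Helper1.BD8.Assemble
import Pool.Agent.Helper1.BD8.Doubling
import Pool.Agent.Helper99.BD8.Final

set_option autoImplicit false
open Pool Pool.MP_bd8d3e_al

namespace Pool.Agent.S02909

/-- Every alternative nil ring whose complete first-order theory in the language of 0, minus, plus and times is countably categorical is solvable: some derived power A^(k), built by repeatedly taking additive spans of products, is zero. -/
theorem result :
    ∀ (A : Type) [NonUnitalNonAssocRing A]
      (S : (FirstOrder.Language.mk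
              (fun n : ℕ => Fin (if n = 2 then 2 else if n ≤ 1 then 1 else 0))
              (fun _ : ℕ => Empty)).Structure A),
      S = { funMap := fun {n} i x =>
              if n = 2 ∧ Fin.val i = 1 then (List.ofFn x).headD 0 * (List.ofFn x).getLastD 0
              else if n = 1 then -(∑ j, x j) else ∑ j, x j,
            RelMap := fun {n} r _ => Empty.elim r } →
      (∀ x y : A, (x * x) * y = x * (x * y) ∧ (y * x) * x = y * (x * x)) →
      (∀ x : A, ∃ n : ℕ, (fun y => y * x)^[n] x = 0) →
      Cardinal.Categorical Cardinal.aleph0.{0}
        (FirstOrder.Language.completeTheory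
          (FirstOrder.Language.mk
              (fun n : ℕ => Fin (if n = 2 then 2 else if n ≤ 1 then 1 else 0))
              (fun _ : ℕ => Empty)) A) →
      ∀ D : ℕ → AddSubgroup A, D 0 = ⊤ →
        (∀ k : ℕ, D (k + 1) = AddSubgroup.closure {z : A | ∃ u ∈ D k, ∃ v ∈ D k, u * v = z}) →
        ∃ k : ℕ, D k = ⊥ :=
  Pool.Agent.Helper1.BD8.main_of_sandwich fun B _ G halt hnil hG hs hp hne =>
    Pool.Agent.Helper99.BD8.hex_of_doubling
      (fun B _ halt _ hs _ _ ha hb => Pool.Agent.Helper1.BD8.doubling halt hs ha hb)
      B G halt hnil hG hs hp hne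

end Pool.Agent.S02909
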