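import Pool.Statements.S03238
import Pool.Agent.Helper89.AntichainLattice

set_option autoImplicit false
open Pool Pool.MP_da5d41_al

namespace Pool.Agent.S03238

/-- The negation of the preceding statement: Every infinite lattice generated by finitely many elements contains a finite antichain whose generated sublattice (the smallest subset containing it and closed under join and meet) is infinite. -/
theorem result :
    ¬ (∀ (L : Type) [Lattice L], Infinite L →
      (∃ G : Set L, G.Finite ∧
        ⋂₀ {S : Set L | G ⊆ S ∧ SupClosed S ∧ InfClosed S} = Set.univ) →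
      ∃ A : Set L, A.Finite ∧ IsAntichain (· ≤ ·) A ∧
        (⋂₀ {S : Set L | A ⊆ S ∧ SupClosed S ∧ InfClosed S}).Infinite) := by
  intro h
  obtain ⟨A, hA, hac, hinf⟩ := h Pool.Agent.Helper89.AntichainLattice.Lat inferInstance
    ⟨{Pool.Agent.Helper89.AntichainLattice.f1, Pool.Agent.Helper89.AntichainLattice.f2,
      Pool.Agent.Helper89.AntichainLattice.g1, Pool.Agent.Helper89.AntichainLattice.g2},
      Set.toFinite _, by
        rw [Set.eq_univ_iff_forall]
        intro x S hS
        exact Pool.Agent.Helper89.AntichainLattice.gen_all S (hS.1 (by simp)) (hS.1 (by simp))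
          (hS.1 (by simp)) (hS.1 (by simp)) hS.2.1 hS.2.2 x⟩
  exact hinf (Pool.Agent.Helper89.AntichainLattice.antichain_finite A hA hac)

end Pool.Agent.S03238
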