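import Pool.Statements.S03499
import Pool.Agent.Helper74.MH.Zb
import Pool.Agent.Helper81.MH.Main
import Pool.Agent.Helper88.MH.M1

set_option autoImplicit false
open Pool Pool.MP_f028d2_al

namespace Pool.Agent.S03499

/-- There is a group G, finitely generated and hyperbolic (word metric satisfies Gromov's four-point condition), with a finitely presented subgroup H such that no algorithm decides whether a word in the generators represents an element of H. -/
theorem result :
    ∃ (G : Type) (_ : Group G) (n : ℕ) (g : Fin n → G),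
      Subgroup.closure (Set.range g) = ⊤ ∧
      (∃ d : G → G → ℕ,
        (∀ x y : G, d x y = sInf {k : ℕ | ∃ l : List (Fin n × Bool), l.length = k ∧
          (l.map (fun p => if p.2 then g p.1 else (g p.1)⁻¹)).prod = x⁻¹ * y}) ∧
        ∃ δ : ℕ, ∀ x y z w : G,
          min ((d w x : ℤ) + (d w y : ℤ) - (d x y : ℤ))
              ((d w y : ℤ) + (d w z : ℤ) - (d y z : ℤ)) - 2 * (δ : ℤ)
            ≤ (d w x : ℤ) + (d w z : ℤ) - (d x z : ℤ)) ∧
      ∃ H : Subgroup G,
        (∃ (m : ℕ) (rels : Set (FreeGroup (Fin m))), rels.Finite ∧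
          Nonempty (H ≃* PresentedGroup rels)) ∧
        ¬ ComputablePred (fun l : List (Fin n × Bool) =>
          (l.map (fun p => if p.2 then g p.1 else (g p.1)⁻¹)).prod ∈ H) :=
  Pool.Agent.Helper74.MH.final_of_partM
    (Pool.Agent.Helper81.MH.partM_of_partM1 Pool.Agent.Helper88.MH.partM1)

end Pool.Agent.S03499
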