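import Pool.Statements.S03788
import Pool.Agent.Helper64.SP.Final

set_option autoImplicit false
open Pool Pool.MP_0bd3a7_an

namespace Pool.Agent.S03788

/-- The negation of the preceding statement: For n ≥ 2, any A with k₊(A) < 2m(A), and any normalized univalent A-spirallike map f of the unit ball of ℂⁿ, f is an extreme point of that class iff z ↦ [Df(z)]⁻¹Af(z) is an extreme point of N_A. -/
theorem result :
    ¬ (∀ n : ℕ, 2 ≤ n →
    ∀ A : EuclideanSpace ℂ (Fin n) →L[ℂ] EuclideanSpace ℂ (Fin n),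
    (∃ c : ℝ, (∀ μ ∈ spectrum ℂ A, μ.re ≤ c) ∧
      ∀ z : EuclideanSpace ℂ (Fin n), ‖z‖ = 1 → c < 2 * (inner ℂ z (A z)).re) →
    ∀ f ∈ {g : EuclideanSpace ℂ (Fin n) → EuclideanSpace ℂ (Fin n) |
        DifferentiableOn ℂ g (Metric.ball (0 : EuclideanSpace ℂ (Fin n)) 1) ∧
        Set.InjOn g (Metric.ball (0 : EuclideanSpace ℂ (Fin n)) 1) ∧
        g 0 = 0 ∧
        fderiv ℂ g 0 = ContinuousLinearMap.id ℂ (EuclideanSpace ℂ (Fin n)) ∧
        (∀ z ∈ Metric.ball (0 : EuclideanSpace ℂ (Fin n)) 1,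
          ∃ e : EuclideanSpace ℂ (Fin n) ≃L[ℂ] EuclideanSpace ℂ (Fin n),
            (e : EuclideanSpace ℂ (Fin n) →L[ℂ] EuclideanSpace ℂ (Fin n)) = fderiv ℂ g z) ∧
        (∀ z ∈ Metric.ball (0 : EuclideanSpace ℂ (Fin n)) 1, z ≠ 0 →
          0 < (inner ℂ z ((fderiv ℂ g z).inverse (A (g z)))).re) ∧
        (∀ z, z ∉ Metric.ball (0 : EuclideanSpace ℂ (Fin n)) 1 → g z = 0)},
    (f ∈ Set.extremePoints ℝ {g : EuclideanSpace ℂ (Fin n) → EuclideanSpace ℂ (Fin n) |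
        DifferentiableOn ℂ g (Metric.ball (0 : EuclideanSpace ℂ (Fin n)) 1) ∧
        Set.InjOn g (Metric.ball (0 : EuclideanSpace ℂ (Fin n)) 1) ∧
        g 0 = 0 ∧
        fderiv ℂ g 0 = ContinuousLinearMap.id ℂ (EuclideanSpace ℂ (Fin n)) ∧
        (∀ z ∈ Metric.ball (0 : EuclideanSpace ℂ (Fin n)) 1,
          ∃ e : EuclideanSpace ℂ (Fin n) ≃L[ℂ] EuclideanSpace ℂ (Fin n),
            (e : EuclideanSpace ℂ (Fin n) →L[ℂ] EuclideanSpace ℂ (Fin n)) = fderiv ℂ g z) ∧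
        (∀ z ∈ Metric.ball (0 : EuclideanSpace ℂ (Fin n)) 1, z ≠ 0 →
          0 < (inner ℂ z ((fderiv ℂ g z).inverse (A (g z)))).re) ∧
        (∀ z, z ∉ Metric.ball (0 : EuclideanSpace ℂ (Fin n)) 1 → g z = 0)} ↔
     (Metric.ball (0 : EuclideanSpace ℂ (Fin n)) 1).indicator
        (fun z => (fderiv ℂ f z).inverse (A (f z))) ∈
      Set.extremePoints ℝ {h : EuclideanSpace ℂ (Fin n) → EuclideanSpace ℂ (Fin n) |
        DifferentiableOn ℂ h (Metric.ball (0 : EuclideanSpace ℂ (Fin n)) 1) ∧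
        h 0 = 0 ∧
        fderiv ℂ h 0 = A ∧
        (∀ z ∈ Metric.ball (0 : EuclideanSpace ℂ (Fin n)) 1, z ≠ 0 →
          0 < (inner ℂ z (h z)).re) ∧
        (∀ z, z ∉ Metric.ball (0 : EuclideanSpace ℂ (Fin n)) 1 → h z = 0)})) := by
  intro H
  obtain ⟨q, hq⟩ := Pool.Agent.Helper64.SP.goodQ_exists
  have h1 := H 2 le_rfl (ContinuousLinearMap.id ℂ (EuclideanSpace ℂ (Fin 2)))
    Pool.Agent.Helper64.SP.spec_cond (Pool.Agent.Helper64.SP.ff q 0)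
    (Pool.Agent.Helper64.SP.ff_mem hq Pool.Agent.Helper64.SP.adm_zero)
  rw [Pool.Agent.Helper64.SP.h_of_ff q] at h1
  exact Pool.Agent.Helper64.SP.ff_not_extreme hq
    (h1.2 (Pool.Agent.Helper64.SP.hh_extreme hq))

end Pool.Agent.S03788
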