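import Pool.Statements.S03890
import Pool.Agent.Helper66.QR.Block
import Pool.Agent.Helper66.QR.CellOfBlock
import Pool.Agent.Helper66.QR.HalfOfCell
import Pool.Agent.Helper66.QR.BallOfHalf
import Pool.Agent.Helper66.QR.ResultOfBall

set_option autoImplicit false
open MeasureTheory Filter Topology
open Pool Pool.MP_14ccba_an

namespace Pool.Agent.S03890

/-- The negation of the preceding statement: For n ≥ 3, every bounded quasiregular map f of the unit ball of R^n (continuous, Sobolev W^{1,n}_loc, with ∣Df∣^n ≤ K det Df a.e.) has a limit of f(r·ξ) as r → 1⁻ for almost every unit direction ξ. -/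
theorem result :
    ¬ (∀ n : ℕ, 3 ≤ n →
  ∀ f : EuclideanSpace ℝ (Fin n) → EuclideanSpace ℝ (Fin n),
    ContinuousOn f (Metric.ball (0 : EuclideanSpace ℝ (Fin n)) 1) →
    (∃ M : ℝ, ∀ x ∈ Metric.ball (0 : EuclideanSpace ℝ (Fin n)) 1, ‖f x‖ ≤ M) →
    (∃ Df : EuclideanSpace ℝ (Fin n) →
        (EuclideanSpace ℝ (Fin n) →L[ℝ] EuclideanSpace ℝ (Fin n)),
      AEStronglyMeasurable Df (volume : Measure (EuclideanSpace ℝ (Fin n))) ∧
      (∀ K : Set (EuclideanSpace ℝ (Fin n)), IsCompact K →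
          K ⊆ Metric.ball (0 : EuclideanSpace ℝ (Fin n)) 1 →
          IntegrableOn (fun x => ‖Df x‖ ^ n) K volume) ∧
      (∀ φ : EuclideanSpace ℝ (Fin n) → ℝ, ContDiff ℝ 1 φ → HasCompactSupport φ →
          tsupport φ ⊆ Metric.ball (0 : EuclideanSpace ℝ (Fin n)) 1 →
          ∀ v : EuclideanSpace ℝ (Fin n),
            ∫ x, (fderiv ℝ φ x v) • f x = - ∫ x, φ x • (Df x v)) ∧
      (∃ K : ℝ, 1 ≤ K ∧
          ∀ᵐ x ∂(volume.restrict (Metric.ball (0 : EuclideanSpace ℝ (Fin n)) 1)),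
            ‖Df x‖ ^ n ≤ K * ContinuousLinearMap.det (Df x))) →
    ∀ᵐ x ∂(volume : Measure (EuclideanSpace ℝ (Fin n))), x ≠ 0 →
      ∃ L : EuclideanSpace ℝ (Fin n),
        Tendsto (fun r : ℝ => f (r • (‖x‖⁻¹ • x)))
          (𝓝[Set.Iio 1] 1) (𝓝 L)) := by
  obtain ⟨Q⟩ := Pool.Agent.Helper66.QR.exists_consts
  have hcell := Pool.Agent.Helper66.QR.cell_of_block Q.K 2000 Q.hK (by norm_num)
    (Pool.Agent.Helper66.QR.block Q)
  obtain ⟨ρ₁, hρ₁, hhalf⟩ := Pool.Agent.Helper66.QR.half_of_cell Q.K 2000 (1 / 10000) (1 - 1 / 200000) (1 / 4)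
    Q.hK (by norm_num) (by norm_num) (by norm_num) (by norm_num) (by norm_num) (by norm_num) (by norm_num) hcell
  exact Pool.Agent.Helper66.QR.result_of_ball
    (Pool.Agent.Helper66.QR.ball_of_half Q.K ρ₁ Q.hK hρ₁ hhalf)

end Pool.Agent.S03890
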