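import Pool.Statements.S04060
import Pool.Agent.Helper96.LUR.Core
import Pool.Agent.Helper96.LUR.Kadec
import Pool.Agent.Helper96.LUR.Troy
import Pool.Agent.Helper96.LUR.Tree
import Pool.Agent.Helper96.LUR.NotLUR

set_option autoImplicit false
open Pool Pool.MP_234257_an

namespace Pool.Agent.S04060

/-- The negation of the preceding statement: For real Banach spaces X, Y with a bi-Lipschitz bijection between them, if X has an equivalent locally uniformly rotund norm then so does Y. -/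
theorem result :
    ¬ (∀ (X Y : Type) [NormedAddCommGroup X] [NormedSpace ℝ X] [CompleteSpace X]
    [NormedAddCommGroup Y] [NormedSpace ℝ Y] [CompleteSpace Y],
    (∃ f : X ≃ Y, ∃ K₁ K₂ : NNReal, LipschitzWith K₁ f ∧ LipschitzWith K₂ f.symm) →
    (∃ N : X → ℝ, (∀ x y : X, N (x + y) ≤ N x + N y) ∧
      (∀ (a : ℝ) (x : X), N (a • x) = |a| * N x) ∧
      (∃ c C : ℝ, 0 < c ∧ 0 < C ∧ ∀ x : X, c * ‖x‖ ≤ N x ∧ N x ≤ C * ‖x‖) ∧
      (∀ x : X, N x = 1 → ∀ ε : ℝ, 0 < ε → ∃ δ : ℝ, 0 < δ ∧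
        ∀ y : X, N y = 1 → 2 - δ < N (x + y) → N (x - y) < ε)) →
    (∃ N : Y → ℝ, (∀ x y : Y, N (x + y) ≤ N x + N y) ∧
      (∀ (a : ℝ) (x : Y), N (a • x) = |a| * N x) ∧
      (∃ c C : ℝ, 0 < c ∧ 0 < C ∧ ∀ x : Y, c * ‖x‖ ≤ N x ∧ N x ≤ C * ‖x‖) ∧
      (∀ x : Y, N x = 1 → ∀ ε : ℝ, 0 < ε → ∃ δ : ℝ, 0 < δ ∧
        ∀ y : Y, N y = 1 → 2 - δ < N (x + y) → N (x - y) < ε))) := by
  have h1 : Pool.Agent.LUR.LURn (Pool.Agent.LUR.XA
      (Set.univ : Set (Pool.Agent.LUR.YT Pool.Agent.LUR.Nd))) :=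
    Pool.Agent.LUR.LURn_free
      (fun X _ _ I F R M h1 h2 h3 h4 h5 h6 h7 =>
        Pool.Agent.LUR.LURn_of_decomp F R M h1 h2 h3 h4 h5 h6 h7)
      (fun X _ _ _ _ => Pool.Agent.LUR.LURn_of_separable)
      Pool.Agent.LUR.Nd.countable_Iic
  exact Pool.Agent.LUR.final_of (Pool.Agent.LUR.YV_closed _) h1.frozen
    Pool.Agent.LUR.not_LUR_Y

end Pool.Agent.S04060
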