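import Pool.Statements.S04642
import Pool.Agent.Helper51.USM.FIN

set_option autoImplicit false
open Filter Topology
open Pool Pool.MP_4fad3e_an

namespace Pool.Agent.S04642

/-- The negation of the preceding statement: In a reflexive real Banach space where normalized weakly null sequences have spreading models and all such spreading models are equivalent, each such spreading model is equivalent to the unit vector basis of c0 or of l_p for some p at least 1. -/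
theorem result :
    ¬ (∀ (X : Type) [NormedAddCommGroup X] [NormedSpace ℝ X] [CompleteSpace X],
      (∀ φ : (X →L[ℝ] ℝ) →L[ℝ] ℝ, ∃ x : X, ∀ f : X →L[ℝ] ℝ, φ f = f x) →
      (∃ (x : ℕ → X) (N : ∀ k : ℕ, (Fin k → ℝ) → ℝ),
        (∀ n, ‖x n‖ = 1) ∧
        (∀ f : X →L[ℝ] ℝ, Tendsto (fun n => f (x n)) atTop (𝓝 0)) ∧
        (∀ (k : ℕ) (a : Fin k → ℝ) (ε : ℝ), 0 < ε → ∃ m : ℕ, ∀ n : Fin k → ℕ,
          StrictMono n → (∀ i, m ≤ n i) → |‖∑ i, a i • x (n i)‖ - N k a| < ε)) →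
      (∀ (x y : ℕ → X) (N M : ∀ k : ℕ, (Fin k → ℝ) → ℝ),
        ((∀ n, ‖x n‖ = 1) ∧
          (∀ f : X →L[ℝ] ℝ, Tendsto (fun n => f (x n)) atTop (𝓝 0)) ∧
          (∀ (k : ℕ) (a : Fin k → ℝ) (ε : ℝ), 0 < ε → ∃ m : ℕ, ∀ n : Fin k → ℕ,
            StrictMono n → (∀ i, m ≤ n i) → |‖∑ i, a i • x (n i)‖ - N k a| < ε)) →
        ((∀ n, ‖y n‖ = 1) ∧
          (∀ f : X →L[ℝ] ℝ, Tendsto (fun n => f (y n)) atTop (𝓝 0)) ∧
          (∀ (k : ℕ) (a : Fin k → ℝ) (ε : ℝ), 0 < ε → ∃ m : ℕ, ∀ n : Fin k → ℕ,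
            StrictMono n → (∀ i, m ≤ n i) → |‖∑ i, a i • y (n i)‖ - M k a| < ε)) →
        ∃ C : ℝ, 0 < C ∧ ∀ (k : ℕ) (a : Fin k → ℝ),
          N k a ≤ C * M k a ∧ M k a ≤ C * N k a) →
      ∀ (x : ℕ → X) (N : ∀ k : ℕ, (Fin k → ℝ) → ℝ),
        ((∀ n, ‖x n‖ = 1) ∧
          (∀ f : X →L[ℝ] ℝ, Tendsto (fun n => f (x n)) atTop (𝓝 0)) ∧
          (∀ (k : ℕ) (a : Fin k → ℝ) (ε : ℝ), 0 < ε → ∃ m : ℕ, ∀ n : Fin k → ℕ,
            StrictMono n → (∀ i, m ≤ n i) → |‖∑ i, a i • x (n i)‖ - N k a| < ε)) →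
        (∃ p : ℝ, 1 ≤ p ∧ ∃ C : ℝ, 0 < C ∧ ∀ (k : ℕ) (a : Fin k → ℝ),
            N k a ≤ C * (∑ i, |a i| ^ p) ^ (1 / p) ∧
            (∑ i, |a i| ^ p) ^ (1 / p) ≤ C * N k a) ∨
        (∃ C : ℝ, 0 < C ∧ ∀ (k : ℕ) (a : Fin k → ℝ),
            N k a ≤ C * ‖a‖ ∧ ‖a‖ ≤ C * N k a)) := by
  intro H
  obtain ⟨N, hN⟩ := USM.exists_SM
  have h1 := H USM.XS USM.reflexive ⟨USM.e, N, hN.1, hN.2.1, hN.2.2⟩
    (fun x y N M hx hy => USM.unique_SM (x := x) (y := y) hx hy) USM.e N hN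
  rcases h1 with ⟨p, hp, C, hC, h⟩ | ⟨C, hC, h⟩
  · obtain ⟨k, a, ha⟩ := USM.not_lp hN p hp C hC
    exact absurd (h k a).2 (not_le.2 ha)
  · obtain ⟨k, a, ha⟩ := USM.not_c0 hN C hC
    exact absurd (h k a).1 (not_le.2 ha)

end Pool.Agent.S04642
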