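import Pool.Statements.S05200
import Pool.Agent.Helper65.BL13

set_option autoImplicit false
open Pool Pool.MP_7f5f24_an

namespace Pool.Agent.S05200

/-- The negation of the preceding statement: For 0<p<2, every nonzero function on Re s>1/2 that is the pointwise limit of Dirichlet polynomials Cauchy in the H^p norm has zeros satisfying sum of multiplicity times (Re ρ−1/2)/(1+∣ρ∣^2) finite. -/
theorem result :
    ¬ (∀ p : ℝ, 0 < p → p < 2 →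
    ∀ (c : ℕ → ℕ → ℂ) (N : ℕ → ℕ) (f : ℂ → ℂ),
      (∀ ε : ℝ, 0 < ε → ∃ K : ℕ, ∀ j ≥ K, ∀ k ≥ K, ∃ T₀ : ℝ, 0 < T₀ ∧ ∀ T ≥ T₀,
        (1 / (2 * T)) * ∫ t in (-T)..T,
          ‖(∑ n ∈ Finset.Icc 1 (N j), c j n * (n : ℂ) ^ (-((t : ℂ) * Complex.I)))
            - (∑ n ∈ Finset.Icc 1 (N k), c k n * (n : ℂ) ^ (-((t : ℂ) * Complex.I)))‖ ^ p
          < ε) →
      (∀ s : ℂ, 1 / 2 < s.re →
        Filter.Tendsto (fun k : ℕ => ∑ n ∈ Finset.Icc 1 (N k), c k n * (n : ℂ) ^ (-s))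
          Filter.atTop (nhds (f s))) →
      (∃ s : ℂ, 1 / 2 < s.re ∧ f s ≠ 0) →
      ∃ C : ℝ, ∀ S : Finset ℂ, (∀ ρ ∈ S, 1 / 2 < ρ.re ∧ f ρ = 0) →
        ∑ ρ ∈ S, (analyticOrderNatAt f ρ : ℝ) * (ρ.re - 1 / 2) / (1 + ‖ρ‖ ^ 2) ≤ C) := by
  intro hall
  have hr0 : ∀ k, 0 < Helper65.BL.rr (k + 1) := fun k => Helper65.BL.rr_pos _
  have hr1 : ∀ k, Helper65.BL.rr (k + 1) < 1 := fun k => Helper65.BL.rr_lt _
  obtain ⟨a, ha, hbad⟩ := Helper65.BL.exists_bad_value Helper65.BL.FF_analytic Helper65.BL.FF_base hr0 hr1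
    Helper65.BL.FF_lim
  have hdp : ∀ k, ∃ (N : ℕ) (c : ℕ → ℂ), ∀ s : ℂ, Helper65.BL.PP k s - a =
      ∑ n ∈ Finset.Icc 1 N, c n * (n : ℂ) ^ (-s) := fun k =>
    (Helper65.BL.PP_isDP k).sub (Helper65.BL.IsDP.const a)
  choose N c hNc using hdp
  apply hbad
  refine hall (1 / 2) (by norm_num) (by norm_num) c N (fun s => Helper65.BL.FF s - a) ?_ ?_ ?_
  · intro ε hε
    obtain ⟨K, hK⟩ := exists_pow_lt_of_lt_one (half_pos hε) (by norm_num : (1 / 2 : ℝ) < 1)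
    refine ⟨K, fun j hj k hk => ?_⟩
    obtain ⟨T₀, h0, h1⟩ := Helper65.BL.PP_cauchy hj hk (ε / 2) (half_pos hε)
    refine ⟨T₀, h0, fun T hT => ?_⟩
    have h2 := h1 T hT
    simp only [← hNc, sub_sub_sub_cancel_right]
    linarith
  · intro s hs
    simp only [← hNc]
    exact (Helper65.BL.PP_tendsto hs).sub_const a
  · refine ⟨3 / 2, by norm_num, fun h => ?_⟩
    have h1 : Helper65.BL.FF (3 / 2) = a := sub_eq_zero.mp h
    have h2 := Helper65.BL.FF_base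
    rw [h1, ha] at h2
    exact lt_irrefl _ h2

end Pool.Agent.S05200
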