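import Pool.Statements.S06224
import Pool.Agent.Helper67.Final

set_option autoImplicit false
open Pool Pool.MP_cfd281_an

namespace Pool.Agent.S06224

/-- The negation of the preceding statement: For each rational A of degree ≥2 that is not Lattès nor conjugate to z^n or ±Chebyshev, there are a Galois covering P and F with P∘A=F∘P such that, for B of degree ≥2, all ℂ(A^n)∩ℂ(B) hold a non-constant iff B right-divides P∘A^l for some l≥0. -/
theorem result :
    ¬ (∀ (A : RatFunc ℂ) (φ : RatFunc ℂ →ₐ[ℂ] RatFunc ℂ), φ RatFunc.X = A →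
    2 ≤ Module.finrank (IntermediateField.adjoin ℂ ({A} : Set (RatFunc ℂ))) (RatFunc ℂ) →
    ¬ ((∃ W : WeierstrassCurve ℂ, W.IsElliptic ∧
          ∃ (θ : RatFunc ℂ →ₐ[ℂ] W.toAffine.FunctionField)
            (L : W.toAffine.FunctionField →ₐ[ℂ] W.toAffine.FunctionField),
            L.comp θ = θ.comp φ) ∨
       (∃ (σ : RatFunc ℂ ≃ₐ[ℂ] RatFunc ℂ) (ψ : RatFunc ℂ →ₐ[ℂ] RatFunc ℂ),
          σ.toAlgHom.comp φ = ψ.comp σ.toAlgHom ∧
          ((∃ n : ℤ, ψ RatFunc.X = RatFunc.X ^ n) ∨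
           (∃ (n : ℤ) (s : ℂ), s ^ 2 = 1 ∧
              ψ RatFunc.X = algebraMap ℂ (RatFunc ℂ) s *
                algebraMap (Polynomial ℂ) (RatFunc ℂ) (Polynomial.Chebyshev.T ℂ n))))) →
    ∃ (P F : RatFunc ℂ) (ψ : RatFunc ℂ →ₐ[ℂ] RatFunc ℂ), ψ RatFunc.X = P ∧
      IsGalois (IntermediateField.adjoin ℂ ({P} : Set (RatFunc ℂ))) (RatFunc ℂ) ∧
      φ P = ψ F ∧
      ∀ B : RatFunc ℂ,
        2 ≤ Module.finrank (IntermediateField.adjoin ℂ ({B} : Set (RatFunc ℂ))) (RatFunc ℂ) →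
        ((∀ n : ℕ, 1 ≤ n → ∃ g : RatFunc ℂ,
            g ∈ IntermediateField.adjoin ℂ ({(⇑φ)^[n] RatFunc.X} : Set (RatFunc ℂ)) ∧
            g ∈ IntermediateField.adjoin ℂ ({B} : Set (RatFunc ℂ)) ∧
            g ∉ (⊥ : IntermediateField ℂ (RatFunc ℂ))) ↔
         ∃ l : ℕ, (⇑φ)^[l] P ∈ IntermediateField.adjoin ℂ ({B} : Set (RatFunc ℂ)))) := by
  intro H
  obtain ⟨φ, hφ⟩ := Pool.Agent.Helper67.exists_phi
  obtain ⟨P, F, ψ, hψ, hgal, hPF, hiff⟩ := H (φ RatFunc.X) φ rfl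
    (Pool.Agent.Helper67.finrank_A φ hφ) (Pool.Agent.Helper67.not_special φ hφ)
  have hX := Pool.Agent.Helper67.galois_trivial φ hφ P F ψ hψ hPF _ rfl hgal
  set b := algebraMap (Polynomial ℂ) (RatFunc ℂ) Pool.Agent.Helper67.nB with hb
  -- the degree of B
  have hB2 : 2 ≤ Module.finrank (IntermediateField.adjoin ℂ ({b} : Set (RatFunc ℂ)))
      (RatFunc ℂ) := by
    rw [RatFunc.finrank_eq_max_natDegree, hb, RatFunc.num_algebraMap, RatFunc.denom_algebraMap,
      Pool.Agent.Helper67.nB_natDegree]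
    simp
  have hbnot : b ∉ (⊥ : IntermediateField ℂ (RatFunc ℂ)) := by
    intro h
    rw [IntermediateField.mem_bot] at h
    obtain ⟨c, hc⟩ := h
    have hc' : RatFunc.C c = b := hc
    rw [hb, ← RatFunc.algebraMap_C] at hc'
    have h6 := congrArg Polynomial.natDegree (RatFunc.algebraMap_injective ℂ hc')
    rw [Pool.Agent.Helper67.nB_natDegree, Polynomial.natDegree_C] at h6
    norm_num at h6
  -- condition (i)
  have hφmem : ∀ f ∈ IntermediateField.adjoin ℂ ({b} : Set (RatFunc ℂ)),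
      φ f ∈ IntermediateField.adjoin ℂ ({b} : Set (RatFunc ℂ)) := by
    have h1 : IntermediateField.adjoin ℂ ({b} : Set (RatFunc ℂ)) ≤
        (IntermediateField.adjoin ℂ ({b} : Set (RatFunc ℂ))).comap φ := by
      rw [IntermediateField.adjoin_le_iff]
      rintro x rfl
      exact Pool.Agent.Helper67.phi_B_mem φ hφ
    intro f hf
    exact h1 hf
  have hi : ∀ n : ℕ, 1 ≤ n → ∃ g : RatFunc ℂ,
      g ∈ IntermediateField.adjoin ℂ ({(⇑φ)^[n] RatFunc.X} : Set (RatFunc ℂ)) ∧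
      g ∈ IntermediateField.adjoin ℂ ({b} : Set (RatFunc ℂ)) ∧
      g ∉ (⊥ : IntermediateField ℂ (RatFunc ℂ)) := by
    intro n _
    obtain ⟨Φ, hΦ⟩ := Pool.Agent.Helper67.iterate_hom φ n
    refine ⟨(⇑φ)^[n] b, ?_, ?_, ?_⟩
    · rw [← hΦ, ← hΦ, hb, Pool.Agent.Helper67.hom_aeval]
      exact (IntermediateField.algebra_adjoin_le_adjoin ℂ _)
        (Polynomial.aeval_mem_adjoin_singleton ℂ _)
    · have : ∀ m : ℕ, (⇑φ)^[m] b ∈ IntermediateField.adjoin ℂ ({b} : Set (RatFunc ℂ)) := by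
        intro m
        induction m with
        | zero => exact IntermediateField.mem_adjoin_simple_self ℂ b
        | succ m ih =>
          rw [Function.iterate_succ_apply']
          exact hφmem _ ih
      exact this n
    · intro h
      rw [IntermediateField.mem_bot] at h
      obtain ⟨c, hc⟩ := h
      rw [← hΦ] at hc
      apply hbnot
      rw [IntermediateField.mem_bot]
      refine ⟨c, ?_⟩
      apply Φ.toRingHom.injective
      show Φ (algebraMap ℂ (RatFunc ℂ) c) = Φ b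
      rw [Φ.commutes]
      exact hc
  obtain ⟨l, hl⟩ := (hiff b hB2).mp hi
  -- X lies in ℂ(P), so the l-th iterate lies in ℂ(φ^l P)
  obtain ⟨Φ, hΦ⟩ := Pool.Agent.Helper67.iterate_hom φ l
  have hXl : (⇑φ)^[l] RatFunc.X ∈ IntermediateField.adjoin ℂ ({b} : Set (RatFunc ℂ)) := by
    have h1 : IntermediateField.adjoin ℂ ({P} : Set (RatFunc ℂ)) ≤
        (IntermediateField.adjoin ℂ ({b} : Set (RatFunc ℂ))).comap Φ := by
      rw [IntermediateField.adjoin_le_iff]
      rintro x rfl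
      show Φ x ∈ IntermediateField.adjoin ℂ ({b} : Set (RatFunc ℂ))
      rw [hΦ]
      exact hl
    have h2 : Φ RatFunc.X ∈ IntermediateField.adjoin ℂ ({b} : Set (RatFunc ℂ)) := h1 hX
    rw [← hΦ]
    exact h2
  exact Pool.Agent.Helper67.not_right_factor φ hφ l hXl

end Pool.Agent.S06224
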