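import Pool.Statements.S06353
import Pool.Agent.Helper68.WCG.Final

set_option autoImplicit false
open Pool Pool.MP_d939a7_an

namespace Pool.Agent.S06353

/-- Every real Banach space that is the dense range of an operator from an Asplund space, is WLD (linearly dense set countably supporting the dual), and has density above aleph_1 contains a weakly compact set with dense span. -/
theorem result :
  ∀ (X : Type) [NormedAddCommGroup X] [NormedSpace ℝ X] [CompleteSpace X],
    (∃ (Y : Type) (_ : NormedAddCommGroup Y) (_ : NormedSpace ℝ Y) (_ : CompleteSpace Y),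
      (∀ S : Submodule ℝ Y, TopologicalSpace.IsSeparable (S : Set Y) →
          TopologicalSpace.SeparableSpace (S →L[ℝ] ℝ)) ∧
      ∃ T : Y →L[ℝ] X, DenseRange T) →
    (∃ M : Set X, Dense (Submodule.span ℝ M : Set X) ∧
      ∀ f : X →L[ℝ] ℝ, {x ∈ M | f x ≠ 0}.Countable) →
    (∀ s : Set X, Dense s → Cardinal.aleph 1 < Cardinal.mk s) →
    ∃ K : Set X, IsCompact (toWeakSpace ℝ X '' K) ∧
      Dense (Submodule.span ℝ K : Set X) := by
  intro X _ _ _ h1 h2 _
  exact Pool.Agent.Helper68.WCG.wcg_of_asplundGenerated_wld X h1 h2

end Pool.Agent.S06353
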