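import Pool.Statements.S06766
import Pool.Agent.Helper71.Lac8

set_option autoImplicit false
open MeasureTheory
open scoped ENNReal NNReal
open Pool Pool.MP_f93147_an

namespace Pool.Agent.S06766

/-- The negation of the preceding statement: For compactly supported finite measures μ on R^d with Fourier decay ∣ξ∣^-ε, the maximal function sup over k of ∣f*μ_{2^k}∣ obeys a weak-type (1,1) bound against the H^1 norm of f (Gaussian maximal-function norm). -/
theorem result :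
    ¬ (∀ (d : ℕ) (μ : Measure (EuclideanSpace ℝ (Fin d))), IsFiniteMeasure μ →
      (∃ K : Set (EuclideanSpace ℝ (Fin d)), IsCompact K ∧ μ Kᶜ = 0) →
      (∃ C ε : ℝ, 0 < ε ∧ ∀ ξ : EuclideanSpace ℝ (Fin d), 1 ≤ ‖ξ‖ →
          ‖∫ y, Complex.exp (((-2 * Real.pi * (inner ℝ y ξ) : ℝ) : ℂ) * Complex.I) ∂μ‖
            ≤ C * ‖ξ‖ ^ (-ε)) →
      ∃ A : ℝ≥0, ∀ f : EuclideanSpace ℝ (Fin d) → ℝ, Integrable f →
        ∀ s : ℝ, 0 < s →
          ENNReal.ofReal s *
              volume {x | ENNReal.ofReal s <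
                ⨆ k : ℤ, ‖∫ y, f (x - ((2 : ℝ) ^ k) • y) ∂μ‖ₑ}
            ≤ (A : ℝ≥0∞) * ∫⁻ x, ⨆ (t : ℝ) (_ : 0 < t),
                ‖∫ y, f (x - t • y) * Real.exp (-Real.pi * ‖y‖ ^ 2)‖ₑ) := by
  exact Helper71.lacunary_counterexample

end Pool.Agent.S06766
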