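import Pool.Statements.S06811
import Pool.Agent.Helper55.TM.Local3


/-! # MP_fc8395_an, frozen statement S06811

The bounded orbit set of the continued fraction trace map sequence on the cubic surface
`x^2+y^2+z^2-2xyz = 1+c^2/4` is a disjoint union of smooth curves lying in the leaves of a `C^1`
foliation (any `c > 0`; here `δ = 1`). The proof is in `Pool/Agent/Helper55/TM/` and the modules
imported from `Pool/Agent/Helper{11,14,16,31,42,52,68,75,80,84,87,95}/`. -/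

set_option autoImplicit false
open scoped ContDiff
open Pool Pool.MP_fc8395_an

namespace Pool.Agent.S06811

/-- Some δ>0 works so that for all λ in (0,δ) and irrational α in (0,1), the bounded-orbit set of the continued-fraction trace-map sequence on the cubic surface is a disjoint union of smooth curves lying in leaves of a C^1 foliation of a neighborhood. -/
theorem result :
    ∃ δ : ℝ, 0 < δ ∧ ∀ c : ℝ, 0 < c → c < δ → ∀ α : ℝ, Irrational α → 0 < α → α < 1 →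
      ∃ 𝒞 : Set (Set (ℝ × ℝ × ℝ)), ∃ A : Set (ℝ × ℝ → ℝ × ℝ × ℝ),
        𝒞.PairwiseDisjoint id ∧
        ⋃₀ 𝒞 = {p : ℝ × ℝ × ℝ |
            p.1 ^ 2 + p.2.1 ^ 2 + p.2.2 ^ 2 - 2 * p.1 * p.2.1 * p.2.2 = 1 + c ^ 2 / 4 ∧
            ∀ a : ℕ → ℤ, ∀ q : ℕ → ℝ × ℝ × ℝ,
              (∀ n, a n = ((⌊((fun x : ℝ => Int.fract x⁻¹)^[n] α)⁻¹⌋₊ : ℕ) : ℤ)) →
              q 0 = p →
              (∀ n, q (n + 1) =
                ((q n).1 * (Polynomial.Chebyshev.U ℝ (a n)).eval (q n).2.1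
                    - (q n).2.2 * (Polynomial.Chebyshev.U ℝ (a n - 1)).eval (q n).2.1,
                  (q n).1 * (Polynomial.Chebyshev.U ℝ (a n - 1)).eval (q n).2.1
                    - (q n).2.2 * (Polynomial.Chebyshev.U ℝ (a n - 2)).eval (q n).2.1,
                  (q n).2.1)) →
              ∃ C : ℝ, ∀ n, ‖q n‖ ≤ C} ∧
        (∀ φ ∈ A, ContDiff ℝ 1 φ ∧ Function.Injective φ ∧
            (∀ z, Function.Injective (fderiv ℝ φ z)) ∧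
            ∀ z, (φ z).1 ^ 2 + (φ z).2.1 ^ 2 + (φ z).2.2 ^ 2
                - 2 * (φ z).1 * (φ z).2.1 * (φ z).2.2 = 1 + c ^ 2 / 4) ∧
        (∀ φ ∈ A, ∀ ψ ∈ A, ∀ z w : ℝ × ℝ, φ z = ψ w →
            ∃ ε > 0, ∀ z' w' : ℝ × ℝ, dist z' z < ε → z'.2 = z.2 → ψ w' = φ z' → w'.2 = w.2) ∧
        (⋃₀ 𝒞 ⊆ ⋃ φ ∈ A, Set.range φ) ∧
        (∀ C ∈ 𝒞, ∃ γ : ℝ → ℝ × ℝ × ℝ, ∃ I : Set ℝ,
            I.OrdConnected ∧ I.Nontrivial ∧ ContDiff ℝ ∞ γ ∧ (∀ t, deriv γ t ≠ 0) ∧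
            Set.InjOn γ I ∧ γ '' I = C ∧
            ∀ t ∈ I, ∀ φ ∈ A, ∀ z : ℝ × ℝ, φ z = γ t →
              ∃ ε > 0, ∀ s ∈ I, |s - t| < ε → ∃ z' : ℝ × ℝ, φ z' = γ s ∧ z'.2 = z.2) := by
  refine ⟨1, one_pos, fun c hc _ α hirr h0 h1 => ?_⟩
  have he : 0 < c / 2 := by positivity
  have hk : ∀ n, 1 ≤ TM.digit α n := TM.digit_pos hirr h0 h1
  obtain ⟨A, hA, hpar, hcov, hsat⟩ := TM.local_theorem he hk
  have hcomp : ∀ φ ∈ A, ∀ ψ ∈ A, ∀ z w : ℝ × ℝ, φ z = ψ w →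
      ∃ ε > 0, ∀ w' : ℝ × ℝ, dist w' w < ε → w'.2 = w.2 → ∃ z', φ z' = ψ w' ∧ z'.2 = z.2 :=
    fun φ hφ ψ hψ z w h =>
      TM.parallel he (hA φ hφ) (hA ψ hψ) (fun z w h => hpar φ hφ ψ hψ z w h) h
  have hopen : ∀ φ ∈ A, ∀ O : Set (ℝ × ℝ), IsOpen O → ∃ O' : Set TM.Pt, IsOpen O' ∧
      O' ∩ TM.Surf (c / 2) = φ '' O :=
    fun φ hφ O hO => TM.chart_open he (hA φ hφ) hO
  have hWS : TM.W (c / 2) (TM.digit α) ⊆ TM.Surf (c / 2) := fun p hp => hp.1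
  obtain ⟨𝒞, hd, hU, hloc, hcover, hcurves⟩ :=
    TM.atlas_foliable he hWS hA hcomp hopen hcov hsat
  refine ⟨𝒞, A, hd, ?_, ?_, hloc, hcover, hcurves⟩
  · rw [hU]
    exact TM.W_frozen hc hirr h0 h1
  · intro φ hφ
    refine ⟨(hA φ hφ).smooth, (hA φ hφ).inj, (hA φ hφ).imm, fun z => ?_⟩
    have h := (hA φ hφ).mem z
    have h2 : TM.FV (φ z) = 1 + (c / 2) ^ 2 := h
    have h3 : (φ z).1 ^ 2 + (φ z).2.1 ^ 2 + (φ z).2.2 ^ 2
        - 2 * (φ z).1 * (φ z).2.1 * (φ z).2.2 = 1 + (c / 2) ^ 2 := h2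
    rw [h3]; ring

end Pool.Agent.S06811
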