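import Pool.Statements.S07757
import Pool.Agent.Helper20.EX3.R3
import Pool.Agent.Helper27.EX.RegIFin
import Pool.Agent.Helper27.EX.RegIIFin

set_option autoImplicit false
open Pool Pool.MP_2857a5_co

namespace Pool.Agent.S07757

/-- For every Δ there are c and N such that for all n ≥ N, every n-vertex digraph with all in- and out-degrees at least n/2 + c log n contains a spanning copy of every n-vertex oriented tree of maximum degree at most Δ. -/
theorem result :
    ∀ Δ : ℕ, ∃ c : ℝ, ∃ N : ℕ, ∀ n : ℕ, N ≤ n →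
      ∀ G : Fin n → Fin n → Prop,
        (∀ v : Fin n,
          (n : ℝ) / 2 + c * Real.log n ≤ (({w | G v w ∧ w ≠ v} : Set (Fin n)).ncard : ℝ) ∧
          (n : ℝ) / 2 + c * Real.log n ≤ (({w | G w v ∧ w ≠ v} : Set (Fin n)).ncard : ℝ)) →
        ∀ T : Fin n → Fin n → Prop,
          (∀ u v : Fin n, T u v → ¬ T v u) →
          (SimpleGraph.fromRel T).IsTree →
          (∀ v : Fin n, ((SimpleGraph.fromRel T).neighborSet v).ncard ≤ Δ) →
          ∃ φ : Fin n → Fin n, Function.Injective φ ∧
            ∀ u v : Fin n, T u v → G (φ u) (φ v) := by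
  exact OT.x3_frozen OT.regI OT.regII OT.x3_regIII OT.x3_is

end Pool.Agent.S07757
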