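import Pool.Statements.S08150
import Pool.Agent.Helper32.EH.Final

set_option autoImplicit false
open SimpleGraph
open Pool Pool.MP_391dbe_co

namespace Pool.Agent.S08150

/-- The negation of the preceding statement: For every t ≥ 4 and finite chordal K4-free graph H there is k such that every finite graph with no even hole, no induced H and no K_t lies inside a chordal graph on its vertices with no K_{k+2}, i.e. has treewidth at most k. -/
theorem result :
    ¬ (∀ (t : ℕ), 4 ≤ t →
    ∀ (W : Type) [Fintype W] (H : SimpleGraph W),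
      (∀ n : ℕ, 4 ≤ n → IsEmpty (SimpleGraph.cycleGraph n ↪g H)) →
      H.CliqueFree 4 →
      ∃ k : ℕ, ∀ (V : Type) [Fintype V] (G : SimpleGraph V),
        (∀ n : ℕ, 4 ≤ n → Even n → IsEmpty (SimpleGraph.cycleGraph n ↪g G)) →
        IsEmpty (H ↪g G) →
        G.CliqueFree t →
        ∃ G' : SimpleGraph V, G ≤ G' ∧
          (∀ n : ℕ, 4 ≤ n → IsEmpty (SimpleGraph.cycleGraph n ↪g G')) ∧
          G'.CliqueFree (k + 2)) := by
  intro h
  have hfin := Helper32.EH.H4_finite
  have : Fintype ((((Bool ⊕ Helper32.EH.H0.Dart) ⊕ (Helper32.EH.dbl Helper32.EH.H0).Dart) ⊕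
      (Helper32.EH.dbl (Helper32.EH.dbl Helper32.EH.H0)).Dart) ⊕
      (Helper32.EH.dbl (Helper32.EH.dbl (Helper32.EH.dbl Helper32.EH.H0))).Dart) :=
    Fintype.ofFinite _
  obtain ⟨k, hk⟩ := h 5 (by norm_num) _ Helper32.EH.H4 Helper32.EH.H4_chordal
    Helper32.EH.H4_cliqueFree
  have hbf := Helper32.EH.box_finite (k + 1)
  have : Fintype {x : Helper32.EH.P // Helper32.EH.inBox (k + 1) x} := Fintype.ofFinite _
  obtain ⟨G', hle, hch, hcf⟩ := hk _ (Helper32.EH.box (k + 1))
    (fun n hn he => Helper32.EH.box_even (k + 1) n hn he) (Helper32.EH.box_H4 (k + 1))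
    (Helper32.EH.box_K5 (k + 1))
  exact Helper32.EH.box_big (k + 1) G' hle hch hcf

end Pool.Agent.S08150
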