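import Pool.Statements.S08553
import Pool.Agent.Helper32.SymD

set_option autoImplicit false
open Pool Pool.MP_4912e6_co

namespace Pool.Agent.S08553

open Pool.Agent.Helper32.Sym

lemma connectedSpace_S : ConnectedSpace S := by
  have h : IsConnected (Metric.sphere (0 : Quaternion ℝ) 1) := by
    refine isConnected_sphere ?_ 0 zero_le_one
    rw [Quaternion.rank_eq_four]
    norm_num
  exact Subtype.connectedSpace h

/-- There is a connected compact Hausdorff group G with normalized Haar measure, some r ≥ 1, and a measurable r-coloring of G so that every measurable monochromatic set A with A = gA⁻¹g for some g has measure at most some c < 1/r². -/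
theorem result :
    ∃ (G : Type) (_ : Group G) (_ : TopologicalSpace G) (_ : IsTopologicalGroup G)
      (_ : CompactSpace G) (_ : ConnectedSpace G) (_ : T2Space G)
      (_ : MeasurableSpace G) (_ : BorelSpace G)
      (μ : MeasureTheory.Measure G) (_ : μ.IsHaarMeasure) (_ : μ.Regular)
      (_ : MeasureTheory.IsProbabilityMeasure μ)
      (r : ℕ) (χ : G → Fin r) (c : ENNReal),
      0 < r ∧ Measurable χ ∧ c < ((r : ENNReal) ^ 2)⁻¹ ∧
      ∀ (A : Set G) (i : Fin r) (g : G),
        MeasurableSet A → A ⊆ χ ⁻¹' {i} →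
        (fun x => g * x⁻¹ * g) '' A = A → μ A ≤ c := by
  obtain ⟨p, hple, hp⟩ := Nat.exists_infinite_primes 1000000
  have hfact : Fact p.Prime := ⟨hp⟩
  have hp0 : (0 : ℝ) < p := by exact_mod_cast hp.pos
  have hfact2 : Fact (0 < (p : ℝ)) := ⟨hp0⟩
  have hp2 : p ≠ 2 := by omega
  have hS : ConnectedSpace S := connectedSpace_S
  have hK : ConnectedSpace (K p) := inferInstanceAs (ConnectedSpace (AddCircle (p : ℝ)))
  let mG : MeasurableSpace (GG p) := borel (GG p)
  have bG : BorelSpace (GG p) := ⟨rfl⟩
  let μ : MeasureTheory.Measure (GG p) :=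
    MeasureTheory.Measure.haarMeasure (⊤ : TopologicalSpace.PositiveCompacts (GG p))
  have hμ : μ.IsHaarMeasure := MeasureTheory.Measure.isHaarMeasure_haarMeasure _
  have hprob : MeasureTheory.IsProbabilityMeasure μ := by
    constructor
    have := MeasureTheory.Measure.haarMeasure_self
      (K₀ := (⊤ : TopologicalSpace.PositiveCompacts (GG p)))
    simpa using this
  refine ⟨GG p, inferInstance, inferInstance, inferInstance, inferInstance, inferInstance,
    inferInstance, mG, bG, μ, hμ, inferInstance, hprob, 2, chi p,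
    ENNReal.ofReal (1 / 4 - 1 / 1000000), by norm_num, measurable_chi p, ?_, ?_⟩
  · have h4 : (((2 : ℕ) : ENNReal) ^ 2)⁻¹ = ENNReal.ofReal (1 / 4) := by
      rw [show (1 / 4 : ℝ) = ((2 : ℝ) ^ 2)⁻¹ by norm_num,
        ENNReal.ofReal_inv_of_pos (by norm_num), ENNReal.ofReal_pow (by norm_num)]
      norm_num
    rw [h4]
    exact (ENNReal.ofReal_lt_ofReal_iff (by norm_num)).mpr (by norm_num)
  · intro A i g _ hA hsymm
    have hsub : A ⊆ {P | chi p P = i ∧ chi p (R g P) = i} := by
      intro P hP
      refine ⟨hA hP, ?_⟩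
      have : g * P⁻¹ * g ∈ A := by
        rw [← hsymm]
        exact ⟨P, hP, rfl⟩
      exact hA this
    have hb := measure_bound p hp2 μ i g
    have hpR : (1000000 : ℝ) ≤ p := by exact_mod_cast hple
    have hinv : 1 / (p : ℝ) ≤ 1 / 1000000 := one_div_le_one_div_of_le (by norm_num) hpR
    have hinv0 : 0 < 1 / (p : ℝ) := by positivity
    have hnum : (1 + 2 / (p : ℝ)) ^ 2 / 4 - 1 / 131072 + 1 / p ≤ 1 / 4 - 1 / 1000000 := by
      have h2 : 2 / (p : ℝ) = 2 * (1 / p) := by ring
      rw [h2]
      nlinarith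
    calc μ A ≤ μ {P | chi p P = i ∧ chi p (R g P) = i} := MeasureTheory.measure_mono hsub
      _ = ENNReal.ofReal (μ.real {P | chi p P = i ∧ chi p (R g P) = i}) := by
          rw [MeasureTheory.ofReal_measureReal]
      _ ≤ _ := ENNReal.ofReal_le_ofReal (hb.trans hnum)

end Pool.Agent.S08553
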