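import Pool.Statements.S09846
import Pool.Agent.Helper6.Flow.Final

set_option autoImplicit false
open Pool Pool.MP_84601c_co

namespace Pool.Agent.S09846

/-- The negation of the preceding statement: For every finite graph whose flow polynomial (sum over edge subsets A of (-1)^(∣E∣-∣A∣) x^(∣A∣-∣V∣+components(A))) is not identically zero, every real root of that polynomial is at most 6. -/
theorem result :
    ¬ (∀ (V : Type) [Fintype V] [DecidableEq V] (G : SimpleGraph V) [DecidableRel G.Adj] (x : ℝ),
      (∑ A ∈ G.edgeFinset.powerset,
          Polynomial.C ((-1 : ℝ) ^ (G.edgeFinset.card - A.card)) *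
            Polynomial.X ^ (A.card + Nat.card (SimpleGraph.fromEdgeSet (A : Set (Sym2 V))).ConnectedComponent
              - Fintype.card V)) ≠ 0 →
      (∑ A ∈ G.edgeFinset.powerset,
          Polynomial.C ((-1 : ℝ) ^ (G.edgeFinset.card - A.card)) *
            Polynomial.X ^ (A.card + Nat.card (SimpleGraph.fromEdgeSet (A : Set (Sym2 V))).ConnectedComponent
              - Fintype.card V)).IsRoot x →
      x ≤ 6) := by
  intro h
  classical
  obtain ⟨N, G, x, h1, h2, h3⟩ := Pool.Agent.Helper6.Flow.exists_root_above
  have h4 := h (Fin N ⊕ (Fin N × Fin 3)) G x h1 h3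
  linarith

end Pool.Agent.S09846
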