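import Pool.Statements.S11026
import Pool.Agent.Helper27.Cube.Final

set_option autoImplicit false
open Pool Pool.MP_b8f462_co

namespace Pool.Agent.S11026

/-- The negation of the preceding statement: For every constant K there are arbitrarily large n such that, for every set A of 2^n points of the (n+1)-cube containing all points of weight at most k* or at least n+1−k*, every bijection from the n-cube onto A has average edge stretch greater than K. -/
theorem result :
    ¬ (∀ K : ℝ, ∀ N : ℕ, ∃ n : ℕ, N ≤ n ∧
      ∀ k : ℕ,
        IsGreatest {m : ℕ | ∑ j ∈ Finset.range (m + 1), (n + 1).choose j ≤ 2 ^ (n - 1)} k →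
        ∀ A : Finset (Fin (n + 1) → Bool),
          (∀ x : Fin (n + 1) → Bool,
              ((Finset.univ.filter (fun i => x i = true)).card ≤ k ∨
               n + 1 - k ≤ (Finset.univ.filter (fun i => x i = true)).card) → x ∈ A) →
          A.card = 2 ^ n →
          ∀ φ : (Fin n → Bool) → (Fin (n + 1) → Bool),
            Function.Injective φ →
            (∀ x, φ x ∈ A) →
            K * ((n : ℝ) * 2 ^ n) <
              ∑ x : Fin n → Bool, ∑ i : Fin n,
                (hammingDist (φ x) (φ (Function.update x i (!x i))) : ℝ)) := by
  intro h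
  obtain ⟨n, hn, H⟩ := h (3 * 10 ^ 14) 65536
  obtain ⟨k, hk, A, φ, hA, hcard, hinj, hmem, hsum⟩ := Pool.Agent.Helper27.Cube.main_bound n hn
  have h1 := H k hk A hA hcard φ hinj hmem
  exact absurd (lt_of_lt_of_le h1 hsum) (lt_irrefl _)

end Pool.Agent.S11026
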