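-- Proof of the frozen statement S11248 (negation form), by an explicit digraph on six vertices.
import Pool.Statements.S11248

set_option autoImplicit false
open Pool Pool.MP_c220a4_co

namespace Pool.Agent.S11248

/-- The six-vertex counterexample, given by its out-neighbour lists. The vertices `0` and `1` lie
on no common directed cycle, and both degree sequences are `2, 2, 2, 4, 4, 4`. -/
def adj (u v : Fin 6) : Bool :=
  match u, v with
  | 0, 4 => true | 0, 5 => true
  | 1, 3 => true | 1, 5 => true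
  | 2, 0 => true | 2, 1 => true | 2, 3 => true | 2, 4 => true
  | 3, 1 => true | 3, 2 => true | 3, 4 => true | 3, 5 => true
  | 4, 0 => true | 4, 2 => true | 4, 3 => true | 4, 5 => true
  | 5, 3 => true | 5, 4 => true
  | _, _ => false

theorem adj_strong (u v : Fin 6) : Relation.ReflTransGen (fun a b => adj a b = true) u v := by
  have h1 : ∀ a b : Fin 6, adj a b = true →
      Relation.ReflTransGen (fun a b => adj a b = true) a b := fun a b h =>
    Relation.ReflTransGen.single h
  -- every vertex reaches 4, and 4 reaches every vertex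
  have hto : ∀ a : Fin 6, Relation.ReflTransGen (fun a b => adj a b = true) a 4 := by
    intro a
    fin_cases a
    · exact h1 0 4 (by decide)
    · exact (h1 1 3 (by decide)).trans (h1 3 4 (by decide))
    · exact h1 2 4 (by decide)
    · exact h1 3 4 (by decide)
    · exact Relation.ReflTransGen.refl
    · exact h1 5 4 (by decide)
  have hfrom : ∀ a : Fin 6, Relation.ReflTransGen (fun a b => adj a b = true) 4 a := by
    intro a
    fin_cases a
    · exact h1 4 0 (by decide)
    · exact (h1 4 2 (by decide)).trans (h1 2 1 (by decide))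
    · exact h1 4 2 (by decide)
    · exact h1 4 3 (by decide)
    · exact Relation.ReflTransGen.refl
    · exact h1 4 5 (by decide)
  exact (hto u).trans (hfrom v)

theorem key2 : ∀ a : Fin 6, ∀ b : Fin 6, adj a b = true → b ≠ a → 
    adj b a = true →
    (a = 0 ∨ b = 0) → (a = 1 ∨ b = 1) → False := by decide

theorem key3 : ∀ a : Fin 6, ∀ b : Fin 6, adj a b = true → b ≠ a → 
    ∀ c : Fin 6, adj b c = true → c ≠ a → c ≠ b → 
    adj c a = true →
    (a = 0 ∨ b = 0 ∨ c = 0) → (a = 1 ∨ b = 1 ∨ c = 1) → False := by decide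

theorem key4 : ∀ a : Fin 6, ∀ b : Fin 6, adj a b = true → b ≠ a → 
    ∀ c : Fin 6, adj b c = true → c ≠ a → c ≠ b → 
    ∀ d : Fin 6, adj c d = true → d ≠ a → d ≠ b → d ≠ c → 
    adj d a = true →
    (a = 0 ∨ b = 0 ∨ c = 0 ∨ d = 0) → (a = 1 ∨ b = 1 ∨ c = 1 ∨ d = 1) → False := by decide

set_option synthInstance.maxSize 10000 in
theorem key5 : ∀ a : Fin 6, ∀ b : Fin 6, adj a b = true → b ≠ a → 
    ∀ c : Fin 6, adj b c = true → c ≠ a → c ≠ b → 
    ∀ d : Fin 6, adj c d = true → d ≠ a → d ≠ b → d ≠ c → 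
    ∀ e : Fin 6, adj d e = true → e ≠ a → e ≠ b → e ≠ c → e ≠ d → 
    adj e a = true →
    (a = 0 ∨ b = 0 ∨ c = 0 ∨ d = 0 ∨ e = 0) → (a = 1 ∨ b = 1 ∨ c = 1 ∨ d = 1 ∨ e = 1) → False := by decide

set_option synthInstance.maxSize 10000 in
set_option maxRecDepth 10000 in
theorem key6 : ∀ a : Fin 6, ∀ b : Fin 6, adj a b = true → b ≠ a → 
    ∀ c : Fin 6, adj b c = true → c ≠ a → c ≠ b → 
    ∀ d : Fin 6, adj c d = true → d ≠ a → d ≠ b → d ≠ c → 
    ∀ e : Fin 6, adj d e = true → e ≠ a → e ≠ b → e ≠ c → e ≠ d → 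
    ∀ g : Fin 6, adj e g = true → g ≠ a → g ≠ b → g ≠ c → g ≠ d → g ≠ e → 
    adj g a = true →
    (a = 0 ∨ b = 0 ∨ c = 0 ∨ d = 0 ∨ e = 0 ∨ g = 0) → (a = 1 ∨ b = 1 ∨ c = 1 ∨ d = 1 ∨ e = 1 ∨ g = 1) → False := by decide

theorem no_cycle (k : ℕ) (f : Fin k → Fin 6) (hf : Function.Injective f)
    (hA : ∀ j : Fin k, adj (f j) (f (finRotate k j)) = true)
    (h0 : (0 : Fin 6) ∈ Set.range f) (h1 : (1 : Fin 6) ∈ Set.range f) : False := by
  have hk : k ≤ 6 := by
    simpa using Fintype.card_le_of_injective f hf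
  obtain ⟨p, hp⟩ := h0
  obtain ⟨q, hq⟩ := h1
  have hne : ∀ i j : Fin k, i ≠ j → f i ≠ f j := fun i j h e => h (hf e)
  interval_cases k
  · exact p.elim0
  · have : p = q := Subsingleton.elim p q
    subst this
    rw [hp] at hq
    exact absurd hq (by decide)
  · refine key2 (f 0) (f 1) (hA 0) (hne 1 0 (by decide)) (hA 1) ?_ ?_
    · revert hp; fin_cases p <;> simp_all
    · revert hq; fin_cases q <;> simp_all
  · refine key3 (f 0) (f 1) (hA 0) (hne 1 0 (by decide)) (f 2) (hA 1) (hne 2 0 (by decide)) (hne 2 1 (by decide)) (hA 2) ?_ ?_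
    · revert hp; fin_cases p <;> simp_all
    · revert hq; fin_cases q <;> simp_all
  · refine key4 (f 0) (f 1) (hA 0) (hne 1 0 (by decide)) (f 2) (hA 1) (hne 2 0 (by decide)) (hne 2 1 (by decide)) (f 3) (hA 2) (hne 3 0 (by decide)) (hne 3 1 (by decide)) (hne 3 2 (by decide)) (hA 3) ?_ ?_
    · revert hp; fin_cases p <;> simp_all
    · revert hq; fin_cases q <;> simp_all
  · refine key5 (f 0) (f 1) (hA 0) (hne 1 0 (by decide)) (f 2) (hA 1) (hne 2 0 (by decide)) (hne 2 1 (by decide)) (f 3) (hA 2) (hne 3 0 (by decide)) (hne 3 1 (by decide)) (hne 3 2 (by decide)) (f 4) (hA 3) (hne 4 0 (by decide)) (hne 4 1 (by decide)) (hne 4 2 (by decide)) (hne 4 3 (by decide)) (hA 4) ?_ ?_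
    · revert hp; fin_cases p <;> simp_all
    · revert hq; fin_cases q <;> simp_all
  · refine key6 (f 0) (f 1) (hA 0) (hne 1 0 (by decide)) (f 2) (hA 1) (hne 2 0 (by decide)) (hne 2 1 (by decide)) (f 3) (hA 2) (hne 3 0 (by decide)) (hne 3 1 (by decide)) (hne 3 2 (by decide)) (f 4) (hA 3) (hne 4 0 (by decide)) (hne 4 1 (by decide)) (hne 4 2 (by decide)) (hne 4 3 (by decide)) (f 5) (hA 4) (hne 5 0 (by decide)) (hne 5 1 (by decide)) (hne 5 2 (by decide)) (hne 5 3 (by decide)) (hne 5 4 (by decide)) (hA 5) ?_ ?_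
    · revert hp; fin_cases p <;> simp_all
    · revert hq; fin_cases q <;> simp_all

/-- The negation of the preceding statement: Every strongly connected loopless digraph on n≥3 vertices satisfying both Nash-Williams conditions on its sorted in/out-degree sequences for all 1≤i<n/2 has, for any two distinct vertices, a directed cycle containing both. -/
theorem result :
    ¬ (∀ (n : ℕ) (A : Fin n → Fin n → Bool),
      3 ≤ n →
      (∀ v, A v v = false) →
      (∀ u v, Relation.ReflTransGen (fun a b => A a b = true) u v) →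
      (∀ i : ℕ, 1 ≤ i → 2 * i < n →
        ((Finset.univ.filter
            (fun v => (Finset.univ.filter (fun w => A v w = true)).card ≤ i)).card < i ∨
         (Finset.univ.filter
            (fun v => (Finset.univ.filter (fun w => A w v = true)).card < n - i)).card < n - i)) →
      (∀ i : ℕ, 1 ≤ i → 2 * i < n →
        ((Finset.univ.filter
            (fun v => (Finset.univ.filter (fun w => A w v = true)).card ≤ i)).card < i ∨
         (Finset.univ.filter
            (fun v => (Finset.univ.filter (fun w => A v w = true)).card < n - i)).card < n - i)) →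
      ∀ u v : Fin n, u ≠ v →
        ∃ (k : ℕ) (f : Fin k → Fin n),
          Function.Injective f ∧
          (∀ j : Fin k, A (f j) (f (finRotate k j)) = true) ∧
          u ∈ Set.range f ∧ v ∈ Set.range f) := by
  intro H
  obtain ⟨k, f, hf, hA, h0, h1⟩ := H 6 adj (by norm_num) (by decide) adj_strong
    (by
      intro i hi1 hi2
      have hi3 : i < 3 := by omega
      interval_cases i
      · decide
      · decide)
    (by
      intro i hi1 hi2
      have hi3 : i < 3 := by omega
      interval_cases i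
      · decide
      · decide)
    0 1 (by decide)
  exact no_cycle k f hf hA h0 h1

end Pool.Agent.S11248
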