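import Pool.Statements.S11335
import Pool.Agent.Helper70.LA.Final

set_option autoImplicit false
open Pool Pool.MP_c61924_co

namespace Pool.Agent.S11335

/-- For each d ≥ 3 there is c > 0 such that every set of N ≥ 2 points in [0,1]^d has L1 norm of its local discrepancy, counted over boxes [0,x), at least c·(log N)^((d−1)/2). -/
theorem result :
    ∀ d : ℕ, 3 ≤ d → ∃ c : ℝ, 0 < c ∧
      ∀ N : ℕ, 2 ≤ N → ∀ P : Finset (Fin d → ℝ), P.card = N →
        (∀ p ∈ P, p ∈ Set.Icc (0 : Fin d → ℝ) 1) →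
        c * (Real.log (N : ℝ)) ^ (((d : ℝ) - 1) / 2) ≤
          ∫ x in Set.Icc (0 : Fin d → ℝ) 1,
            abs ((((P : Set (Fin d → ℝ)) ∩ Set.pi Set.univ (fun i => Set.Iio (x i))).ncard : ℝ)
              - (N : ℝ) * ∏ i, x i) := by
  intro d hd
  obtain ⟨c, hc, h⟩ := Pool.Agent.Helper70.LA.disc_all d hd
  refine ⟨c, hc, fun N hN P hP _ => ?_⟩
  exact h N hN P hP

end Pool.Agent.S11335
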