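import Pool.Statements.S11390
import Pool.Agent.Helper30.CovBody

set_option autoImplicit false
open Pool Pool.MP_c83c77_co

namespace Pool.Agent.S11390

open Pool.Agent.Helper30.Cov MeasureTheory

lemma prod_if (N : ℕ) (A B : ℝ) :
    ∏ i : Fin (4 * N), (if (i : ℕ) + 1 ≤ N then A else B) = A ^ N * B ^ (3 * N) := by
  rw [← Finset.prod_range (fun i : ℕ => if i + 1 ≤ N then A else B)]
  have h : 4 * N = N + 3 * N := by ring
  rw [h, Finset.prod_range_add]
  congr 1
  · rw [Finset.prod_congr rfl (fun i hi => if_pos (by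
      have := Finset.mem_range.1 hi; omega)), Finset.prod_const, Finset.card_range]
  · rw [Finset.prod_congr rfl (fun i _ => if_neg (by omega)), Finset.prod_const,
      Finset.card_range]

/-- The negation of the preceding statement: For every d ≥ 1 and every compact convex K in R^d with nonempty interior, the product of its covering minima (with respect to the integer lattice) times the volume of K is at least (d+1)/2^d. -/
theorem result :
    ¬ (∀ d : ℕ, 1 ≤ d → ∀ K : Set (Fin d → ℝ), Convex ℝ K → IsCompact K → (interior K).Nonempty →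
      (∏ i : Fin d, sInf {μ : ℝ | 0 < μ ∧
          ∀ A : AffineSubspace ℝ (Fin d → ℝ), (A : Set (Fin d → ℝ)).Nonempty →
            Module.finrank ℝ A.direction = d - (i.val + 1) →
            ∃ x ∈ K, ∃ z : Fin d → ℤ, μ • x + (fun j => (z j : ℝ)) ∈ A})
        * (MeasureTheory.volume K).toReal ≥ ((d : ℝ) + 1) / 2 ^ d) := by
  intro hall
  set ε : ℝ := (512 * 16 * Real.exp (4 * Real.pi))⁻¹ with hεdef
  have hexp1 : 1 ≤ Real.exp (4 * Real.pi) := Real.one_le_exp (by positivity)
  have hε : 0 < ε := by positivity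
  have hε1 : ε ≤ 1 := by
    rw [hεdef]
    apply inv_le_one_of_one_le₀
    nlinarith
  obtain ⟨N, p, hFact, hN, ρ, hρ8, hρn, i0, a, ha, hth8, hthW⟩ := key hε hε1
  have hρ0 : 0 < ρ := by linarith
  have hp0 : (0 : ℝ) < p := by rw [← hρn]; positivity
  -- properties of the body
  have hconv : Convex ℝ (KK i0 a) := by
    unfold KK
    exact (convex_closedBall _ _).linear_image (Ph i0 a : E (4 * N) →ₗ[ℝ] (Fin (4 * N) → ℝ))
  have hcomp : IsCompact (KK i0 a) := by
    unfold KK
    exact (isCompact_closedBall _ _).image (Ph i0 a).toContinuousLinearEquiv.continuous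
  have hNr : (0 : ℝ) < ((4 * N : ℕ) : ℝ) := by
    have : 0 < 4 * N := by omega
    exact_mod_cast this
  have hint : (interior (KK i0 a)).Nonempty := by
    have hopen : IsOpen (Ph i0 a '' Metric.ball (0 : E (4 * N)) (Real.sqrt (4 * N : ℕ))) :=
      (Ph i0 a).toContinuousLinearEquiv.toHomeomorph.isOpenMap _ Metric.isOpen_ball
    refine ⟨Ph i0 a 0, ?_⟩
    rw [mem_interior]
    refine ⟨_, Set.image_mono Metric.ball_subset_closedBall, hopen, ⟨0, ?_, rfl⟩⟩
    rw [Metric.mem_ball, dist_self]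
    exact Real.sqrt_pos.2 hNr
  have hmain := hall (4 * N) (by omega) (KK i0 a) hconv hcomp hint
  -- the volume
  have hvol : (volume (KK i0 a)).toReal ≤ p * Real.exp (Real.pi * (4 * N : ℕ)) := by
    have e1 : KK i0 a = (QQ i0 a : (Fin (4 * N) → ℝ) →ₗ[ℝ] (Fin (4 * N) → ℝ)) ''
        (cd (4 * N) '' Metric.closedBall (0 : E (4 * N)) (Real.sqrt (4 * N : ℕ))) := by
      unfold KK Ph
      rw [← Set.image_comp]
      rfl
    rw [e1, Measure.addHaar_image_linearMap, det_QQ]
    have e2 : volume (cd (4 * N) '' Metric.closedBall (0 : E (4 * N)) (Real.sqrt (4 * N : ℕ))) =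
        volume (Metric.closedBall (0 : E (4 * N)) (Real.sqrt (4 * N : ℕ))) := by
      have h1 := (PiLp.volume_preserving_toLp (Fin (4 * N))).measure_preimage_emb
        (MeasurableEquiv.toLp 2 (Fin (4 * N) → ℝ)).measurableEmbedding
        (Metric.closedBall (0 : E (4 * N)) (Real.sqrt (4 * N : ℕ)))
      rw [← h1]
      congr 1
      ext x
      constructor
      · rintro ⟨y, hy, rfl⟩
        exact hy
      · intro hx
        exact ⟨WithLp.toLp 2 x, hx, rfl⟩
    rw [e2, ENNReal.toReal_mul, ENNReal.toReal_ofReal (abs_nonneg _), abs_of_pos hp0]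
    exact mul_le_mul_of_nonneg_left (vol_ball_le (4 * N)) hp0.le
  -- the covering minima
  have hmin : ∀ i : Fin (4 * N), sInf {μ : ℝ | 0 < μ ∧
          ∀ A : AffineSubspace ℝ (Fin (4 * N) → ℝ), (A : Set (Fin (4 * N) → ℝ)).Nonempty →
            Module.finrank ℝ A.direction = 4 * N - (i.val + 1) →
            ∃ x ∈ KK i0 a, ∃ z : Fin (4 * N) → ℤ, μ • x + (fun j => (z j : ℝ)) ∈ A} ≤
      if (i : ℕ) + 1 ≤ N then ε / ρ else 8 / ρ := by
    intro i
    have hbdd : BddBelow {μ : ℝ | 0 < μ ∧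
          ∀ A : AffineSubspace ℝ (Fin (4 * N) → ℝ), (A : Set (Fin (4 * N) → ℝ)).Nonempty →
            Module.finrank ℝ A.direction = 4 * N - (i.val + 1) →
            ∃ x ∈ KK i0 a, ∃ z : Fin (4 * N) → ℤ, μ • x + (fun j => (z j : ℝ)) ∈ A} :=
      ⟨0, fun μ hμ => hμ.1.le⟩
    by_cases hi : (i : ℕ) + 1 ≤ N
    · rw [if_pos hi]
      refine csInf_le hbdd ⟨by positivity, fun A hA hAd => ?_⟩
      exact cov_mem i0 a ha (by positivity) i i.2 (fun W hW => hthW W (by omega)) A hA hAd
    · rw [if_neg hi]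
      refine csInf_le hbdd ⟨by positivity, fun A hA hAd => ?_⟩
      exact cov_mem i0 a ha (by positivity) i i.2 (fun W _ =>
        (thL_mono (La p a) le_top (by positivity)).trans hth8) A hA hAd
  have hnonneg : ∀ i : Fin (4 * N), 0 ≤ sInf {μ : ℝ | 0 < μ ∧
          ∀ A : AffineSubspace ℝ (Fin (4 * N) → ℝ), (A : Set (Fin (4 * N) → ℝ)).Nonempty →
            Module.finrank ℝ A.direction = 4 * N - (i.val + 1) →
            ∃ x ∈ KK i0 a, ∃ z : Fin (4 * N) → ℤ, μ • x + (fun j => (z j : ℝ)) ∈ A} :=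
    fun i => Real.sInf_nonneg (fun μ hμ => hμ.1.le)
  have hprod := Finset.prod_le_prod (s := Finset.univ) (fun i _ => hnonneg i)
    (fun i _ => hmin i)
  rw [prod_if] at hprod
  -- numerics
  have h1 : (ε / ρ) ^ N * (8 / ρ) ^ (3 * N) * (p * Real.exp (Real.pi * (4 * N : ℕ))) =
      (1 / 16 : ℝ) ^ N := by
    have e1 : Real.exp (Real.pi * (4 * N : ℕ)) = Real.exp (4 * Real.pi) ^ N := by
      rw [← Real.exp_nat_mul]; congr 1; push_cast; ring
    have e2 : (p : ℝ) = ρ ^ N * ρ ^ (3 * N) := by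
      rw [← hρn, ← pow_add]; congr 1; ring
    rw [e1, e2, div_pow, div_pow]
    have e3 : ε ^ N / ρ ^ N * (8 ^ (3 * N) / ρ ^ (3 * N)) *
        (ρ ^ N * ρ ^ (3 * N) * Real.exp (4 * Real.pi) ^ N) =
        ε ^ N * 8 ^ (3 * N) * Real.exp (4 * Real.pi) ^ N := by
      field_simp
    rw [e3]
    have e4 : (8 : ℝ) ^ (3 * N) = 512 ^ N := by rw [pow_mul]; norm_num
    rw [e4, ← mul_pow, ← mul_pow]
    congr 1
    rw [hεdef]
    field_simp
  have h2 : (∏ i : Fin (4 * N), sInf {μ : ℝ | 0 < μ ∧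
          ∀ A : AffineSubspace ℝ (Fin (4 * N) → ℝ), (A : Set (Fin (4 * N) → ℝ)).Nonempty →
            Module.finrank ℝ A.direction = 4 * N - (i.val + 1) →
            ∃ x ∈ KK i0 a, ∃ z : Fin (4 * N) → ℤ, μ • x + (fun j => (z j : ℝ)) ∈ A})
        * (MeasureTheory.volume (KK i0 a)).toReal ≤ (1 / 16 : ℝ) ^ N := by
    rw [← h1]
    exact mul_le_mul hprod hvol ENNReal.toReal_nonneg (by positivity)
  have h3 : (((4 * N : ℕ) : ℝ) + 1) / 2 ^ (4 * N) > (1 / 16 : ℝ) ^ N := by
    have e1 : (2 : ℝ) ^ (4 * N) = 16 ^ N := by rw [pow_mul]; norm_num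
    rw [e1, one_div, inv_pow, gt_iff_lt, inv_eq_one_div]
    apply div_lt_div_of_pos_right _ (by positivity)
    linarith
  linarith

end Pool.Agent.S11390
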