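import Pool.Statements.S11742
import Pool.Agent.Helper31.GB.Final

set_option autoImplicit false
open Pool Pool.MP_d7f58c_co

namespace Pool.Agent.S11742

/-- The negation of the preceding statement: For every ε>0 and all large n, every n×n ±1 matrix admits row and column sign flips x,y with sum of a_ij·x_i·y_j at least (1−ε)·n^{3/2}; that is, the switching-game value is at least (1+o(1))·n^{3/2}. -/
theorem result :
    ¬ (∀ ε : ℝ, 0 < ε → ∃ N : ℕ, ∀ n : ℕ, N ≤ n →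
      ∀ A : Fin n → Fin n → ℤ, (∀ i j, A i j = 1 ∨ A i j = -1) →
        ∃ x y : Fin n → ℤ, (∀ i, x i = 1 ∨ x i = -1) ∧ (∀ j, y j = 1 ∨ y j = -1) ∧
          (1 - ε) * ((n : ℝ) ^ ((3 : ℝ) / 2)) ≤
            ((∑ i : Fin n, ∑ j : Fin n, A i j * x i * y j : ℤ) : ℝ)) := by
  intro hall
  obtain ⟨ε, hε, k0, hmain⟩ := Pool.Agent.Helper31.GB.main
  obtain ⟨N, hN⟩ := hall (ε / 2) (by linarith)
  obtain ⟨ι, i1, i2, A, hcard, hA, hbound⟩ := hmain (max k0 N) (le_max_left _ _)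
  set k := max k0 N with hk
  have hNk : N ≤ 2 ^ k := (le_max_right k0 N).trans (Nat.lt_two_pow_self).le
  let e : ι ≃ Fin (2 ^ k) := Fintype.equivFinOfCardEq hcard
  obtain ⟨x, y, hx, hy, hxy⟩ := hN (2 ^ k) hNk (fun i j => A (e.symm i) (e.symm j))
    (fun i j => hA.pm _ _)
  -- sign vectors
  have hunit : ∀ a : ℤ, (a = 1 ∨ a = -1) → ∃ u : ℤˣ, (u : ℤ) = a := by
    rintro a (h | h)
    · exact ⟨1, by simp [h]⟩
    · exact ⟨-1, by simp [h]⟩
  choose ux hux using fun i => hunit (x (e i)) (hx (e i))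
  choose uy huy using fun j => hunit (y (e j)) (hy (e j))
  have hb := hbound uy ux
  have hsum : ((∑ i : Fin (2 ^ k), ∑ j : Fin (2 ^ k),
      A (e.symm i) (e.symm j) * x i * y j : ℤ) : ℝ) =
      ∑ i, Pool.Agent.Helper31.GB.mv A uy i * ((ux i : ℤ) : ℝ) := by
    push_cast
    rw [← Equiv.sum_comp e]
    refine Finset.sum_congr rfl fun i _ => ?_
    unfold Pool.Agent.Helper31.GB.mv
    rw [← Equiv.sum_comp e, Finset.sum_mul]
    refine Finset.sum_congr rfl fun j _ => ?_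
    rw [hux, huy]
    simp only [Equiv.symm_apply_apply]
    ring
  rw [hsum] at hxy
  have hpos : (0 : ℝ) < ((2 ^ k : ℕ) : ℝ) := by positivity
  have hrpow : ((2 ^ k : ℕ) : ℝ) ^ ((3 : ℝ) / 2) = ((2 ^ k : ℕ) : ℝ) * √((2 ^ k : ℕ) : ℝ) := by
    rw [show (3 : ℝ) / 2 = 1 + 1 / 2 by norm_num, Real.rpow_add hpos, Real.rpow_one,
      Real.sqrt_eq_rpow]
  rw [hrpow] at hxy
  rw [hcard] at hb
  have hP : (0 : ℝ) < ((2 ^ k : ℕ) : ℝ) * √((2 ^ k : ℕ) : ℝ) :=
    mul_pos hpos (Real.sqrt_pos.mpr hpos)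
  have h1 := hxy.trans hb
  have h2 : (1 - ε / 2) ≤ (1 - ε) := le_of_mul_le_mul_right h1 hP
  linarith

end Pool.Agent.S11742
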