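import Pool.Statements.S12015
import Pool.Agent.Helper41.PX.Step3
import Pool.Agent.Helper38.C3.Sm3

set_option autoImplicit false
open Pool Pool.MP_e243c1_co

namespace Pool.Agent.S12015

/-- For every t ≥ 3 and n, any finite family of graphs on n labelled vertices in which every two members (possibly equal) share a subgraph of chromatic number at least t has at most 2^(C(n,2) − C(t,2)) members. -/
theorem result :
    ∀ (t : ℕ), 3 ≤ t → ∀ (n : ℕ) (F : Finset (SimpleGraph (Fin n))),
      (∀ G ∈ F, ∀ H ∈ F, ((t : ℕ∞) ≤ (G ⊓ H).chromaticNumber)) →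
        F.card ≤ 2 ^ (n.choose 2 - t.choose 2) :=
  Pool.Agent.Helper38.C3.frozen_of_step3 fun _ S hS h2 h3 =>
    Pool.Agent.Helper41.PX.step3 S hS h2 h3

end Pool.Agent.S12015
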