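import Pool.Statements.S12020
import Pool.Agent.Helper35.KoolenYangC

set_option autoImplicit false
open Pool Pool.MP_e25938_co

namespace Pool.Agent.S12020

/-- The negation of the preceding statement: There is a positive integer c such that for every finite simple graph with adjacency matrix A and smallest eigenvalue at least −3, with k the floor of that smallest eigenvalue, c(A − kI) equals N Nᵀ for some integer matrix N. -/
theorem result :
    ¬ (∃ c : ℕ, 0 < c ∧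
      ∀ (n : ℕ) (G : SimpleGraph (Fin n)) [DecidableRel G.Adj],
        (G.adjMatrix ℝ + (3 : ℝ) • (1 : Matrix (Fin n) (Fin n) ℝ)).PosSemidef →
        ∀ k : ℤ,
          (G.adjMatrix ℝ - (k : ℝ) • (1 : Matrix (Fin n) (Fin n) ℝ)).PosSemidef →
          ¬ (G.adjMatrix ℝ - ((k : ℝ) + 1) • (1 : Matrix (Fin n) (Fin n) ℝ)).PosSemidef →
          ∃ (m : ℕ) (N : Matrix (Fin n) (Fin m) ℤ),
            (c : ℤ) • (G.adjMatrix ℤ - k • (1 : Matrix (Fin n) (Fin n) ℤ)) = N * N.transpose) := by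
  rintro ⟨c, hc, h⟩
  obtain ⟨n, G, dec, h3, h2, hno⟩ := Pool.Agent.Helper35.KoolenYang.main c hc
  apply hno
  have h3' : (G.adjMatrix ℝ - ((-3 : ℤ) : ℝ) • (1 : Matrix (Fin n) (Fin n) ℝ)).PosSemidef := by
    have e : G.adjMatrix ℝ - ((-3 : ℤ) : ℝ) • (1 : Matrix (Fin n) (Fin n) ℝ)
        = G.adjMatrix ℝ + (3 : ℝ) • (1 : Matrix (Fin n) (Fin n) ℝ) := by
      push_cast
      rw [neg_smul, sub_neg_eq_add]
    rw [e]
    exact h3
  have h2' : ¬ (G.adjMatrix ℝ - (((-3 : ℤ) : ℝ) + 1) •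
      (1 : Matrix (Fin n) (Fin n) ℝ)).PosSemidef := by
    have e : G.adjMatrix ℝ - (((-3 : ℤ) : ℝ) + 1) • (1 : Matrix (Fin n) (Fin n) ℝ)
        = G.adjMatrix ℝ + (2 : ℝ) • (1 : Matrix (Fin n) (Fin n) ℝ) := by
      have : (((-3 : ℤ) : ℝ) + 1) = -2 := by norm_num
      rw [this, neg_smul, sub_neg_eq_add]
    rw [e]
    exact h2
  obtain ⟨p, N, hN⟩ := h n G h3 (-3) h3' h2'
  refine ⟨p, N, ?_⟩
  rw [← hN, neg_smul, sub_neg_eq_add]

end Pool.Agent.S12020
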