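import Pool.Statements.S12646
import Pool.Agent.Helper43.OL.All

set_option autoImplicit false
open Pool Pool.MP_ff53f3_co

namespace Pool.Agent.S12646

/-- The negation of the preceding statement: There is a polynomial p with natural coefficients such that every finite graph that is k-choosable is on-line p(k)-choosable, i.e. Painter wins the Lister/Painter game when every vertex has p(k) tokens. -/
theorem result :
    ¬ (∃ p : Polynomial ℕ, ∀ n : ℕ, ∀ G : SimpleGraph (Fin n), ∀ k : ℕ,
      (∀ L : Fin n → Finset ℕ, (∀ v, k ≤ (L v).card) →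
        ∃ c : Fin n → ℕ, (∀ v, c v ∈ L v) ∧ ∀ u v, G.Adj u v → c u ≠ c v) →
      ∀ S : Set (Finset (Fin n) × (Fin n → ℕ)),
        (∀ U : Finset (Fin n), ∀ f : Fin n → ℕ,
          (∀ M ⊆ U, M.Nonempty →
            ∃ I ⊆ M, (∀ u ∈ I, ∀ v ∈ I, ¬ G.Adj u v) ∧
              (∀ v ∈ M, 1 ≤ f v) ∧ (∀ v ∈ M \ I, 2 ≤ f v) ∧
              (U \ I, fun v => if v ∈ M then f v - 1 else f v) ∈ S) →
          (U, f) ∈ S) →
        (Finset.univ, fun _ => p.eval k) ∈ S) := by
  exact Pool.Agent.Helper43.OL.allFI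

end Pool.Agent.S12646
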