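import Pool.Statements.S12841
import Pool.Agent.Helper55.Zono.Full

set_option autoImplicit false
open Pool Pool.MP_1bae07_gt

namespace Pool.Agent.S12841

/-- There is an absolute constant C such that for every origin-centred zonotope K in ℝ^d and any finitely many vectors in K, some choice of signs puts their signed sum in C√d·K, i.e. vb(K,K) ≤ C√d. -/
theorem result :
    ∃ C : ℝ, 0 < C ∧
      ∀ (d m : ℕ) (v : Fin m → (Fin d → ℝ)) (n : ℕ) (u : Fin n → (Fin d → ℝ)),
        (∀ i, ∃ t : Fin m → ℝ, (∀ j, t j ∈ Set.Icc (-1 : ℝ) 1) ∧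
            u i = ∑ j, t j • v j) →
        ∃ ε : Fin n → ℝ, (∀ i, ε i = 1 ∨ ε i = -1) ∧
          ∃ s : Fin m → ℝ, (∀ j, s j ∈ Set.Icc (-1 : ℝ) 1) ∧
            ∑ i, ε i • u i = (C * Real.sqrt d) • ∑ j, s j • v j := by
  classical
  refine ⟨2700, by norm_num, ?_⟩
  intro d m v n u hu
  choose t ht1 ht2 using hu
  rcases Nat.eq_zero_or_pos d with hd | hd
  · subst hd
    refine ⟨fun _ => 1, fun _ => Or.inl rfl, fun _ => 0, fun _ => by simp, ?_⟩
    exact Subsingleton.elim _ _
  -- the nonzero generators
  let κ := {j : Fin m // v j ≠ 0}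
  let v' : κ → EuclideanSpace ℝ (Fin d) := fun k => WithLp.toLp 2 (v k)
  have hv' : ∀ k, v' k ≠ 0 := by
    intro k h
    refine k.2 ?_
    have := congrArg WithLp.ofLp h
    simpa [v'] using this
  obtain ⟨x, Z, hx, hZ, hlin⟩ := Pool.Agent.Helper55.Zono.balancing_nonzero v' hv'
    (fun (k : κ) (i : Fin n) => t i k) (fun k i => abs_le.2 (ht1 i k))
  rw [finrank_euclideanSpace, Fintype.card_fin] at hZ
  have hd' : (0 : ℝ) < 2700 * Real.sqrt d := by
    have : (0 : ℝ) < d := by exact_mod_cast hd
    positivity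
  have hlin' : ∑ k : κ, (∑ i, t i k * x i) • v k = ∑ k : κ, Z k • v k := by
    have h1 := congrArg WithLp.ofLp hlin
    simpa [v', WithLp.ofLp_sum] using h1
  refine ⟨x, fun i => ?_, fun j => if h : v j ≠ 0 then Z ⟨j, h⟩ / (2700 * Real.sqrt d) else 0,
    fun j => ?_, ?_⟩
  · have := hx i
    rcases le_total 0 (x i) with h | h
    · left; rwa [abs_of_nonneg h] at this
    · right; rw [abs_of_nonpos h] at this; linarith
  · dsimp only
    split_ifs with h
    · have h1 := abs_le.1 (hZ ⟨j, h⟩)
      rw [Set.mem_Icc, le_div_iff₀ hd', div_le_iff₀ hd']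
      constructor <;> linarith [h1.1, h1.2]
    · simp
  · have hsub : ∀ f : Fin m → ℝ, ∑ j, f j • v j = ∑ k : κ, f k • v k := by
      intro f
      have h2 : ∑ j ∈ (Finset.univ.filter fun j => v j ≠ 0), f j • v j =
          ∑ k : κ, f k • v k := Finset.sum_subtype _ (fun i => by simp) _
      rw [← h2]
      symm
      refine Finset.sum_subset (Finset.subset_univ _) fun j _ hj => ?_
      have : v j = 0 := by
        by_contra hne
        exact hj (Finset.mem_filter.2 ⟨Finset.mem_univ _, hne⟩)
      rw [this, smul_zero]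
    calc ∑ i, x i • u i = ∑ j, (∑ i, t i j * x i) • v j := by
          simp_rw [ht2, Finset.smul_sum, Finset.sum_smul, smul_smul]
          rw [Finset.sum_comm]
          refine Finset.sum_congr rfl fun j _ => Finset.sum_congr rfl fun i _ => ?_
          rw [mul_comm]
      _ = ∑ k : κ, (∑ i, t i k * x i) • v k := hsub _
      _ = ∑ k : κ, Z k • v k := hlin'
      _ = _ := by
          rw [Finset.smul_sum]
          have h3 := hsub (fun j => if h : v j ≠ 0 then Z ⟨j, h⟩ else 0)
          have h4 : ∑ k : κ, Z k • v k = ∑ k : κ, (fun j => if h : v j ≠ 0 then Z ⟨j, h⟩ else 0) k.1 • v k := by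
            refine Finset.sum_congr rfl fun k _ => ?_
            simp only [dif_pos k.2]
            rfl
          rw [h4, ← h3]
          refine Finset.sum_congr rfl fun j _ => ?_
          dsimp only
          split_ifs with h
          · rw [smul_smul, mul_div_cancel₀ _ hd'.ne']
          · simp

end Pool.Agent.S12841
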