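import Pool.Statements.S12929
import Pool.Agent.Helper74.SS.All

set_option autoImplicit false
open Pool Pool.MP_2a19da_gt

namespace Pool.Agent.S12929

/-- There exist finite connected CW complexes K, L of dimension at most 2 such that K wedge two 2-spheres is homotopy equivalent to L wedge two 2-spheres, but K wedge one 2-sphere is not homotopy equivalent to L wedge one 2-sphere. -/
theorem result :
    ∃ (X Y : Type) (_ : TopologicalSpace X) (_ : TopologicalSpace Y) (_ : T2Space X)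
      (_ : T2Space Y) (K : Set X) (L : Set Y) (_ : Topology.CWComplex K)
      (_ : Topology.CWComplex L),
      IsConnected K ∧ IsConnected L ∧
      (∀ n : ℕ, Finite (Topology.CWComplex.cell K n)) ∧
      (∀ n : ℕ, Finite (Topology.CWComplex.cell L n)) ∧
      (∀ n : ℕ, 2 < n → IsEmpty (Topology.CWComplex.cell K n)) ∧
      (∀ n : ℕ, 2 < n → IsEmpty (Topology.CWComplex.cell L n)) ∧
      ∃ (k0 : ↥K) (l0 : ↥L) (s0 : ↥(Metric.sphere (0 : EuclideanSpace ℝ (Fin 3)) 1)),
        Nonempty (ContinuousMap.HomotopyEquiv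
          (Quot (fun a b : ↥K ⊕ (↥(Metric.sphere (0 : EuclideanSpace ℝ (Fin 3)) 1) ⊕
              ↥(Metric.sphere (0 : EuclideanSpace ℝ (Fin 3)) 1)) =>
            a = Sum.inl k0 ∧ (b = Sum.inr (Sum.inl s0) ∨ b = Sum.inr (Sum.inr s0))))
          (Quot (fun a b : ↥L ⊕ (↥(Metric.sphere (0 : EuclideanSpace ℝ (Fin 3)) 1) ⊕
              ↥(Metric.sphere (0 : EuclideanSpace ℝ (Fin 3)) 1)) =>
            a = Sum.inl l0 ∧ (b = Sum.inr (Sum.inl s0) ∨ b = Sum.inr (Sum.inr s0))))) ∧
        ¬ Nonempty (ContinuousMap.HomotopyEquiv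
          (Quot (fun a b : ↥K ⊕ ↥(Metric.sphere (0 : EuclideanSpace ℝ (Fin 3)) 1) =>
            a = Sum.inl k0 ∧ b = Sum.inr s0))
          (Quot (fun a b : ↥L ⊕ ↥(Metric.sphere (0 : EuclideanSpace ℝ (Fin 3)) 1) =>
            a = Sum.inl l0 ∧ b = Sum.inr s0))) := by
  exact Pool.Agent.Helper74.SS.tK

end Pool.Agent.S12929
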