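import Pool.Statements.S13052
import Pool.Agent.Helper58.CwhScaleB
import Pool.Agent.Helper58.CwhSep2

set_option autoImplicit false
open Pool Pool.MP_3dcd8c_gt

namespace Pool.Agent.S13052

/-- The negation of the preceding statement: Every regular space in which discrete families of closed Lindelöf sets have disjoint open expansions, and every open cover has a point-finite open refinement, also has a locally countable open refinement for every open cover. -/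
theorem result :
    ¬ (∀ (X : Type) [TopologicalSpace X] [T3Space X],
      (∀ 𝓕 : Set (Set X),
        (∀ F ∈ 𝓕, IsClosed F ∧ IsLindelof F) →
        (∀ x : X, ∃ N ∈ nhds x, {F : Set X | F ∈ 𝓕 ∧ (F ∩ N).Nonempty}.Subsingleton) →
        ∃ U : Set X → Set X,
          (∀ F ∈ 𝓕, IsOpen (U F) ∧ F ⊆ U F) ∧
          (∀ F ∈ 𝓕, ∀ G ∈ 𝓕, F ≠ G → Disjoint (U F) (U G))) →
      (∀ 𝒰 : Set (Set X), (∀ U ∈ 𝒰, IsOpen U) → ⋃₀ 𝒰 = Set.univ →
        ∃ 𝒱 : Set (Set X), (∀ V ∈ 𝒱, IsOpen V) ∧ ⋃₀ 𝒱 = Set.univ ∧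
          (∀ V ∈ 𝒱, ∃ U ∈ 𝒰, V ⊆ U) ∧
          ∀ x : X, {V : Set X | V ∈ 𝒱 ∧ x ∈ V}.Finite) →
      (∀ 𝒰 : Set (Set X), (∀ U ∈ 𝒰, IsOpen U) → ⋃₀ 𝒰 = Set.univ →
        ∃ 𝒱 : Set (Set X), (∀ V ∈ 𝒱, IsOpen V) ∧ ⋃₀ 𝒱 = Set.univ ∧
          (∀ V ∈ 𝒱, ∃ U ∈ 𝒰, V ⊆ U) ∧
          ∀ x : X, ∃ N ∈ nhds x, {V : Set X | V ∈ 𝒱 ∧ (V ∩ N).Nonempty}.Countable)) := by
  intro H
  obtain ⟨K, I, instI, J, instJ, f, hK, hI, hJ, hinit, hmono, hcof⟩ :=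
    Pool.Agent.Helper58.Cwh.exists_scale
  have hK0 : Cardinal.aleph0 ≤ Cardinal.mk K := Cardinal.aleph0_le_continuum.trans hK
  have hinj := Pool.Agent.Helper58.Cwh.injective_of_mono hmono
  have hT3 := Pool.Agent.Helper58.Cwh.t3 (K := K) hinj
  exact Pool.Agent.Helper58.Cwh.not_paraLindelof (K := K) (f := f) hK0 hI hJ hinit hmono
    (H (Pool.Agent.Helper58.Cwh.Pt K f)
      (fun 𝓕 h𝓕 hd => Pool.Agent.Helper58.Cwh.slcwh hK hI hJ hinit hmono hcof 𝓕 h𝓕 hd)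
      (fun 𝒰 hU hc => Pool.Agent.Helper58.Cwh.metacompact hinj 𝒰 hU hc))

end Pool.Agent.S13052
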