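import Pool.Statements.S13138
import Pool.Agent.Helper54.TSCyl

set_option autoImplicit false
open scoped Manifold
open Pool Pool.MP_4bb23b_gt

namespace Pool.Agent.S13138

/-- The negation of the preceding statement: For nonempty smooth manifolds X, Y: if X×Y has a totally skew embedding in R^N, then X and Y have totally skew embeddings in R^a and R^b with a+b ≤ N+1, i.e. N(X×Y) ≥ N(X)+N(Y)−1. -/
theorem result :
    ¬ (∀ (n m : ℕ) (X Y : Type) [TopologicalSpace X] [ChartedSpace (EuclideanSpace ℝ (Fin n)) X]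
    [IsManifold (𝓡 n) ((⊤ : ℕ∞) : WithTop ℕ∞) X] [T2Space X] [SecondCountableTopology X] [Nonempty X]
    [TopologicalSpace Y] [ChartedSpace (EuclideanSpace ℝ (Fin m)) Y]
    [IsManifold (𝓡 m) ((⊤ : ℕ∞) : WithTop ℕ∞) Y] [T2Space Y] [SecondCountableTopology Y] [Nonempty Y]
    (N : ℕ),
    (∃ f : X × Y → EuclideanSpace ℝ (Fin N),
      ContMDiff ((𝓡 n).prod (𝓡 m)) (𝓡 N) ((⊤ : ℕ∞) : WithTop ℕ∞) f ∧ Topology.IsEmbedding f ∧
      ∀ p q : X × Y, p ≠ q →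
        ∀ (u v : EuclideanSpace ℝ (Fin n) × EuclideanSpace ℝ (Fin m)) (t : ℝ),
          fderiv ℝ (f ∘ (extChartAt ((𝓡 n).prod (𝓡 m)) p).symm)
              (extChartAt ((𝓡 n).prod (𝓡 m)) p p) u
            + fderiv ℝ (f ∘ (extChartAt ((𝓡 n).prod (𝓡 m)) q).symm)
              (extChartAt ((𝓡 n).prod (𝓡 m)) q q) v
            + t • (f q - f p) = 0 → u = 0 ∧ v = 0 ∧ t = 0) →
    ∃ a b : ℕ, a + b ≤ N + 1 ∧
      (∃ g : X → EuclideanSpace ℝ (Fin a),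
        ContMDiff (𝓡 n) (𝓡 a) ((⊤ : ℕ∞) : WithTop ℕ∞) g ∧ Topology.IsEmbedding g ∧
        ∀ x y : X, x ≠ y →
          ∀ (u v : EuclideanSpace ℝ (Fin n)) (t : ℝ),
            fderiv ℝ (g ∘ (extChartAt (𝓡 n) x).symm) (extChartAt (𝓡 n) x x) u
              + fderiv ℝ (g ∘ (extChartAt (𝓡 n) y).symm) (extChartAt (𝓡 n) y y) v
              + t • (g y - g x) = 0 → u = 0 ∧ v = 0 ∧ t = 0) ∧
      (∃ h : Y → EuclideanSpace ℝ (Fin b),
        ContMDiff (𝓡 m) (𝓡 b) ((⊤ : ℕ∞) : WithTop ℕ∞) h ∧ Topology.IsEmbedding h ∧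
        ∀ x y : Y, x ≠ y →
          ∀ (u v : EuclideanSpace ℝ (Fin m)) (t : ℝ),
            fderiv ℝ (h ∘ (extChartAt (𝓡 m) x).symm) (extChartAt (𝓡 m) x x) u
              + fderiv ℝ (h ∘ (extChartAt (𝓡 m) y).symm) (extChartAt (𝓡 m) y y) v
              + t • (h y - h x) = 0 → u = 0 ∧ v = 0 ∧ t = 0)) := by
  intro H
  have step : ∀ k N : ℕ, Pool.Agent.Helper54.TS.PE (k + 2) N →
      ∃ b, b + 3 ≤ N ∧ Pool.Agent.Helper54.TS.PE (k + 1) b := by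
    intro k N hPE
    obtain ⟨f, hf, hemb, hsk⟩ := hPE.cyl
    obtain ⟨a, b, hab, ⟨g, hg, _, hgs⟩, ⟨h, hh, hhe, hhs⟩⟩ :=
      H 1 (k + 1) Circle (EuclideanSpace ℝ (Fin (k + 1))) N ⟨f, hf, hemb, hsk⟩
    have h4 : 4 ≤ a := Pool.Agent.Helper54.TS.circle_bound hg hgs
    refine ⟨b, by omega, h, contMDiff_iff_contDiff.1 hh, hhe, ?_⟩
    intro x y hxy u v t heq
    have h5 := hhs x y hxy u v t
    have e1 : ∀ z : EuclideanSpace ℝ (Fin (k + 1)),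
        fderiv ℝ (h ∘ (extChartAt (𝓡 (k + 1)) z).symm) (extChartAt (𝓡 (k + 1)) z z)
          = fderiv ℝ h z := fun z => Pool.Agent.Helper54.TS.dch_self h z
    rw [e1 x, e1 y] at h5
    exact h5 heq
  have h6 : Pool.Agent.Helper54.TS.PE 6 17 := Pool.Agent.Helper54.TS.exists_embedding_six
  obtain ⟨b5, hb5, h5⟩ := step 4 17 h6
  obtain ⟨b4, hb4, h4⟩ := step 3 b5 h5
  obtain ⟨b3, hb3, h3⟩ := step 2 b4 h4
  obtain ⟨b2, hb2, h2⟩ := step 1 b3 h3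
  obtain ⟨b1, hb1, h1⟩ := step 0 b2 h2
  have := h1.one_le
  omega

end Pool.Agent.S13138
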