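-- Proof of the frozen statement S13663 (MP_9e79c9_gt), from its template Pool/Templates/S13663.lean.txt.
import Pool.Statements.S13663
import Pool.Agent.Helper36.TC.Main

set_option autoImplicit false
open Pool Pool.MP_9e79c9_gt

namespace Pool.Agent.S13663

/-- For d ≥ 3, suppose an origin-symmetric convex body K in d-space gives conv((p+K) ∪ (q+K)) the same volume for all touching translate pairs (meeting, with disjoint interiors). Then K is an invertible affine image of the unit ball. -/
theorem result :
    ∀ d : ℕ, 3 ≤ d →
      ∀ K : Set (EuclideanSpace ℝ (Fin d)),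
        Convex ℝ K → IsCompact K → (interior K).Nonempty →
        (∀ x ∈ K, -x ∈ K) →
        (∃ c : ENNReal, ∀ p q : EuclideanSpace ℝ (Fin d),
            ((fun x => p + x) '' K ∩ (fun x => q + x) '' K).Nonempty →
            interior ((fun x => p + x) '' K) ∩ interior ((fun x => q + x) '' K) = ∅ →
            MeasureTheory.volume
              (convexHull ℝ ((fun x => p + x) '' K ∪ (fun x => q + x) '' K)) = c) →
        ∃ f : EuclideanSpace ℝ (Fin d) ≃ᵃ[ℝ] EuclideanSpace ℝ (Fin d),
          K = f '' Metric.closedBall 0 1 :=
  TC.all

end Pool.Agent.S13663
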