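import Pool.Statements.S13915
import Pool.Agent.Helper56.CpKsd

set_option autoImplicit false
open Pool Pool.MP_c67c46_gt

namespace Pool.Agent.S13915

open Set Filter Topology Pool.Agent.Helper56.CpKsd

/-- For Tychonoff X, Y: if X is a countable intersection of σ-compact sets in some compact Hausdorff space containing it, and C_p(X), C_p(Y) are linearly homeomorphic in the pointwise topology, then Y has the same property. -/
theorem result :
  ∀ (X Y : Type) [TopologicalSpace X] [TopologicalSpace Y] [T35Space X] [T35Space Y],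
    (∃ (K : Type) (_ : TopologicalSpace K), CompactSpace K ∧ T2Space K ∧
      ∃ e : X → K, Topology.IsEmbedding e ∧
        ∃ A : ℕ → ℕ → Set K, (∀ n m, IsCompact (A n m)) ∧ Set.range e = ⋂ n, ⋃ m, A n m) →
    (∃ L : C(X, ℝ) ≃ₗ[ℝ] C(Y, ℝ),
      @Continuous C(X, ℝ) C(Y, ℝ)
        (TopologicalSpace.induced (fun f : C(X, ℝ) => (f : X → ℝ)) inferInstance)
        (TopologicalSpace.induced (fun g : C(Y, ℝ) => (g : Y → ℝ)) inferInstance)
        (fun f => L f) ∧
      @Continuous C(Y, ℝ) C(X, ℝ)
        (TopologicalSpace.induced (fun g : C(Y, ℝ) => (g : Y → ℝ)) inferInstance)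
        (TopologicalSpace.induced (fun f : C(X, ℝ) => (f : X → ℝ)) inferInstance)
        (fun g => L.symm g)) →
    (∃ (K : Type) (_ : TopologicalSpace K), CompactSpace K ∧ T2Space K ∧
      ∃ e : Y → K, Topology.IsEmbedding e ∧
        ∃ A : ℕ → ℕ → Set K, (∀ n m, IsCompact (A n m)) ∧ Set.range e = ⋂ n, ⋃ m, A n m) := by
  classical
  intro X Y _ _ _ _ hX hLL
  obtain ⟨K, tK, hKc, hKT2, e, he, A, hA, hrange⟩ := hX
  obtain ⟨L, hL, hL'⟩ := hLL
  -- increasing compact sets
  let A' : ℕ → ℕ → Set K := fun n m => ⋃ k ∈ Set.Iic m, A n k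
  have hA' : ∀ n m, IsCompact (A' n m) := fun n m =>
    (Set.finite_Iic m).isCompact_biUnion (fun k _ => hA n k)
  have hA'mono : ∀ n m m', m ≤ m' → A' n m ⊆ A' n m' := fun n m m' h =>
    biUnion_subset_biUnion_left (Iic_subset_Iic.2 h)
  have hrange' : ∀ z : K, (∀ n, ∃ m, z ∈ A' n m) → ∃ x, e x = z := by
    intro z hz
    have : z ∈ Set.range e := by
      rw [hrange, mem_iInter]
      intro n
      obtain ⟨m, hm⟩ := hz n
      obtain ⟨k, _, hk⟩ := mem_iUnion₂.1 hm
      exact mem_iUnion.2 ⟨k, hk⟩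
    exact this
  have hmemA : ∀ x n, ∃ m, e x ∈ A' n m := by
    intro x n
    have : e x ∈ ⋂ n, ⋃ m, A n m := by rw [← hrange]; exact ⟨x, rfl⟩
    obtain ⟨m, hm⟩ := mem_iUnion.1 (mem_iInter.1 this n)
    exact ⟨m, mem_iUnion₂.2 ⟨m, le_refl m, hm⟩⟩
  -- evaluation functionals
  let ev : (Z : Type) → [TopologicalSpace Z] → Z → (C(Z, ℝ) →ₗ[ℝ] ℝ) := fun Z _ z =>
    { toFun := fun f => f z
      map_add' := fun _ _ => rfl
      map_smul' := fun _ _ => rfl }
  have hev : ∀ (Z : Type) [TopologicalSpace Z] (z : Z),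
      @Continuous C(Z, ℝ) ℝ (cpTop Z) inferInstance (fun f => ev Z z f) := by
    intro Z _ z
    exact @Continuous.comp C(Z, ℝ) (Z → ℝ) ℝ (cpTop Z) _ _ (fun f => (f : Z → ℝ))
      (fun p => p z) (continuous_apply z) continuous_induced_dom
  -- representation of the functionals `f ↦ L f y`
  have hrep : ∀ y : Y, ∃ (T : Finset X) (c : X → ℝ), (∀ x ∈ T, c x ≠ 0) ∧
      ∀ f : C(X, ℝ), L f y = ∑ x ∈ T, c x * f x := by
    intro y
    have h1 := exists_repr_of_continuous ((ev Y y).comp L.toLinearMap) (by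
      exact @Continuous.comp _ _ _ (cpTop X) (cpTop Y) _ _ _ (hev Y y) hL)
    exact h1
  choose T c hc hT using hrep
  let eC : C(X, K) := ⟨e, he.continuous⟩
  let F0 : ℕ → ℕ → ℕ → Set Y := fun n J m =>
    {y | ∃ (p : Fin J → K) (d : Fin J → ℝ), (∀ i, p i ∈ A' n m) ∧ (∀ i, |d i| ≤ m) ∧
      ∀ f : C(K, ℝ), L (f.comp eC) y = ∑ i, d i * f (p i)}
  -- closedness
  have hF0closed : ∀ n J m, IsClosed (F0 n J m) := by
    intro n J m
    let S : Set ((Fin J → K) × (Fin J → ℝ)) :=
      (Set.univ.pi fun _ => A' n m) ×ˢ (Set.univ.pi fun _ => Set.Icc (-(m : ℝ)) m)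
    have hS : IsCompact S :=
      (isCompact_univ_pi fun _ => hA' n m).prod (isCompact_univ_pi fun _ => isCompact_Icc)
    have : CompactSpace S := isCompact_iff_compactSpace.1 hS
    let R : Set (Y × S) := ⋂ f : C(K, ℝ), {q | L (f.comp eC) q.1 =
      ∑ i, (q.2 : (Fin J → K) × (Fin J → ℝ)).2 i * f ((q.2 : (Fin J → K) × (Fin J → ℝ)).1 i)}
    have hR : IsClosed R := by
      apply isClosed_iInter
      intro f
      apply isClosed_eq
      · exact (L (f.comp eC)).continuous.comp continuous_fst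
      · fun_prop
    have : F0 n J m = Prod.fst '' R := by
      ext y
      constructor
      · rintro ⟨p, d, hp, hd, hf⟩
        refine ⟨⟨y, ⟨⟨p, d⟩, ⟨fun i _ => hp i, fun i _ => abs_le.1 (hd i)⟩⟩⟩, ?_, rfl⟩
        rw [mem_iInter]
        exact hf
      · rintro ⟨⟨y', ⟨⟨p, d⟩, ⟨hp, hd⟩⟩⟩, hq, rfl⟩
        refine ⟨p, d, fun i => hp i trivial, fun i => abs_le.2 (hd i trivial), ?_⟩
        intro f
        exact mem_iInter.1 hq f
    rw [this]
    exact isClosedMap_fst_of_compactSpace _ hR
  let F : ℕ → ℕ → Set Y := fun n k => F0 n (Nat.unpair k).1 (Nat.unpair k).2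
  have hFclosed : ∀ n k, IsClosed (F n k) := fun n k => hF0closed _ _ _
  -- covering
  have hFcov : ∀ n, ⋃ k, F n k = univ := by
    intro n
    rw [eq_univ_iff_forall]
    intro y
    choose mx hmx using fun x => hmemA x n
    let m := (T y).sup (fun x => max (mx x) ⌈|c y x|⌉₊)
    refine mem_iUnion.2 ⟨Nat.pair (T y).card m, ?_⟩
    show y ∈ F0 n (Nat.unpair (Nat.pair (T y).card m)).1 (Nat.unpair (Nat.pair (T y).card m)).2
    rw [Nat.unpair_pair]
    have hle : ∀ x ∈ T y, max (mx x) ⌈|c y x|⌉₊ ≤ m := fun x hx =>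
      Finset.le_sup (f := fun x => max (mx x) ⌈|c y x|⌉₊) hx
    refine ⟨fun i => e ((T y).equivFin.symm i : X), fun i => c y ((T y).equivFin.symm i : X),
      ?_, ?_, ?_⟩
    · intro i
      have hx := ((T y).equivFin.symm i).2
      exact hA'mono n _ _ ((le_max_left _ _).trans (hle _ hx)) (hmx _)
    · intro i
      have hx := ((T y).equivFin.symm i).2
      have h1 : ⌈|c y ((T y).equivFin.symm i : X)|⌉₊ ≤ m := (le_max_right _ _).trans (hle _ hx)
      exact (Nat.le_ceil _).trans (by exact_mod_cast h1)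
    · intro f
      rw [hT y (f.comp eC), ← Finset.sum_coe_sort (T y)]
      rw [← Equiv.sum_comp (T y).equivFin.symm]
      rfl
  -- support lemma
  have hsupp : ∀ n J m y, y ∈ F0 n J m →
      (∀ x ∈ T y, e x ∈ A' n m ∧ |c y x| ≤ J * m) ∧ (T y).card ≤ J := by
    rintro n J m y ⟨p, d, hp, hd, hf⟩
    have key : ∀ x ∈ T y, c y x = ∑ i ∈ Finset.univ.filter (fun i => p i = e x), d i := by
      intro x hx
      let Z : Finset K := ((T y).image e ∪ Finset.univ.image p).erase (e x)
      have hdis : Disjoint (Z : Set K) {e x} := by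
        rw [Set.disjoint_singleton_right]
        simp [Z]
      obtain ⟨f, hf0, hf1, -⟩ := exists_continuous_zero_one_of_isClosed
        Z.finite_toSet.isClosed (isClosed_singleton (x := e x)) hdis
      have h1 := hf f
      have hval : ∀ z ∈ ((T y).image e ∪ Finset.univ.image p), z ≠ e x → f z = 0 := by
        intro z hz hne
        exact hf0 (by simp only [Z, Finset.coe_erase]; exact ⟨hz, hne⟩)
      have hval1 : f (e x) = 1 := hf1 rfl
      have h2 : L (f.comp eC) y = c y x := by
        rw [hT y (f.comp eC), Finset.sum_eq_single x]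
        · show c y x * f (e x) = c y x
          rw [hval1, mul_one]
        · intro x' hx' hne
          show c y x' * f (e x') = 0
          rw [hval (e x') (Finset.mem_union_left _ (Finset.mem_image_of_mem _ hx'))
            (fun h => hne (he.injective h)), mul_zero]
        · intro h; exact absurd hx h
      have h3 : ∑ i, d i * f (p i) = ∑ i ∈ Finset.univ.filter (fun i => p i = e x), d i := by
        rw [Finset.sum_filter]
        apply Finset.sum_congr rfl
        intro i _
        by_cases hi : p i = e x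
        · rw [if_pos hi, hi, hval1, mul_one]
        · rw [if_neg hi, hval (p i) (Finset.mem_union_right _
            (Finset.mem_image_of_mem _ (Finset.mem_univ i))) hi, mul_zero]
      rw [← h2, h1, h3]
    have hex : ∀ x ∈ T y, ∃ i, p i = e x := by
      intro x hx
      by_contra hcon
      push Not at hcon
      have h1 := key x hx
      rw [Finset.filter_false_of_mem (fun i _ => hcon i), Finset.sum_empty] at h1
      exact hc y x hx h1
    refine ⟨fun x hx => ⟨?_, ?_⟩, ?_⟩
    · obtain ⟨i, hi⟩ := hex x hx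
      rw [← hi]; exact hp i
    · rw [key x hx]
      refine (Finset.abs_sum_le_sum_abs _ _).trans ?_
      refine (Finset.sum_le_sum_of_subset_of_nonneg (Finset.filter_subset _ _)
        (fun i _ _ => abs_nonneg _)).trans ?_
      refine (Finset.sum_le_card_nsmul _ _ (m : ℝ) (fun i _ => hd i)).trans ?_
      simp
    · have h1 : (T y).image e ⊆ Finset.univ.image p := by
        intro z hz
        obtain ⟨x, hx, rfl⟩ := Finset.mem_image.1 hz
        obtain ⟨i, hi⟩ := hex x hx
        exact Finset.mem_image.2 ⟨i, Finset.mem_univ i, hi⟩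
      have h2 := Finset.card_le_card h1
      rw [Finset.card_image_of_injective _ he.injective] at h2
      refine h2.trans (Finset.card_image_le.trans ?_)
      simp
  -- completeness
  have hcomp : ∀ 𝒢 : Ultrafilter Y, (∀ n, ∃ k, F n k ∈ 𝒢) → ∃ y, (𝒢 : Filter Y) ≤ 𝓝 y := by
    intro 𝒢 h𝒢
    choose k hk using h𝒢
    have hYne : Nonempty Y := by
      obtain ⟨y, -⟩ := 𝒢.nonempty_of_mem (hk 0)
      exact ⟨y⟩
    obtain ⟨y₀⟩ := hYne
    have hXne : Nonempty X := by
      by_contra hcon
      have h1 := hT y₀ (L.symm 1)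
      have h2 : T y₀ = ∅ := by
        rw [Finset.eq_empty_iff_forall_notMem]
        intro x _
        exact hcon ⟨x⟩
      rw [h2] at h1
      simp at h1
    -- constant cardinality
    obtain ⟨j, hj⟩ : ∃ j, {y | (T y).card = j} ∈ 𝒢 := by
      have h1 : Set.Iic (Nat.unpair (k 0)).1 ∈ 𝒢.map (fun y => (T y).card) := by
        rw [Ultrafilter.mem_map]
        filter_upwards [hk 0] with y hy
        exact (hsupp _ _ _ y hy).2
      obtain ⟨j, -, hj⟩ := Ultrafilter.eq_pure_of_finite_mem (Set.finite_Iic _) h1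
      refine ⟨j, ?_⟩
      have h2 : ({j} : Set ℕ) ∈ 𝒢.map (fun y => (T y).card) := by rw [hj]; exact rfl
      exact h2
    -- enumeration of the supports
    have henum : ∀ y, ∃ x : Fin j → X, (T y).card = j →
        (∀ i, x i ∈ T y) ∧ ∀ g : X → ℝ, ∑ z ∈ T y, g z = ∑ i, g (x i) := by
      intro y
      by_cases hy : (T y).card = j
      · refine ⟨fun i => ((T y).equivFinOfCardEq hy).symm i, fun _ => ⟨fun i => ?_, fun g => ?_⟩⟩
        · exact (((T y).equivFinOfCardEq hy).symm i).2
        · rw [← Finset.sum_coe_sort (T y), ← Equiv.sum_comp ((T y).equivFinOfCardEq hy).symm]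
      · exact ⟨fun _ => hXne.some, fun h => absurd h hy⟩
    choose x hx using henum
    -- limits of the points
    have hlim : ∀ i, ∃ q : X, Tendsto (fun y => x y i) (𝒢 : Filter Y) (𝓝 q) := by
      intro i
      obtain ⟨P, -, hP⟩ := (isCompact_univ (X := K)).ultrafilter_le_nhds
        (𝒢.map (fun y => e (x y i))) (by simp)
      have hPt : Tendsto (fun y => e (x y i)) (𝒢 : Filter Y) (𝓝 P) := hP
      have hPA : ∀ n, ∃ m, P ∈ A' n m := by
        intro n
        refine ⟨(Nat.unpair (k n)).2, ?_⟩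
        apply (hA' n _).isClosed.mem_of_tendsto hPt
        filter_upwards [hk n, hj] with y hy hyj
        exact ((hsupp _ _ _ y hy).1 _ ((hx y hyj).1 i)).1
      obtain ⟨q, hq⟩ := hrange' P hPA
      refine ⟨q, ?_⟩
      rw [he.tendsto_nhds_iff, hq]
      exact hPt
    choose q hq using hlim
    have hlimc : ∀ i, ∃ a : ℝ, Tendsto (fun y => c y (x y i)) (𝒢 : Filter Y) (𝓝 a) := by
      intro i
      have h1 : ∀ᶠ y in (𝒢 : Filter Y), c y (x y i) ∈
          Set.Icc (-((Nat.unpair (k 0)).1 * (Nat.unpair (k 0)).2 : ℝ))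
            ((Nat.unpair (k 0)).1 * (Nat.unpair (k 0)).2) := by
        filter_upwards [hk 0, hj] with y hy hyj
        exact abs_le.1 ((hsupp _ _ _ y hy).1 _ ((hx y hyj).1 i)).2
      obtain ⟨a, -, ha⟩ := isCompact_Icc.ultrafilter_le_nhds
        (𝒢.map (fun y => c y (x y i))) (le_principal_iff.2 h1)
      exact ⟨a, ha⟩
    choose a ha using hlimc
    have hconv : ∀ f : C(X, ℝ), Tendsto (fun y => L f y) (𝒢 : Filter Y)
        (𝓝 (∑ i, a i * f (q i))) := by
      intro f
      have h1 : Tendsto (fun y => ∑ i, c y (x y i) * f (x y i)) (𝒢 : Filter Y)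
          (𝓝 (∑ i, a i * f (q i))) := by
        apply tendsto_finsetSum
        intro i _
        exact (ha i).mul ((f.continuous.tendsto (q i)).comp (hq i))
      refine h1.congr' ?_
      filter_upwards [hj] with y hyj
      rw [hT y f]
      exact ((hx y hyj).2 (fun z => c y z * f z)).symm
    -- the limit functional on `C(Y)`
    let Λ : C(Y, ℝ) →ₗ[ℝ] ℝ := (∑ i, a i • ev X (q i)).comp L.symm.toLinearMap
    have hΛ : ∀ g, Λ g = ∑ i, a i * (L.symm g) (q i) := by
      intro g
      simp [Λ, ev]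
    have hΛc : @Continuous C(Y, ℝ) ℝ (cpTop Y) inferInstance (fun g => Λ g) := by
      have h1 : @Continuous C(X, ℝ) ℝ (cpTop X) inferInstance
          (fun f => ∑ i, a i * f (q i)) := by
        apply @continuous_finsetSum _ _ _ (cpTop X)
        intro i _
        exact @Continuous.mul _ _ _ _ _ (cpTop X) _ _ (@continuous_const _ _ (cpTop X) _ _)
          (hev X (q i))
      have h2 := @Continuous.comp _ _ _ (cpTop Y) (cpTop X) _ _ _ h1 hL'
      have h3 : (fun g => Λ g) = (fun f : C(X, ℝ) => ∑ i, a i * f (q i)) ∘ (fun g => L.symm g) := by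
        funext g
        exact hΛ g
      rw [h3]
      exact h2
    obtain ⟨S, hS⟩ := exists_finset_of_continuous Λ hΛc
    by_contra hcon
    push Not at hcon
    have hU : ∀ t : Y, ∃ U : Set Y, IsOpen U ∧ t ∈ U ∧ U ∉ 𝒢 := by
      intro t
      have h1 := hcon t
      rw [Filter.not_le] at h1
      obtain ⟨U, hU, hU'⟩ := h1
      obtain ⟨V, hVU, hVo, htV⟩ := mem_nhds_iff.1 hU
      exact ⟨V, hVo, htV, fun hV => hU' (mem_of_superset hV hVU)⟩
    choose U hUo hUt hUn using hU
    let W : Set Y := ⋂ t ∈ S, (U t)ᶜ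
    have hWc : IsClosed W := isClosed_biInter fun t _ => (hUo t).isClosed_compl
    have hWm : W ∈ 𝒢 := by
      rw [← Ultrafilter.mem_coe, Filter.biInter_finset_mem]
      intro t _
      exact Ultrafilter.compl_mem_iff_notMem.2 (hUn t)
    obtain ⟨g, hg0, hg1⟩ := exists_sep S W hWc (fun t ht htW => by
      exact (mem_iInter₂.1 htW t ht) (hUt t))
    have h1 : Λ g = 0 := hS g hg0
    have h2 := hconv (L.symm g)
    rw [← hΛ, h1] at h2
    have h3 : Tendsto (fun y => L (L.symm g) y) (𝒢 : Filter Y) (𝓝 1) := by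
      apply tendsto_const_nhds.congr'
      filter_upwards [hWm] with y hy
      rw [LinearEquiv.apply_symm_apply, hg1 y hy]
    exact zero_ne_one (tendsto_nhds_unique h2 h3)
  exact ksd_of_complete F hFclosed hFcov hcomp

end Pool.Agent.S13915
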