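import Pool.Statements.S13978
import Pool.Agent.Helper57.Cube2

set_option autoImplicit false
open Pool Pool.MP_d1450a_gt

namespace Pool.Agent.S13978

/-- The negation of the preceding statement: Every compact connected Hausdorff space that is semi-locally connected at no point has a point x and points y, z other than x such that every closed connected set containing y and z contains x. -/
theorem result :
    ¬ (∀ (X : Type) [TopologicalSpace X] [CompactSpace X] [T2Space X] [ConnectedSpace X],
      (∀ p : X, ¬ ∀ U : Set X, IsOpen U → p ∈ U →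
          ∃ V : Set X, IsOpen V ∧ p ∈ V ∧ V ⊆ U ∧
            {C : Set X | ∃ x ∈ Vᶜ, C = connectedComponentIn Vᶜ x}.Finite) →
      ∃ x y z : X, y ≠ x ∧ z ≠ x ∧
        ∀ K : Set X, IsClosed K → IsConnected K → y ∈ K → z ∈ K → x ∈ K) := by
  intro hall
  haveI : ConnectedSpace Circle := by
    haveI : PreconnectedSpace Circle := by
      constructor
      have h : Set.range Circle.exp = Set.univ := by
        rw [Set.eq_univ_iff_forall]
        intro z
        exact ⟨_, Circle.exp_arg z⟩
      rw [← h]
      exact isPreconnected_range Circle.exp.continuous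
    exact ⟨inferInstance⟩
  haveI : CompactSpace (Helper57.Res.M Helper57.Res.F) :=
    Helper57.Res.compactSpace_M Helper57.Res.F Helper57.Res.continuousAt_F
  haveI : ConnectedSpace (Helper57.Res.M Helper57.Res.F) :=
    Helper57.Res.connectedSpace_M Helper57.Res.F Helper57.Res.continuousAt_F
  obtain ⟨x, y, z, hy, hz, hK⟩ := hall (Helper57.Res.M Helper57.Res.F)
    (Helper57.Res.not_slc Helper57.Res.F Helper57.Res.continuousAt_F Helper57.Res.H3)
  obtain ⟨K, h1, h2, h3, h4, h5⟩ := Helper57.Res.no_weak_cut Helper57.Res.F
    Helper57.Res.continuousAt_F (fun a p q hp hq => Helper57.Res.prod_conn a p q hp hq)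
    Helper57.Res.H2 x y z hy hz
  exact h5 (hK K h1 h2 h3 h4)

end Pool.Agent.S13978
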