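import Pool.Statements.S14487
import Pool.Agent.Helper75.ImpFull

set_option autoImplicit false
open Pool Pool.MP_24b5da_lc

namespace Pool.Agent.S14487

/-- Every complete linear order with at least two elements can be written as the union of two subsets, neither of which contains an order-embedded copy of the whole order; so no nontrivial complete chain is impartible. -/
theorem result :
    ∀ (α : Type) [CompleteLinearOrder α], Nontrivial α →
      ∃ A B : Set α, A ∪ B = Set.univ ∧ IsEmpty (α ↪o A) ∧ IsEmpty (α ↪o B) := by
  intro α _ _
  exact Pool.Agent.Helper75.Imp.full

end Pool.Agent.S14487
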