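import Pool.Statements.S14533
import Pool.Agent.Helper14.DL.All

set_option autoImplicit false
open Pool Pool.MP_2bc838_lc

namespace Pool.Agent.S14533

/-- For two DOL systems (morphism plus axiom) over an n-letter alphabet, the generated sequences w, h(w), h²(w), … coincide entirely if and only if their first 2n terms coincide. -/
theorem result :
    ∀ (n : ℕ) (h₁ h₂ : Fin n → List (Fin n)) (w₁ w₂ : List (Fin n)),
      (∀ k : ℕ, (fun u : List (Fin n) => u.flatMap h₁)^[k] w₁ =
                 (fun u : List (Fin n) => u.flatMap h₂)^[k] w₂) ↔
      (∀ k : ℕ, k < 2 * n →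
                 (fun u : List (Fin n) => u.flatMap h₁)^[k] w₁ =
                 (fun u : List (Fin n) => u.flatMap h₂)^[k] w₂) := by
  exact DL.fin DL.all

end Pool.Agent.S14533
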