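import Pool.Statements.S14541
import Pool.Agent.Helper79.MinkForm

set_option autoImplicit false
open Pool Pool.MP_2ea006_lc

namespace Pool.Agent.S14541

open Pool.Agent.Helper79.Mink

/-- the order of the statement, three coordinates -/
def Q3 (x y : Fin 3 → ℝ) : Prop :=
  x ≠ y ∧ x 0 ≤ y 0 ∧ ∑ i : Fin 2, (y i.succ - x i.succ) ^ 2 ≤ (y 0 - x 0) ^ 2

/-- the order of the statement, four coordinates -/
def Q4 (x y : Fin 4 → ℝ) : Prop :=
  x ≠ y ∧ x 0 ≤ y 0 ∧ ∑ i : Fin 3, (y i.succ - x i.succ) ^ 2 ≤ (y 0 - x 0) ^ 2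

lemma Q3_iff (x y : Fin 3 → ℝ) : Q3 x y ↔ R3 x y := by
  have hs : ∑ i : Fin 2, (y i.succ - x i.succ) ^ 2 = (y 1 - x 1) ^ 2 + (y 2 - x 2) ^ 2 := by
    rw [Fin.sum_univ_two]; rfl
  unfold Q3 R3 Cau B
  rw [hs]
  simp only [Pi.sub_apply]
  constructor
  · rintro ⟨h1, h2, h3⟩
    have hlt : x 0 < y 0 := by
      rcases lt_or_eq_of_le h2 with h | h
      · exact h
      · exfalso
        apply h1
        rw [h] at h3
        have h4 : (y 1 - x 1) ^ 2 + (y 2 - x 2) ^ 2 ≤ 0 := by nlinarith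
        have h5 : y 1 - x 1 = 0 := by nlinarith [sq_nonneg (y 1 - x 1), sq_nonneg (y 2 - x 2)]
        have h6 : y 2 - x 2 = 0 := by nlinarith [sq_nonneg (y 1 - x 1), sq_nonneg (y 2 - x 2)]
        funext i
        fin_cases i
        · exact h
        · show x 1 = y 1
          linarith
        · show x 2 = y 2
          linarith
    exact ⟨by linarith, by nlinarith⟩
  · rintro ⟨h1, h2⟩
    refine ⟨?_, by linarith, by nlinarith⟩
    rintro rfl
    simp at h1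

lemma Q4_iff (x y : Fin 4 → ℝ) : Q4 x y ↔ R4 x y := by
  have hs : ∑ i : Fin 3, (y i.succ - x i.succ) ^ 2
      = (y 1 - x 1) ^ 2 + (y 2 - x 2) ^ 2 + (y 3 - x 3) ^ 2 := by
    rw [Fin.sum_univ_three]; rfl
  unfold Q4 R4
  rw [hs]
  constructor
  · rintro ⟨h1, h2, h3⟩
    refine ⟨?_, h3⟩
    rcases lt_or_eq_of_le h2 with h | h
    · exact h
    · exfalso
      apply h1
      rw [h] at h3
      have h4 : (y 1 - x 1) ^ 2 + (y 2 - x 2) ^ 2 + (y 3 - x 3) ^ 2 ≤ 0 := by nlinarith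
      have h5 : y 1 - x 1 = 0 := by
        nlinarith [sq_nonneg (y 1 - x 1), sq_nonneg (y 2 - x 2), sq_nonneg (y 3 - x 3)]
      have h6 : y 2 - x 2 = 0 := by
        nlinarith [sq_nonneg (y 1 - x 1), sq_nonneg (y 2 - x 2), sq_nonneg (y 3 - x 3)]
      have h7 : y 3 - x 3 = 0 := by
        nlinarith [sq_nonneg (y 1 - x 1), sq_nonneg (y 2 - x 2), sq_nonneg (y 3 - x 3)]
      funext i
      fin_cases i
      · exact h
      · show x 1 = y 1
        linarith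
      · show x 2 = y 2
        linarith
      · show x 3 = y 3
        linarith
  · rintro ⟨h1, h2⟩
    refine ⟨?_, h1.le, h2⟩
    rintro rfl
    exact lt_irrefl _ h1

lemma dir3 (x y : Fin 3 → ℝ) : ∃ z, R3 x z ∧ R3 y z := by
  set K : ℝ := |x 0| + |x 1| + |x 2| + |y 0| + |y 1| + |y 2| + 1 with hK
  have a0 := abs_nonneg (x 0)
  have a1 := abs_nonneg (x 1)
  have a2 := abs_nonneg (x 2)
  have b0 := abs_nonneg (y 0)
  have b1 := abs_nonneg (y 1)
  have b2 := abs_nonneg (y 2)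
  have key : ∀ w : Fin 3 → ℝ, |w 0| + |w 1| + |w 2| + 1 ≤ K → R3 w ![K, 0, 0] := by
    intro w hw
    unfold R3 Cau B
    simp
    have c0 := abs_nonneg (w 0)
    have c1 := abs_nonneg (w 1)
    have c2 := abs_nonneg (w 2)
    have d0 := le_abs_self (w 0)
    have hpos : |w 1| + |w 2| + 1 ≤ K - w 0 := by linarith
    have e1 : w 1 * w 1 = |w 1| * |w 1| := (abs_mul_abs_self _).symm
    have e2 : w 2 * w 2 = |w 2| * |w 2| := (abs_mul_abs_self _).symm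
    constructor
    · linarith
    · nlinarith
  exact ⟨![K, 0, 0], key x (by linarith), key y (by linarith)⟩

lemma dir4 (x y : Fin 4 → ℝ) : ∃ z, R4 x z ∧ R4 y z := by
  set K : ℝ := |x 0| + |x 1| + |x 2| + |x 3| + |y 0| + |y 1| + |y 2| + |y 3| + 1 with hK
  have a0 := abs_nonneg (x 0)
  have a1 := abs_nonneg (x 1)
  have a2 := abs_nonneg (x 2)
  have a3 := abs_nonneg (x 3)
  have b0 := abs_nonneg (y 0)
  have b1 := abs_nonneg (y 1)
  have b2 := abs_nonneg (y 2)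
  have b3 := abs_nonneg (y 3)
  have key : ∀ w : Fin 4 → ℝ, |w 0| + |w 1| + |w 2| + |w 3| + 1 ≤ K → R4 w ![K, 0, 0, 0] := by
    intro w hw
    unfold R4
    simp
    have c0 := abs_nonneg (w 0)
    have c1 := abs_nonneg (w 1)
    have c2 := abs_nonneg (w 2)
    have c3 := abs_nonneg (w 3)
    have d0 := le_abs_self (w 0)
    have hpos : |w 1| + |w 2| + |w 3| + 1 ≤ K - w 0 := by linarith
    have e1 : w 1 ^ 2 = |w 1| ^ 2 := (sq_abs _).symm
    have e2 : w 2 ^ 2 = |w 2| ^ 2 := (sq_abs _).symm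
    have e3 : w 3 ^ 2 = |w 3| ^ 2 := (sq_abs _).symm
    constructor
    · linarith
    · rw [e1, e2, e3]
      have h1 : (|w 1| + |w 2| + |w 3|) ^ 2 ≤ (K - w 0) ^ 2 :=
        pow_le_pow_left₀ (by positivity) (by linarith) 2
      nlinarith [mul_nonneg c1 c2, mul_nonneg c1 c3, mul_nonneg c2 c3]
  exact ⟨![K, 0, 0, 0], key x (by linarith), key y (by linarith)⟩

/-- the formula is not satisfiable in dimension three -/
lemma unsat3 (v : ℕ → Set (Fin 3 → ℝ)) (x : Fin 3 → ℝ) : x ∉ ev Q3 v phi := by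
  have hQ : Q3 = R3 := by funext a b; exact propext (Q3_iff a b)
  rw [hQ, phi_iff R3 dir3]
  rintro ⟨⟨h, h', l⟩, ⟨a, ha, ha'⟩, ⟨b, hb, hb'⟩⟩
  have := unique3 h h' l ha hb
  rw [this] at ha'
  exact hb' ha'

/-- valuation in dimension four -/
noncomputable def val4 (k : ℕ) : Set (Fin 4 → ℝ) :=
  match k with
  | 0 => mN
  | 1 => mC 0
  | 2 => mC 1
  | 3 => mC 2
  | 4 => mC 3
  | 5 => mD
  | 6 => {x | -x ∈ mC 0}
  | 7 => {x | -x ∈ mC 1}
  | 8 => {x | -x ∈ mC 2}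
  | 9 => {x | -x ∈ mC 3}
  | 10 => {x | -x ∈ mD}
  | 11 => mV 0
  | 12 => mV 1
  | 13 => mV 2
  | 14 => mV 3
  | _ => {x | 0 < x 3}

/-- the formula is satisfiable in dimension four -/
lemma sat4 : (0 : Fin 4 → ℝ) ∈ ev Q4 val4 phi := by
  have hQ : Q4 = R4 := by funext a b; exact propext (Q4_iff a b)
  rw [hQ, phi_iff R4 dir4]
  have e1 : (fun i : Fin 4 => val4 (1 + i.val)) = mC := by
    funext i; fin_cases i <;> rfl
  have e2 : (fun i : Fin 4 => val4 (6 + i.val)) = fun i => {x | -x ∈ mC i} := by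
    funext i; fin_cases i <;> rfl
  have e3 : (fun i : Fin 4 => val4 (11 + i.val)) = mV := by
    funext i; fin_cases i <;> rfl
  have e4 : {x : Fin 4 → ℝ | -x ∈ mN} = mN := by
    ext x; simp [mN]
  rw [e1, e2, e3]
  refine ⟨⟨cond4, ?_, link4⟩, ⟨![0, 0, 0, 1], ?_, ?_⟩, ⟨0, ?_, ?_⟩⟩
  · have := cond4'
    rw [e4] at this
    exact this
  · show _ ∈ mN
    simp [mN]
  · show (0 : ℝ) < _
    simp
  · show _ ∈ mN
    simp [mN]
  · show ¬ (0 : ℝ) < _
    simp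

/-- Some formula built from atoms with not, and, strict future and strict past diamonds (irreflexive causal light-cone order) is satisfiable in 3-dimensional Minkowski spacetime but not in 4-dimensional, or vice versa. -/
theorem result :
  ∃ (f : (ℕ → Set (Fin 3 → ℝ)) → Set (Fin 3 → ℝ))
    (g : (ℕ → Set (Fin 4 → ℝ)) → Set (Fin 4 → ℝ)),
    (∀ S : Set (((ℕ → Set (Fin 3 → ℝ)) → Set (Fin 3 → ℝ)) ×
                ((ℕ → Set (Fin 4 → ℝ)) → Set (Fin 4 → ℝ))),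
      (∀ k : ℕ, ((fun v => v k), (fun w => w k)) ∈ S) →
      (∀ p ∈ S, ((fun v => (p.1 v)ᶜ), (fun w => (p.2 w)ᶜ)) ∈ S) →
      (∀ p ∈ S, ∀ q ∈ S,
        ((fun v => p.1 v ∩ q.1 v), (fun w => p.2 w ∩ q.2 w)) ∈ S) →
      (∀ p ∈ S,
        ((fun v => {x : Fin 3 → ℝ | ∃ y ∈ p.1 v, x ≠ y ∧ x 0 ≤ y 0 ∧
              ∑ i : Fin 2, (y i.succ - x i.succ) ^ 2 ≤ (y 0 - x 0) ^ 2}),
         (fun w => {x : Fin 4 → ℝ | ∃ y ∈ p.2 w, x ≠ y ∧ x 0 ≤ y 0 ∧
              ∑ i : Fin 3, (y i.succ - x i.succ) ^ 2 ≤ (y 0 - x 0) ^ 2})) ∈ S) →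
      (∀ p ∈ S,
        ((fun v => {x : Fin 3 → ℝ | ∃ y ∈ p.1 v, y ≠ x ∧ y 0 ≤ x 0 ∧
              ∑ i : Fin 2, (x i.succ - y i.succ) ^ 2 ≤ (x 0 - y 0) ^ 2}),
         (fun w => {x : Fin 4 → ℝ | ∃ y ∈ p.2 w, y ≠ x ∧ y 0 ≤ x 0 ∧
              ∑ i : Fin 3, (x i.succ - y i.succ) ^ 2 ≤ (x 0 - y 0) ^ 2})) ∈ S) →
      (f, g) ∈ S) ∧
    ¬ ((∃ (v : ℕ → Set (Fin 3 → ℝ)) (x : Fin 3 → ℝ), x ∈ f v) ↔
       (∃ (w : ℕ → Set (Fin 4 → ℝ)) (y : Fin 4 → ℝ), y ∈ g w)) := by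
  refine ⟨fun v => ev Q3 v phi, fun w => ev Q4 w phi, ?_, ?_⟩
  · intro S hatom hneg hconj hfut hpast
    have key : ∀ a : Fml, ((fun v => ev Q3 v a), (fun w => ev Q4 w a)) ∈ S := by
      intro a
      induction a with
      | atom k => exact hatom k
      | neg a ih => exact hneg _ ih
      | conj a b iha ihb => exact hconj _ iha _ ihb
      | fut a ih => exact hfut _ ih
      | past a ih => exact hpast _ ih
    exact key phi
  · intro h
    obtain ⟨v, x, hx⟩ := h.mpr ⟨val4, 0, sat4⟩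
    exact unsat3 v x hx

end Pool.Agent.S14541
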