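import Pool.Statements.S14696

set_option autoImplicit false
open Pool Pool.MP_51f845_lc

namespace Pool.Agent.S14696

/-! The counterexample is the language of locally or temporally inconsistent factors of traces of a
small Turing machine without periodic orbits (a variant of the machine SMART of Cassaigne, Ollinger
and Torres-Aviles). The machine has two kinds of states, `a` (kind `false`) and `d` (kind `true`),
each in a right moving and a left moving version, and three tape symbols `0, 1, 2`. -/

/-- A letter records the kind of the state, the direction from which the head comes and the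
symbol that is read. -/
structure Letter where
  kind : Bool
  dir : Bool
  sym : Fin 3
deriving DecidableEq, Fintype

/-- Does the head turn back? -/
def rev (l : Letter) : Bool := if l.kind then decide (l.sym = 1) else true

/-- The kind of the next state. -/
def nextKind (l : Letter) : Bool := if l.kind then decide (l.sym = 1) else decide (l.sym ≠ 2)

/-- The written symbol. -/
def write (l : Letter) : Fin 3 :=
  if l.kind then (if l.sym = 2 then 1 else 2) else (if l.sym = 1 then 1 else 0)

/-- The direction in which the head leaves. -/
def out (l : Letter) : Bool := if rev l then !l.dir else l.dir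

/-- Excursion on the side `e`: the head starts on a cell and for the first time leaves it
to the other side. -/
inductive Exc (e : Bool) : List Letter → Prop
  | base (l : Letter) (h : out l = !e) : Exc e [l]
  | step (l : Letter) (v w : List Letter) (h : out l = e) (hv : Exc e v) (hw : Exc e w) :
      Exc e (l :: (v ++ w))

/-- The inconsistent words. -/
inductive Bad : List Letter → Prop
  | trans (l z : Letter) (h : ¬ (z.kind = nextKind l ∧ z.dir = out l)) : Bad [l, z]
  | tape (l : Letter) (v : List Letter) (z : Letter) (hv : Exc (out l) v) (h : z.sym ≠ write l) :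
      Bad (l :: (v ++ [z]))

/-! ### The language is context-free -/

/-- The rewriting rules. -/
def ruleSet : Finset (ContextFreeRule Letter (Option Bool)) :=
  ((Finset.univ.filter (fun p : Letter × Letter =>
      ¬ (p.2.kind = nextKind p.1 ∧ p.2.dir = out p.1))).image
    (fun p => ⟨none, [Symbol.terminal p.1, Symbol.terminal p.2]⟩)) ∪
  ((Finset.univ.filter (fun p : Letter × Letter => p.2.sym ≠ write p.1)).image
    (fun p => ⟨none, [Symbol.terminal p.1, Symbol.nonterminal (some (out p.1)),
      Symbol.terminal p.2]⟩)) ∪
  (Finset.univ.image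
    (fun l : Letter => ⟨some (!(out l)), [Symbol.terminal l]⟩)) ∪
  (Finset.univ.image
    (fun l : Letter => ⟨some (out l), [Symbol.terminal l, Symbol.nonterminal (some (out l)),
      Symbol.nonterminal (some (out l))]⟩))

/-- The grammar. -/
abbrev gram : ContextFreeGrammar Letter where
  NT := Option Bool
  initial := none
  rules := ruleSet

/-- The meaning of the nonterminals. -/
def Sem : Option Bool → List Letter → Prop
  | none => Bad
  | some e => Exc e

/-- The meaning of sentential forms. -/
def Interp : List (Symbol Letter (Option Bool)) → List Letter → Prop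
  | [], w => w = []
  | Symbol.terminal t :: u, w => ∃ w', w = t :: w' ∧ Interp u w'
  | Symbol.nonterminal n :: u, w => ∃ w₁ w₂, w = w₁ ++ w₂ ∧ Sem n w₁ ∧ Interp u w₂

theorem interp_append (u v : List (Symbol Letter (Option Bool))) (w : List Letter) :
    Interp (u ++ v) w ↔ ∃ w₁ w₂, w = w₁ ++ w₂ ∧ Interp u w₁ ∧ Interp v w₂ := by
  induction u generalizing w with
  | nil =>
    simp only [List.nil_append, Interp]
    constructor
    · intro h
      exact ⟨[], w, rfl, rfl, h⟩
    · rintro ⟨w₁, w₂, rfl, rfl, h⟩
      exact h
  | cons x u ih =>
    cases x with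
    | terminal t =>
      simp only [List.cons_append, Interp]
      constructor
      · rintro ⟨w', rfl, h⟩
        obtain ⟨w₁, w₂, rfl, h1, h2⟩ := (ih w').1 h
        exact ⟨t :: w₁, w₂, rfl, ⟨w₁, rfl, h1⟩, h2⟩
      · rintro ⟨w₁, w₂, rfl, ⟨w', rfl, h1⟩, h2⟩
        exact ⟨w' ++ w₂, rfl, (ih _).2 ⟨w', w₂, rfl, h1, h2⟩⟩
    | nonterminal n =>
      simp only [List.cons_append, Interp]
      constructor
      · rintro ⟨w₁, w₂, rfl, h1, h⟩
        obtain ⟨w₃, w₄, rfl, h3, h4⟩ := (ih w₂).1 h
        exact ⟨w₁ ++ w₃, w₄, by simp, ⟨w₁, w₃, rfl, h1, h3⟩, h4⟩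
      · rintro ⟨w₁, w₂, rfl, ⟨w₃, w₄, rfl, h3, h4⟩, h2⟩
        exact ⟨w₃, w₄ ++ w₂, by simp, h3, (ih _).2 ⟨w₄, w₂, rfl, h4, h2⟩⟩

theorem interp_terminal (v w : List Letter) :
    Interp (v.map Symbol.terminal) w ↔ w = v := by
  induction v generalizing w with
  | nil => simp [Interp]
  | cons t v ih =>
    simp only [List.map_cons, Interp]
    constructor
    · rintro ⟨w', rfl, h⟩
      rw [(ih w').1 h]
    · rintro rfl
      exact ⟨v, rfl, (ih v).2 rfl⟩

theorem interp_rule (r : ContextFreeRule Letter (Option Bool)) (hr : r ∈ ruleSet)
    (w : List Letter) (h : Interp r.output w) : Sem r.input w := by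
  simp only [ruleSet, Finset.mem_union, Finset.mem_image, Finset.mem_filter, Finset.mem_univ,
    true_and] at hr
  rcases hr with ((⟨p, hp, rfl⟩ | ⟨p, hp, rfl⟩) | ⟨l, rfl⟩) | ⟨l, rfl⟩
  · simp only [Interp] at h
    obtain ⟨w', rfl, w'', rfl, rfl⟩ := h
    exact Bad.trans _ _ hp
  · simp only [Interp] at h
    obtain ⟨w', rfl, w₁, w₂, rfl, h1, w₃, rfl, rfl⟩ := h
    exact Bad.tape _ _ _ h1 hp
  · simp only [Interp] at h
    obtain ⟨w', rfl, rfl⟩ := h
    exact Exc.base _ (by simp)
  · simp only [Interp] at h
    obtain ⟨w', rfl, w₁, w₂, rfl, h1, w₃, w₄, rfl, h2, rfl⟩ := h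
    rw [List.append_nil]
    exact Exc.step _ _ _ rfl h1 h2

theorem interp_derives (u v : List (Symbol Letter (Option Bool))) (h : gram.Derives u v)
    (w : List Letter) (hw : Interp v w) : Interp u w := by
  induction h with
  | refl => exact hw
  | tail _ hs ih =>
    obtain ⟨r, hr, hs⟩ := hs
    obtain ⟨p, q, rfl, rfl⟩ := hs.exists_parts
    apply ih
    rw [interp_append, ] at hw
    obtain ⟨w₁, w₂, rfl, h1, h2⟩ := hw
    rw [interp_append] at h1
    obtain ⟨w₃, w₄, rfl, h3, h4⟩ := h1
    rw [interp_append]
    refine ⟨w₃ ++ w₄, w₂, rfl, ?_, h2⟩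
    rw [interp_append]
    refine ⟨w₃, w₄, rfl, h3, ?_⟩
    exact ⟨w₄, [], by simp, interp_rule r hr _ h4, rfl⟩

theorem derives_rule (n : Option Bool) (o : List (Symbol Letter (Option Bool)))
    (h : (⟨n, o⟩ : ContextFreeRule Letter (Option Bool)) ∈ ruleSet) :
    gram.Derives [Symbol.nonterminal n] o :=
  ContextFreeGrammar.Produces.single ⟨⟨n, o⟩, h, ContextFreeRule.Rewrites.input_output⟩

theorem exc_derives (e : Bool) (v : List Letter) (h : Exc e v) :
    gram.Derives [Symbol.nonterminal (some e)] (v.map Symbol.terminal) := by
  induction h with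
  | base l h =>
    apply derives_rule
    simp only [ruleSet, Finset.mem_union, Finset.mem_image, Finset.mem_filter, Finset.mem_univ,
      true_and]
    refine Or.inl (Or.inr ⟨l, ?_⟩)
    rw [h, Bool.not_not]
    rfl
  | step l v w h hv hw ihv ihw =>
    have h1 : gram.Derives [Symbol.nonterminal (some e)]
        [Symbol.terminal l, Symbol.nonterminal (some e), Symbol.nonterminal (some e)] := by
      apply derives_rule
      simp only [ruleSet, Finset.mem_union, Finset.mem_image, Finset.mem_filter, Finset.mem_univ,
        true_and]
      refine Or.inr ⟨l, ?_⟩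
      rw [h]
    refine h1.trans ?_
    have h2 : gram.Derives
        ([Symbol.terminal l] ++ ([Symbol.nonterminal (some e)] ++ [Symbol.nonterminal (some e)]))
        ([Symbol.terminal l] ++ (v.map Symbol.terminal ++ w.map Symbol.terminal)) := by
      apply ContextFreeGrammar.Derives.append_left
      exact (ihv.append_right _).trans (ihw.append_left _)
    simpa using h2

theorem bad_derives (v : List Letter) (h : Bad v) :
    gram.Derives [Symbol.nonterminal none] (v.map Symbol.terminal) := by
  cases h with
  | trans l z h =>
    apply derives_rule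
    simp only [ruleSet, Finset.mem_union, Finset.mem_image, Finset.mem_filter, Finset.mem_univ,
      true_and]
    exact Or.inl (Or.inl (Or.inl ⟨(l, z), h, rfl⟩))
  | tape l v z hv h =>
    have h1 : gram.Derives [Symbol.nonterminal none]
        [Symbol.terminal l, Symbol.nonterminal (some (out l)), Symbol.terminal z] := by
      apply derives_rule
      simp only [ruleSet, Finset.mem_union, Finset.mem_image, Finset.mem_filter, Finset.mem_univ,
        true_and]
      exact Or.inl (Or.inl (Or.inr ⟨(l, z), h, rfl⟩))
    refine h1.trans ?_
    have h2 : gram.Derives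
        ([Symbol.terminal l] ++ ([Symbol.nonterminal (some (out l))] ++ [Symbol.terminal z]))
        ([Symbol.terminal l] ++ (v.map Symbol.terminal ++ [Symbol.terminal z])) := by
      apply ContextFreeGrammar.Derives.append_left
      exact (exc_derives _ _ hv).append_right _
    simpa using h2

theorem gram_language : gram.language = {v : List Letter | Bad v} := by
  ext v
  rw [ContextFreeGrammar.mem_language_iff]
  constructor
  · intro h
    have := interp_derives _ _ h v ((interp_terminal v v).2 rfl)
    obtain ⟨w₁, w₂, rfl, h1, h2⟩ := this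
    have h2' : w₂ = [] := h2
    subst h2'
    rw [List.append_nil]
    exact h1
  · intro h
    exact bad_derives v h

/-! ### The machine -/

/-- Put a symbol in front of a half line. -/
def scons (s : Fin 3) (f : ℕ → Fin 3) : ℕ → Fin 3
  | 0 => s
  | n + 1 => f n

/-- Remove the first symbol of a half line. -/
def stl (f : ℕ → Fin 3) : ℕ → Fin 3 := fun n => f (n + 1)

@[simp] theorem stl_scons (s : Fin 3) (f : ℕ → Fin 3) : stl (scons s f) = f := rfl

@[simp] theorem scons_zero (s : Fin 3) (f : ℕ → Fin 3) : scons s f 0 = s := rfl

theorem scons_stl (f : ℕ → Fin 3) : scons (f 0) (stl f) = f := by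
  funext n
  cases n <;> rfl

/-- A configuration: kind and direction of the state, the half line in front of the head
(its first cell is the one being read), and the half line behind the head. -/
@[ext]
structure Conf where
  kind : Bool
  dir : Bool
  F : ℕ → Fin 3
  B : ℕ → Fin 3

/-- The current letter. -/
def letter (c : Conf) : Letter := ⟨c.kind, c.dir, c.F 0⟩

/-- One step of the machine. -/
def step (c : Conf) : Conf :=
  if rev (letter c) then
    ⟨nextKind (letter c), !c.dir, c.B, scons (write (letter c)) (stl c.F)⟩
  else ⟨nextKind (letter c), c.dir, stl c.F, scons (write (letter c)) c.B⟩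

/-- The word `v` is read on the way from `c` to `c'`. -/
def Run : Conf → List Letter → Conf → Prop
  | c, [], c' => c' = c
  | c, l :: v, c' => l = letter c ∧ Run (step c) v c'

theorem run_append (c c' : Conf) (u v : List Letter) :
    Run c (u ++ v) c' ↔ ∃ c₁, Run c u c₁ ∧ Run c₁ v c' := by
  induction u generalizing c with
  | nil =>
    simp only [List.nil_append, Run]
    constructor
    · intro h
      exact ⟨c, rfl, h⟩
    · rintro ⟨c₁, rfl, h⟩
      exact h
  | cons l u ih =>
    simp only [List.cons_append, Run, ih]
    constructor
    · rintro ⟨h, c₁, h1, h2⟩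
      exact ⟨c₁, ⟨h, h1⟩, h2⟩
    · rintro ⟨c₁, ⟨h, h1⟩, h2⟩
      exact ⟨h, c₁, h1, h2⟩

theorem step_dir (c : Conf) : (step c).dir = out (letter c) := by
  unfold step out
  split_ifs <;> rfl

theorem step_kind (c : Conf) : (step c).kind = nextKind (letter c) := by
  unfold step
  split_ifs <;> rfl

/-- The half line on side `e'` opposite to `e`, without the current cell. -/
def side (e : Bool) (c : Conf) : ℕ → Fin 3 := if c.dir = e then c.B else stl c.F

theorem side_step (c : Conf) :
    side (out (letter c)) (step c) = scons (write (letter c)) (side (out (letter c)) c) := by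
  unfold side
  rw [if_pos (step_dir c)]
  unfold step out
  by_cases h : rev (letter c) = true
  · rw [if_pos h, if_pos h]
    have : ¬ (c.dir = !(letter c).dir) := by
      unfold letter
      simp
    rw [if_neg this]
  · rw [if_neg h, if_neg h]
    have : c.dir = (letter c).dir := rfl
    rw [if_pos this]

theorem base_step (c : Conf) (e : Bool) (h : out (letter c) = !e) :
    (step c).dir = !e ∧ (step c).F = side e c := by
  refine ⟨by rw [step_dir, h], ?_⟩
  unfold side step
  unfold out at h
  by_cases h1 : rev (letter c) = true
  · rw [if_pos h1] at h ⊢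
    have : c.dir = e := by
      have h2 : (letter c).dir = c.dir := rfl
      rw [h2] at h
      simpa using h
    rw [if_pos this]
  · rw [if_neg h1] at h ⊢
    have : ¬ c.dir = e := by
      have h2 : (letter c).dir = c.dir := rfl
      rw [h2] at h
      rw [h]
      simp
    rw [if_neg this]

theorem exc_run (e : Bool) (v : List Letter) (hv : Exc e v) :
    ∀ c c' : Conf, Run c v c' → c'.dir = !e ∧ c'.F = side e c := by
  induction hv with
  | base l h =>
    rintro c c' ⟨rfl, h1⟩
    have h1' : c' = step c := h1
    subst h1'
    exact base_step c e h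
  | step l v w h _ _ ihv ihw =>
    rintro c c' ⟨rfl, h1⟩
    obtain ⟨c₁, h2, h3⟩ := (run_append _ _ _ _).1 h1
    obtain ⟨h4, h5⟩ := ihv _ _ h2
    obtain ⟨h6, h7⟩ := ihw _ _ h3
    refine ⟨h6, ?_⟩
    rw [h7]
    have h8 : side e c₁ = stl c₁.F := by
      unfold side
      rw [if_neg]
      rw [h4]
      simp
    rw [h8, h5]
    subst h
    rw [side_step]
    rfl

theorem not_bad_of_run (v : List Letter) (c c' : Conf) (h : Run c v c') : ¬ Bad v := by
  intro hb
  cases hb with
  | trans l z hz =>
    obtain ⟨rfl, rfl, _⟩ := h
    apply hz
    exact ⟨step_kind c, step_dir c⟩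
  | tape l v z hv hz =>
    obtain ⟨rfl, h⟩ := h
    obtain ⟨c₁, h1, h2⟩ := (run_append _ _ _ _).1 h
    obtain ⟨rfl, _⟩ := h2
    obtain ⟨h4, h5⟩ := exc_run _ _ hv _ _ h1
    apply hz
    have h6 : (letter c₁).sym = c₁.F 0 := rfl
    rw [h6, h5, side_step]
    rfl

/-- The first `n` letters of the trace of `c`. -/
def tr : Conf → ℕ → List Letter
  | _, 0 => []
  | c, n + 1 => letter c :: tr (step c) n

theorem tr_length (c : Conf) (n : ℕ) : (tr c n).length = n := by
  induction n generalizing c with
  | zero => rfl
  | succ n ih => simp [tr, ih]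

theorem run_tr (c : Conf) (n : ℕ) : ∃ c', Run c (tr c n) c' := by
  induction n generalizing c with
  | zero => exact ⟨c, rfl⟩
  | succ n ih =>
    obtain ⟨c', h⟩ := ih (step c)
    exact ⟨c', rfl, h⟩

theorem avoid_infinite :
    {u : List Letter | ¬ ∃ v ∈ ({v : List Letter | Bad v} : Set (List Letter)), v <:+: u}.Infinite := by
  let c : Conf := ⟨false, false, fun _ => 0, fun _ => 0⟩
  refine Set.infinite_of_injective_forall_mem (f := fun n => tr c n) ?_ ?_
  · intro m n h
    have := congrArg List.length h
    simpa [tr_length] using this
  · intro n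
    rintro ⟨v, hv, s, t, hst⟩
    obtain ⟨c', h⟩ := run_tr c n
    rw [← hst] at h
    obtain ⟨c₁, h1, _⟩ := (run_append _ _ _ _).1 h
    obtain ⟨c₂, _, h2⟩ := (run_append _ _ _ _).1 h1
    exact not_bad_of_run v _ _ h2 hv

/-! ### Aperiodicity of the machine -/

/-- Insert the symbol `2` next to the head. -/
def Phi (c : Conf) : Conf :=
  if c.kind then ⟨c.kind, c.dir, scons 2 c.F, c.B⟩ else ⟨c.kind, c.dir, c.F, scons 2 c.B⟩

/-- The time the machine takes to simulate one of its own steps. -/
def len (l : Letter) : ℕ := if l.kind = false ∧ l.sym ≠ 2 then 1 else 4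

/-- Is the configuration in the image of `Phi`? -/
def IsPhi (c : Conf) : Prop := if c.kind then c.F 0 = 2 else c.B 0 = 2

theorem fin3_cases (s : Fin 3) : s = 0 ∨ s = 1 ∨ s = 2 := by
  fin_cases s <;> simp

theorem exists_phi (c : Conf) (h : IsPhi c) : ∃ c', c = Phi c' := by
  obtain ⟨k, d, F, B⟩ := c
  cases k with
  | true =>
    simp only [IsPhi, if_true] at h
    refine ⟨⟨true, d, stl F, B⟩, ?_⟩
    simp only [Phi, if_true]
    rw [← h, scons_stl]
  | false =>
    simp only [IsPhi, Bool.false_eq_true, if_false] at h
    refine ⟨⟨false, d, F, stl B⟩, ?_⟩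
    simp only [Phi, Bool.false_eq_true, if_false]
    rw [← h, scons_stl]

theorem sim (c : Conf) : Phi (step c) = step^[len (letter c)] (Phi c) := by
  obtain ⟨k, d, F, B⟩ := c
  cases k <;> cases d <;> rcases fin3_cases (F 0) with h | h | h <;>
    simp [Phi, step, letter, len, rev, nextKind, write, h, Function.iterate_succ]

theorem isPhi_phi (c : Conf) : IsPhi (Phi c) := by
  obtain ⟨k, d, F, B⟩ := c
  cases k <;> simp [IsPhi, Phi]

theorem interior (c : Conf) (j : ℕ) (h0 : 0 < j) (h1 : j < len (letter c)) :
    ¬ IsPhi (step^[j] (Phi c)) := by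
  have h4 : len (letter c) ≤ 4 := by
    unfold len
    split_ifs <;> norm_num
  have hj : j = 1 ∨ j = 2 ∨ j = 3 := by omega
  obtain ⟨k, d, F, B⟩ := c
  rcases hj with rfl | rfl | rfl <;>
  cases k <;> cases d <;> rcases fin3_cases (F 0) with h | h | h <;>
    simp_all [Phi, step, letter, len, rev, nextKind, write, IsPhi, Function.iterate_succ]

theorem reach (c : Conf) : ∃ k, IsPhi (step^[k] c) := by
  obtain ⟨k, d, F, B⟩ := c
  cases k
  · -- kind a
    rcases fin3_cases (B 0) with hB | hB | hB
    · rcases fin3_cases (F 0) with hF | hF | hF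
      · refine ⟨2, ?_⟩
        cases d <;> simp [step, letter, rev, nextKind, write, IsPhi, hB, hF]
      · refine ⟨2, ?_⟩
        cases d <;> simp [step, letter, rev, nextKind, write, IsPhi, hB, hF]
      · refine ⟨3, ?_⟩
        cases d <;> simp [step, letter, rev, nextKind, write, IsPhi, hB, hF]
    · rcases fin3_cases (F 0) with hF | hF | hF
      · refine ⟨3, ?_⟩
        cases d <;> simp [step, letter, rev, nextKind, write, IsPhi, hB, hF]
      · refine ⟨3, ?_⟩
        cases d <;> simp [step, letter, rev, nextKind, write, IsPhi, hB, hF]
      · refine ⟨3, ?_⟩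
        cases d <;> simp [step, letter, rev, nextKind, write, IsPhi, hB, hF]
    · refine ⟨0, ?_⟩
      cases d <;> simp [IsPhi, hB]
  · -- kind d
    rcases fin3_cases (F 0) with hF | hF | hF
    · refine ⟨1, ?_⟩
      cases d <;> simp [step, letter, rev, nextKind, write, IsPhi, hF]
    · rcases fin3_cases (B 0) with hB | hB | hB
      · refine ⟨2, ?_⟩
        cases d <;> simp [step, letter, rev, nextKind, write, IsPhi, hB, hF]
      · refine ⟨2, ?_⟩
        cases d <;> simp [step, letter, rev, nextKind, write, IsPhi, hB, hF]
      · refine ⟨1, ?_⟩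
        cases d <;> simp [step, letter, rev, nextKind, write, IsPhi, hB, hF]
    · refine ⟨0, ?_⟩
      simp [IsPhi, hF]

/-- Being in the image of `Phi` can be seen from the next two letters. -/
def Start (l z : Letter) : Prop := if l.kind then l.sym = 2 else z.sym = 2

theorem isPhi_iff (c : Conf) : IsPhi c ↔ Start (letter c) (letter (step c)) := by
  obtain ⟨k, d, F, B⟩ := c
  cases k <;> simp [IsPhi, Start, letter, step, rev]

/-- The simulated letter, from the next two letters. -/
def dec (l z : Letter) : Letter := ⟨l.kind, l.dir, if l.kind then z.sym else l.sym⟩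

theorem dec_phi (c : Conf) : letter c = dec (letter (Phi c)) (letter (step (Phi c))) := by
  obtain ⟨k, d, F, B⟩ := c
  cases k <;> simp [Phi, dec, letter, step, rev]

/-- Starting times of the blocks. -/
def tau (c : Conf) : ℕ → ℕ
  | 0 => 0
  | k + 1 => tau c k + len (letter (step^[k] c))

theorem phi_tau (c : Conf) (k : ℕ) : step^[tau c k] (Phi c) = Phi (step^[k] c) := by
  induction k with
  | zero => rfl
  | succ k ih =>
    rw [Function.iterate_succ_apply' step k c, sim, ← ih, ← Function.iterate_add_apply]
    congr 1
    simp only [tau]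
    ring

theorem len_pos (l : Letter) : 1 ≤ len l := by
  unfold len
  split_ifs <;> norm_num

theorem tau_ge (c : Conf) (k : ℕ) : k ≤ tau c k := by
  induction k with
  | zero => simp [tau]
  | succ k ih =>
    have := len_pos (letter (step^[k] c))
    simp only [tau]
    omega

/-- Two consecutive blocks cannot both be short. -/
theorem len_two (c : Conf) : 5 ≤ len (letter c) + len (letter (step c)) := by
  obtain ⟨k, d, F, B⟩ := c
  cases k <;> cases d <;> rcases fin3_cases (F 0) with h | h | h <;>
    simp [letter, len, step, rev, nextKind, h] <;> split_ifs <;> norm_num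

theorem tau_gt (c : Conf) (k : ℕ) : k + 2 < tau c (k + 2) := by
  have h1 := len_two c
  induction k with
  | zero =>
    simp only [tau, Function.iterate_zero, id, Function.iterate_one]
    omega
  | succ k ih =>
    have := len_pos (letter (step^[k + 2] c))
    have h2 : tau c (k + 1 + 2) = tau c (k + 2) + len (letter (step^[k + 2] c)) := rfl
    omega

theorem exists_tau (c : Conf) (p : ℕ) (h : IsPhi (step^[p] (Phi c))) : ∃ k, tau c k = p := by
  -- largest k with tau k ≤ p
  have hex : ∃ k, p < tau c (k + 1) := ⟨p, by have := tau_ge c (p + 1); omega⟩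
  classical
  obtain ⟨k, hk, hmin⟩ := (⟨Nat.find hex, Nat.find_spec hex, fun m hm => Nat.find_min hex hm⟩ :
    ∃ k, p < tau c (k + 1) ∧ ∀ m < k, ¬ p < tau c (m + 1))
  have hle : tau c k ≤ p := by
    cases k with
    | zero => simp [tau]
    | succ k =>
      have := hmin k (by omega)
      omega
  refine ⟨k, ?_⟩
  by_contra hne
  have hlt : tau c k < p := by omega
  apply interior (step^[k] c) (p - tau c k) (by omega)
  · simp only [tau] at hk
    omega
  · rw [← phi_tau, ← Function.iterate_add_apply]
    have : p - tau c k + tau c k = p := by omega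
    rw [this]
    exact h

theorem aperiodic (p : ℕ) (hp : 1 ≤ p) :
    ∀ c : Conf, ¬ ∀ t, letter (step^[t + p] c) = letter (step^[t] c) := by
  induction p using Nat.strong_induction_on with
  | _ p ih =>
    intro c₀ h₀
    obtain ⟨k₀, hk₀⟩ := reach c₀
    obtain ⟨c, hc⟩ := exists_phi _ hk₀
    have hper : ∀ t, letter (step^[t + p] (Phi c)) = letter (step^[t] (Phi c)) := by
      intro t
      rw [← hc, ← Function.iterate_add_apply, ← Function.iterate_add_apply]
      have := h₀ (t + k₀)
      rw [← this]
      congr 2
      ring
    have hphi : IsPhi (step^[p] (Phi c)) := by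
      rw [isPhi_iff, ← Function.iterate_succ_apply' step]
      have h1 := hper 0
      have h2 := hper 1
      rw [zero_add] at h1
      have h3 : p.succ = 1 + p := by omega
      rw [h3, h1, h2]
      exact (isPhi_iff (Phi c)).1 (isPhi_phi c)
    obtain ⟨k, hk⟩ := exists_tau c p hphi
    have hk1 : 1 ≤ k := by
      rcases Nat.eq_zero_or_pos k with h | h
      · subst h
        simp only [tau] at hk
        omega
      · exact h
    have hkp : k < p := by
      rcases Nat.lt_or_ge k 2 with h2 | h2
      · have hk' : k = 1 := by omega
        subst hk'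
        have h5 := len_two c
        by_contra hlt
        have hp1 : p = 1 := by omega
        subst hp1
        -- the first block is short and the period is one
        have h6 : len (letter c) = 1 := by
          simpa [tau] using hk
        have h7 := hper 0
        obtain ⟨kk, d, F, B⟩ := c
        cases kk with
        | true => simp [len, letter] at h6
        | false =>
          have h8 : F 0 ≠ 2 := by
            intro hF
            simp [len, letter, hF] at h6
          simp [Phi, step, letter, rev, nextKind, h8] at h7
      · obtain ⟨m, rfl⟩ := Nat.exists_eq_add_of_le h2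
        have := tau_gt c m
        rw [Nat.add_comm 2 m] at hk ⊢
        omega
    -- periodicity of the simulated trace
    have key : ∀ j, tau c (j + k) = tau c j + p ∧
        letter (step^[j + k] c) = letter (step^[j] c) := by
      intro j
      have hlet : ∀ j, tau c (j + k) = tau c j + p →
          letter (step^[j + k] c) = letter (step^[j] c) := by
        intro j hj
        rw [dec_phi (step^[j + k] c), dec_phi (step^[j] c), ← phi_tau, ← phi_tau, hj, hper]
        rw [← Function.iterate_succ_apply' step, ← Function.iterate_succ_apply' step]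
        have : (tau c j + p).succ = (tau c j).succ + p := by omega
        rw [this, hper]
      induction j with
      | zero =>
        have : tau c (0 + k) = tau c 0 + p := by
          simp only [zero_add, tau]
          omega
        exact ⟨this, hlet 0 this⟩
      | succ j ihj =>
        have : tau c (j + 1 + k) = tau c (j + 1) + p := by
          have h1 : j + 1 + k = (j + k) + 1 := by ring
          rw [h1]
          simp only [tau]
          rw [ihj.1, ihj.2]
          ring
        exact ⟨this, hlet (j + 1) this⟩
    exact ih k hkp hk1 c (fun t => (key t).2)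

/-! ### From consistent infinite words to configurations -/

/-- Sign of a direction. -/
def sgn (b : Bool) : ℤ := if b then 1 else -1

theorem sgn_not (b : Bool) : sgn (!b) = - sgn b := by
  cases b <;> simp [sgn]

theorem sgn_sq (b : Bool) : sgn b * sgn b = 1 := by
  cases b <;> simp [sgn]

theorem sgn_cases (b : Bool) : sgn b = 1 ∨ sgn b = -1 := by
  cases b <;> simp [sgn]

/-- Position of the head. -/
def ht (x : ℕ → Letter) : ℕ → ℤ
  | 0 => 0
  | t + 1 => ht x t + sgn (out (x t))

/-- Segments of an infinite word. -/
def seg (x : ℕ → Letter) : ℕ → ℕ → List Letter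
  | _, 0 => []
  | a, n + 1 => x a :: seg x (a + 1) n

theorem seg_append (x : ℕ → Letter) (a m n : ℕ) :
    seg x a (m + n) = seg x a m ++ seg x (a + m) n := by
  induction m generalizing a with
  | zero => simp [seg]
  | succ m ih =>
    have h1 : m + 1 + n = (m + n) + 1 := by ring
    have h2 : a + (m + 1) = a + 1 + m := by ring
    rw [h1, h2]
    simp only [seg, List.cons_append, ih]

/-- A first passage is an excursion. -/
theorem exc_seg (x : ℕ → Letter) (e : Bool) (n : ℕ) :
    ∀ a, (∀ k < n, 0 ≤ sgn e * (ht x (a + k) - ht x a)) → ht x (a + n) = ht x a - sgn e →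
      Exc e (seg x a n) := by
  induction n using Nat.strong_induction_on with
  | _ n ih =>
    intro a hk hn
    rcases Nat.eq_zero_or_pos n with h0 | h0
    · subst h0
      have h1 : sgn e = 0 := by
        have : ht x (a + 0) = ht x a := rfl
        rw [this] at hn
        linarith
      have h2 := sgn_sq e
      rw [h1] at h2
      simp at h2
    · obtain ⟨m, rfl⟩ : ∃ m, n = m + 1 := ⟨n - 1, by omega⟩
      have hstep : ht x (a + 1) = ht x a + sgn (out (x a)) := rfl
      by_cases hout : out (x a) = e
      · -- first the head moves into the side e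
        have hex2 : ∃ k, 1 ≤ k ∧ sgn e * (ht x (a + k) - ht x a) ≤ 0 := by
          refine ⟨m + 1, by omega, ?_⟩
          rw [hn]
          have := sgn_sq e
          nlinarith
        obtain ⟨k, ⟨hk1, hk2⟩, hmin⟩ := (⟨Nat.find hex2, Nat.find_spec hex2,
          fun j hj => Nat.find_min hex2 hj⟩ :
          ∃ k, (1 ≤ k ∧ sgn e * (ht x (a + k) - ht x a) ≤ 0) ∧
            ∀ j < k, ¬ (1 ≤ j ∧ sgn e * (ht x (a + j) - ht x a) ≤ 0))
        have hk_ne1 : k ≠ 1 := by
          rintro rfl
          rw [hstep, hout] at hk2
          have := sgn_sq e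
          nlinarith
        obtain ⟨j, rfl⟩ : ∃ j, k = j + 2 := ⟨k - 2, by omega⟩
        have hj1 := hmin (j + 1) (by omega)
        have hj1' : 0 < sgn e * (ht x (a + (j + 1)) - ht x a) := by
          by_contra hcon
          exact hj1 ⟨by omega, by linarith⟩
        have hstep2 : ht x (a + (j + 2)) = ht x (a + (j + 1)) + sgn (out (x (a + (j + 1)))) := rfl
        have hback : ht x (a + (j + 2)) = ht x a := by
          rcases sgn_cases e with he | he <;> rcases sgn_cases (out (x (a + (j + 1)))) with ho | ho <;>
            rw [he] at hk2 hj1' <;> rw [ho] at hstep2 <;> omega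
        have hjle : j + 2 ≤ m + 1 := by
          by_contra hcon
          have := hmin (m + 1) (by omega)
          apply this
          refine ⟨by omega, ?_⟩
          rw [hn]
          have := sgn_sq e
          nlinarith
        have hjlt : j + 2 < m + 1 := by
          rcases Nat.lt_or_ge (j + 2) (m + 1) with h | h
          · exact h
          · have : j + 2 = m + 1 := by omega
            rw [this, hn] at hback
            rcases sgn_cases e with he | he <;> rw [he] at hback <;> omega
        obtain ⟨q, hq⟩ := Nat.exists_eq_add_of_lt hjlt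
        -- m + 1 = j + 2 + q + 1
        have hm : m = (j + 1) + (q + 1) := by omega
        have hseg : seg x a (m + 1) = x a :: (seg x (a + 1) (j + 1) ++ seg x (a + (j + 2)) (q + 1)) := by
          rw [hm]
          have h3 : a + (j + 2) = a + 1 + (j + 1) := by ring
          rw [h3, ← seg_append]
          rfl
        rw [hseg]
        refine Exc.step _ _ _ hout ?_ ?_
        · apply ih (j + 1) (by omega)
          · intro i hi
            have h4 := hmin (i + 1) (by omega)
            have h5 : 0 < sgn e * (ht x (a + (i + 1)) - ht x a) := by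
              by_contra hcon
              exact h4 ⟨by omega, by linarith⟩
            have h6 : a + 1 + i = a + (i + 1) := by ring
            rw [h6, hstep, hout]
            have := sgn_sq e
            nlinarith
          · have h6 : a + 1 + (j + 1) = a + (j + 2) := by ring
            rw [h6, hback, hstep, hout]
            ring
        · apply ih (q + 1) (by omega)
          · intro i hi
            rw [hback]
            have h6 : a + (j + 2) + i = a + (j + 2 + i) := by ring
            rw [h6]
            exact hk _ (by omega)
          · have h6 : a + (j + 2) + (q + 1) = a + (m + 1) := by omega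
            rw [h6, hn, hback]
      · -- the head leaves at once
        have hout' : out (x a) = !e := by
          cases h1 : out (x a) <;> cases h2 : e <;> simp_all
        have hm : m = 0 := by
          by_contra hne
          have := hk 1 (by omega)
          rw [hstep, hout', sgn_not] at this
          have h2 := sgn_sq e
          nlinarith
        subst hm
        exact Exc.base _ hout'

section tape

variable (x : ℕ → Letter)

open Classical in
/-- The initial tape. -/
noncomputable def tape0 (c : ℤ) : Fin 3 :=
  if h : ∃ t, ht x t = c then (x (Nat.find h)).sym else 0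

/-- The tape at time `t`. -/
noncomputable def tapeAt : ℕ → ℤ → Fin 3
  | 0 => tape0 x
  | t + 1 => Function.update (tapeAt t) (ht x t) (write (x t))

theorem tape_unvisited (c : ℤ) (t : ℕ) (h : ∀ k < t, ht x k ≠ c) : tapeAt x t c = tape0 x c := by
  induction t with
  | zero => rfl
  | succ t ih =>
    simp only [tapeAt]
    rw [Function.update_of_ne (h t (by omega)).symm]
    exact ih (fun k hk => h k (by omega))

theorem tape_visited (c : ℤ) (i n : ℕ) (hi : ht x i = c)
    (h : ∀ k, i < k → k < i + 1 + n → ht x k ≠ c) : tapeAt x (i + 1 + n) c = write (x i) := by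
  induction n with
  | zero =>
    simp only [tapeAt]
    rw [← hi, Function.update_self]
  | succ n ih =>
    have h1 : i + 1 + (n + 1) = (i + 1 + n) + 1 := by ring
    rw [h1]
    simp only [tapeAt]
    rw [Function.update_of_ne (h (i + 1 + n) (by omega) (by omega)).symm]
    exact ih (fun k hk hk' => h k hk (by omega))

theorem tape_read (hx : ∀ a n, ¬ Bad (seg x a n)) (t : ℕ) : tapeAt x t (ht x t) = (x t).sym := by
  classical
  by_cases hv : ∃ i < t, ht x i = ht x t
  · -- last visit
    obtain ⟨i, hit, hi, hlast⟩ : ∃ i < t, ht x i = ht x t ∧ ∀ k, i < k → k < t → ht x k ≠ ht x t := by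
      let S := (Finset.range t).filter (fun i => ht x i = ht x t)
      have hS : S.Nonempty := by
        obtain ⟨i, hi, hi'⟩ := hv
        exact ⟨i, by simp [S, hi, hi']⟩
      have hmem := S.max'_mem hS
      simp only [S, Finset.mem_filter, Finset.mem_range] at hmem
      refine ⟨S.max' hS, hmem.1, hmem.2, ?_⟩
      intro k hk hkt hke
      have : k ≤ S.max' hS := S.le_max' k (by simp [S, hkt, hke])
      omega
    obtain ⟨n, rfl⟩ : ∃ n, t = i + 1 + n := ⟨t - (i + 1), by omega⟩
    rw [tape_visited x (ht x (i + 1 + n)) i n hi hlast]
    by_contra hne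
    -- the head stays on one side between the two visits
    have hpos : ∀ k < n, 0 < sgn (out (x i)) * (ht x (i + 1 + k) - ht x i) := by
      intro k
      induction k with
      | zero =>
        intro _
        have : ht x (i + 1 + 0) = ht x i + sgn (out (x i)) := rfl
        rw [this]
        have := sgn_sq (out (x i))
        nlinarith
      | succ k ih =>
        intro hk
        have h1 := ih (by omega)
        have h2 : ht x (i + 1 + (k + 1)) = ht x (i + 1 + k) + sgn (out (x (i + 1 + k))) := rfl
        have h3 := hlast (i + 1 + (k + 1)) (by omega) (by omega)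
        rw [← hi] at h3
        rcases sgn_cases (out (x i)) with he | he <;>
          rcases sgn_cases (out (x (i + 1 + k))) with ho | ho <;>
            rw [he] at h1 ⊢ <;> rw [ho] at h2 <;> omega
    apply hx i (n + 2)
    have hseg : seg x i (n + 2) = x i :: (seg x (i + 1) n ++ [x (i + 1 + n)]) := by
      have h1 : seg x (i + 1) (n + 1) = seg x (i + 1) n ++ seg x (i + 1 + n) 1 := seg_append _ _ _ _
      have h2 : seg x i (n + 2) = x i :: seg x (i + 1) (n + 1) := rfl
      rw [h2, h1]
      rfl
    rw [hseg]
    refine Bad.tape _ _ _ ?_ (Ne.symm hne)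
    apply exc_seg
    · intro k hk
      have h1 := hpos k hk
      have h2 : ht x (i + 1) = ht x i + sgn (out (x i)) := rfl
      rw [h2]
      have := sgn_sq (out (x i))
      nlinarith
    · have h2 : ht x (i + 1) = ht x i + sgn (out (x i)) := rfl
      rw [← hi, h2]
      ring
  · have hv' : ∀ k < t, ht x k ≠ ht x t := by
      intro k hk hke
      exact hv ⟨k, hk, hke⟩
    rw [tape_unvisited x _ t hv']
    unfold tape0
    have hex : ∃ s, ht x s = ht x t := ⟨t, rfl⟩
    rw [dif_pos hex]
    have : Nat.find hex = t := by
      rw [Nat.find_eq_iff]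
      exact ⟨rfl, fun k hk => hv' k hk⟩
    rw [this]

/-- The configuration at time `t`. -/
noncomputable def confAt (t : ℕ) : Conf where
  kind := (x t).kind
  dir := (x t).dir
  F := fun k => tapeAt x t (ht x t + sgn (x t).dir * k)
  B := fun k => tapeAt x t (ht x t - sgn (x t).dir * (k + 1))

theorem letter_confAt (hx : ∀ a n, ¬ Bad (seg x a n)) (t : ℕ) : letter (confAt x t) = x t := by
  have h := tape_read x hx t
  unfold letter confAt
  simp only [Nat.cast_zero, mul_zero, add_zero, h]

theorem step_confAt (hx : ∀ a n, ¬ Bad (seg x a n)) (t : ℕ) :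
    step (confAt x t) = confAt x (t + 1) := by
  have hlet := letter_confAt x hx t
  have htrans : (x (t + 1)).kind = nextKind (x t) ∧ (x (t + 1)).dir = out (x t) := by
    by_contra hcon
    exact hx t 2 (Bad.trans _ _ hcon)
  obtain ⟨hkind, hdir⟩ := htrans
  have hht : ht x (t + 1) = ht x t + sgn (out (x t)) := rfl
  unfold step
  rw [hlet]
  by_cases hrev : rev (x t) = true
  · rw [if_pos hrev]
    have hout : out (x t) = !(x t).dir := by
      unfold out
      rw [if_pos hrev]
    apply Conf.ext
    · exact hkind.symm
    · exact (hdir.trans hout).symm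
    · funext k
      change tapeAt x t (ht x t - sgn (x t).dir * (k + 1)) =
        tapeAt x (t + 1) (ht x (t + 1) + sgn (x (t + 1)).dir * k)
      rw [hht, hdir, hout, sgn_not]
      have h1 : ht x t + -sgn (x t).dir + -sgn (x t).dir * k =
          ht x t - sgn (x t).dir * (k + 1) := by ring
      rw [h1]
      simp only [tapeAt]
      rw [Function.update_of_ne]
      rcases sgn_cases (x t).dir with he | he <;> rw [he] <;> omega
    · funext k
      cases k with
      | zero =>
        change write (x t) = tapeAt x (t + 1) (ht x (t + 1) - sgn (x (t + 1)).dir * ((0 : ℕ) + 1))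
        rw [hht, hdir, hout, sgn_not]
        have h1 : ht x t + -sgn (x t).dir - -sgn (x t).dir * (((0 : ℕ) : ℤ) + 1) = ht x t := by
          push_cast
          ring
        rw [h1]
        simp only [tapeAt]
        rw [Function.update_self]
      | succ k =>
        change tapeAt x t (ht x t + sgn (x t).dir * ((k + 1 : ℕ) : ℤ)) =
          tapeAt x (t + 1) (ht x (t + 1) - sgn (x (t + 1)).dir * (((k + 1 : ℕ) : ℤ) + 1))
        rw [hht, hdir, hout, sgn_not]
        have h1 : ht x t + -sgn (x t).dir - -sgn (x t).dir * (((k + 1 : ℕ) : ℤ) + 1) =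
            ht x t + sgn (x t).dir * ((k + 1 : ℕ) : ℤ) := by ring
        rw [h1]
        simp only [tapeAt]
        rw [Function.update_of_ne]
        rcases sgn_cases (x t).dir with he | he <;> rw [he] <;> push_cast <;> omega
  · rw [if_neg hrev]
    have hout : out (x t) = (x t).dir := by
      unfold out
      rw [if_neg hrev]
    apply Conf.ext
    · exact hkind.symm
    · exact (hdir.trans hout).symm
    · funext k
      change tapeAt x t (ht x t + sgn (x t).dir * ((k + 1 : ℕ) : ℤ)) =
        tapeAt x (t + 1) (ht x (t + 1) + sgn (x (t + 1)).dir * k)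
      rw [hht, hdir, hout]
      have h1 : ht x t + sgn (x t).dir + sgn (x t).dir * k =
          ht x t + sgn (x t).dir * ((k + 1 : ℕ) : ℤ) := by
        push_cast
        ring
      rw [h1]
      simp only [tapeAt]
      rw [Function.update_of_ne]
      rcases sgn_cases (x t).dir with he | he <;> rw [he] <;> push_cast <;> omega
    · funext k
      cases k with
      | zero =>
        change write (x t) = tapeAt x (t + 1) (ht x (t + 1) - sgn (x (t + 1)).dir * ((0 : ℕ) + 1))
        rw [hht, hdir, hout]
        have h1 : ht x t + sgn (x t).dir - sgn (x t).dir * (((0 : ℕ) : ℤ) + 1) = ht x t := by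
          push_cast
          ring
        rw [h1]
        simp only [tapeAt]
        rw [Function.update_self]
      | succ k =>
        change tapeAt x t (ht x t - sgn (x t).dir * ((k : ℤ) + 1)) =
          tapeAt x (t + 1) (ht x (t + 1) - sgn (x (t + 1)).dir * (((k + 1 : ℕ) : ℤ) + 1))
        rw [hht, hdir, hout]
        have h1 : ht x t + sgn (x t).dir - sgn (x t).dir * (((k + 1 : ℕ) : ℤ) + 1) =
            ht x t - sgn (x t).dir * ((k : ℤ) + 1) := by
          push_cast
          ring
        rw [h1]
        simp only [tapeAt]
        rw [Function.update_of_ne]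
        rcases sgn_cases (x t).dir with he | he <;> rw [he] <;> omega

theorem exists_conf (hx : ∀ a n, ¬ Bad (seg x a n)) :
    ∃ c : Conf, ∀ t, letter (step^[t] c) = x t := by
  refine ⟨confAt x 0, ?_⟩
  have h : ∀ t, step^[t] (confAt x 0) = confAt x t := by
    intro t
    induction t with
    | zero => rfl
    | succ t ih => rw [Function.iterate_succ_apply', ih, step_confAt x hx]
  intro t
  rw [h, letter_confAt x hx]

end tape

/-! ### Periodic words -/

theorem seg_length (x : ℕ → Letter) (a n : ℕ) : (seg x a n).length = n := by
  induction n generalizing a with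
  | zero => rfl
  | succ n ih => simp [seg, ih]

theorem seg_shift (x : ℕ → Letter) (p : ℕ) (hp : ∀ t, x (t + p) = x t) (a n : ℕ) :
    seg x (a + p) n = seg x a n := by
  induction n generalizing a with
  | zero => rfl
  | succ n ih =>
    have h : a + p + 1 = a + 1 + p := by ring
    simp only [seg]
    rw [h, ih, hp]

theorem seg_congr (x y : ℕ → Letter) (a b n : ℕ) (h : ∀ i < n, x (a + i) = y (b + i)) :
    seg x a n = seg y b n := by
  induction n generalizing a b with
  | zero => rfl
  | succ n ih =>
    simp only [seg]
    have h0 := h 0 (by omega)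
    simp only [add_zero] at h0
    rw [h0, ih (a + 1) (b + 1)]
    intro i hi
    have h1 := h (i + 1) (by omega)
    have h2 : a + 1 + i = a + (i + 1) := by ring
    have h3 : b + 1 + i = b + (i + 1) := by ring
    rw [h2, h3, h1]

theorem seg_getD (d : Letter) (w : List Letter) : seg (fun t => w.getD t d) 0 w.length = w := by
  induction w with
  | nil => rfl
  | cons l w ih =>
    simp only [List.length_cons, seg]
    congr 1
    rw [← ih]
    rw [seg_length]
    apply seg_congr
    intro i _
    rw [ih]
    have : 0 + 1 + i = i + 1 := by ring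
    rw [this, zero_add]
    simp

/-- The periodic infinite word. -/
def perWord (d : Letter) (w : List Letter) : ℕ → Letter := fun t => w.getD (t % w.length) d

theorem perWord_add (d : Letter) (w : List Letter) (t : ℕ) :
    perWord d w (t + w.length) = perWord d w t := by
  unfold perWord
  rw [Nat.add_mod_right]

theorem seg_perWord (d : Letter) (w : List Letter) (k : ℕ) :
    seg (perWord d w) 0 (k * w.length) = (List.replicate k w).flatten := by
  induction k with
  | zero => simp [seg]
  | succ k ih =>
    have h1 : (k + 1) * w.length = w.length + k * w.length := by ring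
    rw [h1, seg_append, List.replicate_succ, List.flatten_cons, ← ih,
      seg_shift _ _ (perWord_add d w)]
    congr 1
    conv_rhs => rw [← seg_getD d w]
    apply seg_congr
    intro i hi
    unfold perWord
    rw [zero_add, Nat.mod_eq_of_lt hi]

theorem seg_infix (x : ℕ → Letter) (a n m : ℕ) (h : a + n ≤ m) : seg x a n <:+: seg x 0 m := by
  obtain ⟨q, rfl⟩ := Nat.exists_eq_add_of_le h
  refine ⟨seg x 0 a, seg x (a + n) q, ?_⟩
  rw [seg_append, seg_append, zero_add, zero_add]

/-- Every periodic word contains an inconsistent factor. -/
theorem periodic_hit (w : List Letter) (hw : w ≠ []) :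
    ∃ n : ℕ, ∃ v ∈ ({v : List Letter | Bad v} : Set (List Letter)),
      v <:+: (List.replicate n w).flatten := by
  by_contra hcon
  have hlen : 1 ≤ w.length := List.length_pos_iff.2 hw
  let d : Letter := ⟨false, false, 0⟩
  have hx : ∀ a n, ¬ Bad (seg (perWord d w) a n) := by
    intro a n hbad
    apply hcon
    refine ⟨a + n, seg (perWord d w) a n, hbad, ?_⟩
    rw [← seg_perWord d w (a + n)]
    exact seg_infix _ _ _ _ (Nat.le_mul_of_pos_right _ hlen)
  obtain ⟨c, hc⟩ := exists_conf _ hx
  apply aperiodic w.length hlen c
  intro t
  rw [hc, hc, perWord_add]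

/-- The negation of the preceding statement: For every finite alphabet and context-free language L of nonempty words: only finitely many words avoid all factors from L iff for each nonempty word w some power of w has a factor in L. -/
theorem result :
    ¬ (∀ (α : Type) [Fintype α] (L : Language α),
      L.IsContextFree →
      (∀ v ∈ L, v ≠ []) →
      ({u : List α | ¬ ∃ v ∈ L, v <:+: u}.Finite ↔
        ∀ w : List α, w ≠ [] →
          ∃ n : ℕ, ∃ v ∈ L, v <:+: (List.replicate n w).flatten)) := by
  intro H
  have h := H Letter {v : List Letter | Bad v} ⟨gram, gram_language⟩ (by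
    intro v hv hnil
    have hv' : Bad v := hv
    rw [hnil] at hv'
    cases hv')
  exact avoid_infinite (h.2 periodic_hit)

end Pool.Agent.S14696
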