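import Pool.Statements.S15060
import Pool.Agent.Helper30.PinInst

set_option autoImplicit false
open Pool Pool.MP_917099_lc

namespace Pool.Agent.S15060

/-- The negation of the preceding statement: For any nonempty list of positive integer periods with smallest period a, if the sum of 1/aᵢ is at most 1 − (a−1)/(a(a+1)), there is a schedule ℤ → indices in which every index i appears in every aᵢ consecutive integer slots. -/
theorem result :
    ¬ (∀ (k : ℕ) (a : Fin (k + 1) → ℕ),
      (∀ i, 0 < a i) →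
      (∀ i, a 0 ≤ a i) →
      (∑ i, (1 : ℝ) / (a i : ℝ)) ≤ 1 - ((a 0 : ℝ) - 1) / ((a 0 : ℝ) * ((a 0 : ℝ) + 1)) →
      ∃ S : ℤ → Fin (k + 1), ∀ i : Fin (k + 1), ∀ m : ℤ,
        ∃ t : ℤ, m ≤ t ∧ t < m + (a i : ℤ) ∧ S t = i) := by
  exact Pool.Agent.Helper30.Pin.not_all

end Pool.Agent.S15060
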