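import Pool.Statements.S15365
import Pool.Agent.Helper63.PH.Asm
import Pool.Agent.Helper63.PH.M_ND
import Pool.Agent.Helper63.PH.M_BL
import Pool.Agent.Helper20.PH.M_NUM
import Pool.Agent.Helper72.PG.M_PER

set_option autoImplicit false
open Pool Pool.MP_cde131_lc

namespace Pool.Agent.S15365

/-- There is p with: for each k and all large n, some on-line algorithm properly colors every k-colorable perfect graph on n vertices, in any arrival order, using fewer than (log n)^p(k) colors. -/
theorem result :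
    ∃ p : ℕ → ℕ, ∀ k : ℕ, ∃ N : ℕ, ∀ n : ℕ, N ≤ n →
      ∃ A : (m : ℕ) → SimpleGraph (Fin m) → ℕ,
        ∀ G : SimpleGraph (Fin n),
          G.Colorable k →
          (∀ S : Set (Fin n), ∃ m : ℕ, (G.induce S).Colorable m ∧
              ∃ s : Finset (Fin n), (↑s : Set (Fin n)) ⊆ S ∧ G.IsNClique m s) →
          (∀ i j : Fin n, G.Adj i j →
              A (i.val + 1) (SimpleGraph.comap (Fin.castLE (Nat.succ_le_of_lt i.isLt)) G) ≠
              A (j.val + 1) (SimpleGraph.comap (Fin.castLE (Nat.succ_le_of_lt j.isLt)) G)) ∧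
          (((Finset.univ.image (fun i : Fin n =>
              A (i.val + 1) (SimpleGraph.comap (Fin.castLE (Nat.succ_le_of_lt i.isLt)) G))).card : ℝ)
            < (Real.log (n : ℝ)) ^ (p k)) := by
  obtain ⟨p, hp⟩ := Pool.Agent.Helper63.PH.main Pool.Agent.Helper63.PH.hND
    Pool.Agent.Helper63.PH.hBL Pool.Agent.Helper20.PH.hNUM
  refine ⟨p, fun k => ?_⟩
  obtain ⟨N, hN⟩ := hp k
  refine ⟨N, fun n hn => ?_⟩
  obtain ⟨A, hA⟩ := hN n hn
  exact ⟨A, fun G hG h => hA G hG (Pool.Agent.Helper72.PG.hPER G h)⟩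

end Pool.Agent.S15365
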