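import Pool.Statements.S15526
import Pool.Agent.Helper2.LD.All

set_option autoImplicit false
open Pool Pool.MP_e47d5b_lc

namespace Pool.Agent.S15526

/-- The negation of the preceding statement: Some computable function on edge-list codes returns, for every finite tree T, the least k such that every finite graph k-round Ehrenfeucht–Fraïssé equivalent to T is isomorphic to T. This least k is the logical depth D(T). -/
theorem result :
    ¬ (∃ f : ℕ → List (ℕ × ℕ) → ℕ, Computable₂ f ∧
      ∀ (n : ℕ) (T : SimpleGraph (Fin n)) (l : List (ℕ × ℕ)), T.IsTree →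
        (∀ i j : Fin n, T.Adj i j ↔ ((i : ℕ), (j : ℕ)) ∈ l ∨ ((j : ℕ), (i : ℕ)) ∈ l) →
        ((∀ (m : ℕ) (H : SimpleGraph (Fin m)),
            (∃ R : (j : ℕ) → (Fin j → Fin n) → (Fin j → Fin m) → Prop,
              R 0 Fin.elim0 Fin.elim0 ∧
              (∀ j ≤ f n l, ∀ (a : Fin j → Fin n) (b : Fin j → Fin m), R j a b →
                ∀ i i' : Fin j, (a i = a i' ↔ b i = b i') ∧
                  (T.Adj (a i) (a i') ↔ H.Adj (b i) (b i'))) ∧
              (∀ j < f n l, ∀ (a : Fin j → Fin n) (b : Fin j → Fin m), R j a b →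
                (∀ v : Fin n, ∃ w : Fin m,
                  R (j + 1) (Fin.snoc (α := fun _ => Fin n) a v)
                    (Fin.snoc (α := fun _ => Fin m) b w)) ∧
                (∀ w : Fin m, ∃ v : Fin n,
                  R (j + 1) (Fin.snoc (α := fun _ => Fin n) a v)
                    (Fin.snoc (α := fun _ => Fin m) b w)))) →
            Nonempty (T ≃g H)) ∧
         ∀ k < f n l, ¬ (∀ (m : ℕ) (H : SimpleGraph (Fin m)),
            (∃ R : (j : ℕ) → (Fin j → Fin n) → (Fin j → Fin m) → Prop,
              R 0 Fin.elim0 Fin.elim0 ∧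
              (∀ j ≤ k, ∀ (a : Fin j → Fin n) (b : Fin j → Fin m), R j a b →
                ∀ i i' : Fin j, (a i = a i' ↔ b i = b i') ∧
                  (T.Adj (a i) (a i') ↔ H.Adj (b i) (b i'))) ∧
              (∀ j < k, ∀ (a : Fin j → Fin n) (b : Fin j → Fin m), R j a b →
                (∀ v : Fin n, ∃ w : Fin m,
                  R (j + 1) (Fin.snoc (α := fun _ => Fin n) a v)
                    (Fin.snoc (α := fun _ => Fin m) b w)) ∧
                (∀ w : Fin m, ∃ v : Fin n,
                  R (j + 1) (Fin.snoc (α := fun _ => Fin n) a v)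
                    (Fin.snoc (α := fun _ => Fin m) b w)))) →
            Nonempty (T ≃g H)))) := by
  exact Pool.Agent.Helper2.LD.main_all

end Pool.Agent.S15526
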