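import Pool.Statements.S15538

set_option autoImplicit false
open FirstOrder FirstOrder.Language
open Pool Pool.MP_e6168a_lc

namespace Pool.Agent.S15538

/-- Relation symbols: five symbols of arity four. The symbol `mk none` is called `S`
and the symbols `mk (some i)` are called `R_i`. -/
inductive Rel : ℕ → Type
  | mk : Option (Fin 4) → Rel 4

/-- The relational signature with five quaternary symbols. -/
def Lg : FirstOrder.Language.{0, 0} := ⟨fun _ => Empty, Rel⟩

/-- A structure given by its five relations. -/
@[reducible] def mkStr {M : Type} (f : Option (Fin 4) → (Fin 4 → M) → Prop) : Lg.Structure M where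
  funMap := fun x => x.elim
  RelMap := fun {_} r => match r with
    | Rel.mk i => f i

/-- The five relations of a structure. -/
def rels {M : Type} (S : Lg.Structure M) : Option (Fin 4) → (Fin 4 → M) → Prop :=
  fun i t => S.RelMap (Rel.mk i) t

/-- Structures are the same as families of five quaternary relations. -/
def strEquiv (M : Type) : Lg.Structure M ≃ (Option (Fin 4) → (Fin 4 → M) → Prop) where
  toFun := rels
  invFun := mkStr
  left_inv := by
    intro S
    refine Structure.ext ?_ ?_
    · funext n x
      exact x.elim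
    · funext n r
      cases r
      rfl
  right_inv := by
    intro f
    rfl

/-- Index of forbidden structures. -/
abbrev Idx := Fin 4 × Option (Fin 4)

/-- The second forbidden tuple. -/
def secondTuple (o : Option (Fin 4)) : Fin 4 → Fin 8 :=
  match o with
  | none => ![4, 5, 6, 7]
  | some _ => ![1, 5, 6, 7]

/-- The forbidden structures: `R_i (0,1,2,3)` together with `S (4,5,6,7)`, or together with
`R_j (1,5,6,7)`. -/
@[reducible] def forb (p : Idx) : Lg.Structure (Fin 8) :=
  mkStr (fun k v => (k = some p.1 ∧ v = ![0, 1, 2, 3]) ∨ (k = p.2 ∧ v = secondTuple p.2))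

/-- The property of avoiding all forbidden structures, in terms of the five relations. -/
def Valid {M : Type} (f : Option (Fin 4) → (Fin 4 → M) → Prop) : Prop :=
  (∀ i s t, f (some i) s → ¬ f none t) ∧
    (∀ i j s t, f (some i) s → f (some j) t → s 1 ≠ t 0)

theorem isEmpty_hom_iff {M : Type} (S : Lg.Structure M) :
    (∀ p : Idx, IsEmpty (@FirstOrder.Language.Hom Lg (Fin 8) M (forb p) S)) ↔
      Valid (rels S) := by
  constructor
  · intro h
    refine ⟨?_, ?_⟩
    · intro i s t hs ht
      refine (h (i, none)).false ?_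
      refine @FirstOrder.Language.Hom.mk Lg (Fin 8) M (forb (i, none)) S
        (![s 0, s 1, s 2, s 3, t 0, t 1, t 2, t 3]) ?_ ?_
      · intro n x
        exact x.elim
      · intro n r v hv
        cases r with
        | mk k =>
          rcases hv with ⟨hk, hv⟩ | ⟨hk, hv⟩
          · simp only at hk
            subst hk
            subst hv
            have : (![s 0, s 1, s 2, s 3, t 0, t 1, t 2, t 3] ∘ (![0, 1, 2, 3] : Fin 4 → Fin 8))
                = s := by
              funext a
              fin_cases a <;> rfl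
            rw [this]
            exact hs
          · simp only at hk
            subst hk
            subst hv
            have : (![s 0, s 1, s 2, s 3, t 0, t 1, t 2, t 3] ∘ (secondTuple none))
                = t := by
              funext a
              fin_cases a <;> rfl
            simp only
            rw [this]
            exact ht
    · intro i j s t hs ht hst
      refine (h (i, some j)).false ?_
      refine @FirstOrder.Language.Hom.mk Lg (Fin 8) M (forb (i, some j)) S
        (![s 0, s 1, s 2, s 3, t 0, t 1, t 2, t 3]) ?_ ?_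
      · intro n x
        exact x.elim
      · intro n r v hv
        cases r with
        | mk k =>
          rcases hv with ⟨hk, hv⟩ | ⟨hk, hv⟩
          · simp only at hk
            subst hk
            subst hv
            have : (![s 0, s 1, s 2, s 3, t 0, t 1, t 2, t 3] ∘ (![0, 1, 2, 3] : Fin 4 → Fin 8))
                = s := by
              funext a
              fin_cases a <;> rfl
            rw [this]
            exact hs
          · simp only at hk
            subst hk
            subst hv
            have : (![s 0, s 1, s 2, s 3, t 0, t 1, t 2, t 3] ∘ (secondTuple (some j)))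
                = t := by
              funext a
              fin_cases a
              · exact hst
              · rfl
              · rfl
              · rfl
            simp only
            rw [this]
            exact ht
  · rintro ⟨h1, h2⟩ ⟨i, o⟩
    refine ⟨fun φ => ?_⟩
    have hmap := @FirstOrder.Language.Hom.map_rel' Lg (Fin 8) M (forb (i, o)) S φ
    have hR := hmap (Rel.mk (some i)) ![0, 1, 2, 3] (Or.inl ⟨rfl, rfl⟩)
    have hO := hmap (Rel.mk o) (secondTuple o) (Or.inr ⟨rfl, rfl⟩)
    cases o with
    | none => exact h1 i _ _ hR hO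
    | some j => exact h2 i j _ _ hR hO rfl

/-- The sentence saying that `S` is nonempty. -/
def phi : Lg.Sentence :=
  (Relations.boundedFormula (L := Lg) (α := Empty) (n := 4) (Rel.mk none : Lg.Relations 4)
    (fun i => Term.var (Sum.inr i))).exs

theorem phi_iff {M : Type} (S : Lg.Structure M) :
    @Sentence.Realize Lg M S phi ↔ ∃ t, rels S none t := by
  unfold Sentence.Realize phi
  rw [BoundedFormula.realize_exs]
  exact exists_congr (fun t => Iff.rfl)

/-- Families of five quaternary relations on `Fin n`. -/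
abbrev Fam (n : ℕ) := Option (Fin 4) → (Fin 4 → Fin n) → Prop

/-- Number of valid families with nonempty `S`. -/
noncomputable def cntA (n : ℕ) : ℕ := Nat.card {f : Fam n // Valid f ∧ ∃ t, f none t}
/-- Number of valid families. -/
noncomputable def cntB (n : ℕ) : ℕ := Nat.card {f : Fam n // Valid f}
/-- Number of valid families with empty `S`. -/
noncomputable def cntC (n : ℕ) : ℕ := Nat.card {f : Fam n // Valid f ∧ ¬ ∃ t, f none t}

theorem cntB_eq (n : ℕ) : cntB n = cntA n + cntC n := by
  classical
  unfold cntA cntB cntC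
  rw [← Nat.card_sum]
  refine Nat.card_congr ?_
  refine (Equiv.sumCompl (fun f : {f : Fam n // Valid f} => ∃ t, f.1 none t)).symm.trans ?_
  exact Equiv.sumCongr (Equiv.subtypeSubtypeEquivSubtypeInter _ (fun f : Fam n => ∃ t, f none t))
    (Equiv.subtypeSubtypeEquivSubtypeInter _ (fun f : Fam n => ¬ ∃ t, f none t))

theorem card_rel (n : ℕ) : Nat.card ((Fin 4 → Fin n) → Prop) = 2 ^ (n ^ 4) := by
  classical
  rw [Nat.card_eq_fintype_card]
  simp

theorem cntA_le (n : ℕ) : cntA n ≤ 2 ^ (n ^ 4) := by
  rw [← card_rel]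
  refine Nat.card_le_card_of_injective (fun f => f.1 none) ?_
  rintro ⟨f, hf, t, ht⟩ ⟨g, hg, u, hu⟩ h
  simp only at h
  apply Subtype.ext
  funext i s
  cases i with
  | none => exact congrFun h s
  | some i =>
    apply propext
    constructor
    · intro h'
      exact absurd ht (hf.1 i s t h')
    · intro h'
      exact absurd hu (hg.1 i s u h')

theorem le_cntA (n : ℕ) : 2 ^ (n ^ 4) ≤ cntA n + 1 := by
  classical
  rw [← card_rel]
  unfold cntA
  rw [← Finite.card_option]
  refine Nat.card_le_card_of_injective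
    (fun g : (Fin 4 → Fin n) → Prop =>
      if h : ∃ t, g t then some (⟨fun i t => i = none ∧ g t, ⟨by simp, by simp⟩,
        h.imp (fun t ht => ⟨rfl, ht⟩)⟩ : {f : Fam n // Valid f ∧ ∃ t, f none t}) else none) ?_
  intro g g' h
  by_cases h1 : ∃ t, g t
  · by_cases h2 : ∃ t, g' t
    · simp only [h1, h2, dite_true, Option.some.injEq, Subtype.mk.injEq] at h
      funext t
      have := congrFun (congrFun h none) t
      simpa using this
    · simp only [h1, h2, dite_true, dite_false] at h
      exact absurd h (by simp)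
  · by_cases h2 : ∃ t, g' t
    · simp only [h1, h2, dite_true, dite_false] at h
      exact absurd h (by simp)
    · funext t
      apply propext
      constructor
      · intro ht
        exact absurd ⟨t, ht⟩ h1
      · intro ht
        exact absurd ⟨t, ht⟩ h2

/-- Tuples with first entry in `A` and second entry outside `A`. -/
abbrev Tup (n : ℕ) (A : Finset (Fin n)) := {t : Fin 4 → Fin n // t 0 ∈ A ∧ t 1 ∉ A}

theorem card_tup (n : ℕ) (A : Finset (Fin n)) :
    Nat.card (Tup n A) = A.card * (n - A.card) * n ^ 2 := by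
  classical
  have e : Tup n A ≃ ({x // x ∈ A} × {x // x ∉ A}) × (Fin n × Fin n) :=
    { toFun := fun t => ((⟨t.1 0, t.2.1⟩, ⟨t.1 1, t.2.2⟩), (t.1 2, t.1 3))
      invFun := fun x => ⟨![x.1.1.1, x.1.2.1, x.2.1, x.2.2], by
        refine ⟨?_, ?_⟩
        · exact x.1.1.2
        · exact x.1.2.2⟩
      left_inv := by
        rintro ⟨t, ht⟩
        apply Subtype.ext
        funext i
        fin_cases i <;> rfl
      right_inv := by
        rintro ⟨⟨⟨a, ha⟩, ⟨b, hb⟩⟩, ⟨c, d⟩⟩
        rfl }
  rw [Nat.card_congr e, Nat.card_prod, Nat.card_prod, Nat.card_prod]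
  have h1 : Nat.card {x // x ∈ A} = A.card := by simp
  have h2 : Nat.card {x // x ∉ A} = n - A.card := by
    rw [Nat.card_eq_fintype_card, Fintype.card_subtype_compl]
    simp
  rw [h1, h2]
  simp only [Nat.card_eq_fintype_card, Fintype.card_fin]
  ring

theorem card_relA (n : ℕ) (A : Finset (Fin n)) :
    Nat.card (Fin 4 → Tup n A → Prop) = 2 ^ (4 * (A.card * (n - A.card)) * n ^ 2) := by
  classical
  rw [Nat.card_fun, Nat.card_fun, card_tup]
  simp only [Nat.card_eq_fintype_card, Fintype.card_prop, Fintype.card_fin]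
  rw [← pow_mul]
  congr 1
  ring

theorem le_cntC (n : ℕ) (A : Finset (Fin n)) :
    2 ^ (4 * (A.card * (n - A.card)) * n ^ 2) ≤ cntC n := by
  classical
  rw [← card_relA]
  refine Nat.card_le_card_of_injective
    (fun g : Fin 4 → Tup n A → Prop =>
      (⟨fun o t => match o with
          | none => False
          | some i => ∃ h : t 0 ∈ A ∧ t 1 ∉ A, g i ⟨t, h⟩, ⟨?_, ?_⟩, ?_⟩ :
        {f : Fam n // Valid f ∧ ¬ ∃ t, f none t})) ?_
  · intro i s t _ h
    exact h
  · rintro i j s t ⟨hs, _⟩ ⟨ht, _⟩ hst
    apply hs.2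
    rw [hst]
    exact ht.1
  · rintro ⟨t, ht⟩
    exact ht
  · intro g g' h
    simp only [Subtype.mk.injEq] at h
    funext i t
    have := congrFun (congrFun h (some i)) t.1
    simp only at this
    apply propext
    constructor
    · intro h1
      have h2 : ∃ h : t.1 0 ∈ A ∧ t.1 1 ∉ A, g i ⟨t.1, h⟩ := ⟨t.2, h1⟩
      rw [this] at h2
      exact h2.2
    · intro h1
      have h2 : ∃ h : t.1 0 ∈ A ∧ t.1 1 ∉ A, g' i ⟨t.1, h⟩ := ⟨t.2, h1⟩
      rw [← this] at h2
      exact h2.2

theorem cntC_le (n m : ℕ) (hm : ∀ A : Finset (Fin n), 4 * (A.card * (n - A.card)) * n ^ 2 ≤ m) :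
    cntC n ≤ 2 ^ n * 2 ^ m := by
  classical
  have h1 : cntC n ≤ Nat.card (Σ A : Finset (Fin n), (Fin 4 → Tup n A → Prop)) := by
    refine Nat.card_le_card_of_injective
      (fun f : {f : Fam n // Valid f ∧ ¬ ∃ t, f none t} =>
        (⟨Finset.univ.filter (fun x => ∃ i t, f.1 (some i) t ∧ t 0 = x),
          fun i t => f.1 (some i) t.1⟩ : Σ A : Finset (Fin n), (Fin 4 → Tup n A → Prop))) ?_
    rintro ⟨f, hf, hf'⟩ ⟨g, hg, hg'⟩ h
    simp only [Sigma.mk.injEq] at h
    obtain ⟨hA, hR⟩ := h
    apply Subtype.ext
    funext o t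
    cases o with
    | none =>
      apply propext
      constructor
      · intro ht
        exact absurd ⟨t, ht⟩ hf'
      · intro ht
        exact absurd ⟨t, ht⟩ hg'
    | some i =>
      -- general statement
      have key : ∀ (A B : Finset (Fin n)) (F : Fin 4 → Tup n A → Prop) (G : Fin 4 → Tup n B → Prop),
          A = B → HEq F G → ∀ (hA : t 0 ∈ A ∧ t 1 ∉ A) (hB : t 0 ∈ B ∧ t 1 ∉ B),
            F i ⟨t, hA⟩ = G i ⟨t, hB⟩ := by
        intro A B F G hAB
        subst hAB
        intro hFG hA hB
        rw [eq_of_heq hFG]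
      have memf : f (some i) t →
          t 0 ∈ Finset.univ.filter (fun x => ∃ i t, f (some i) t ∧ t 0 = x) ∧
          t 1 ∉ Finset.univ.filter (fun x => ∃ i t, f (some i) t ∧ t 0 = x) := by
        intro h
        refine ⟨by simpa using ⟨i, t, h, rfl⟩, ?_⟩
        simp only [Finset.mem_filter, Finset.mem_univ, true_and, not_exists, not_and]
        intro j s hs hst
        exact hf.2 i j t s h hs hst.symm
      have memg : g (some i) t →
          t 0 ∈ Finset.univ.filter (fun x => ∃ i t, g (some i) t ∧ t 0 = x) ∧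
          t 1 ∉ Finset.univ.filter (fun x => ∃ i t, g (some i) t ∧ t 0 = x) := by
        intro h
        refine ⟨by simpa using ⟨i, t, h, rfl⟩, ?_⟩
        simp only [Finset.mem_filter, Finset.mem_univ, true_and, not_exists, not_and]
        intro j s hs hst
        exact hg.2 i j t s h hs hst.symm
      apply propext
      constructor
      · intro h
        have m1 := memf h
        have m2 := m1
        rw [hA] at m2
        exact Eq.mp (key _ _ _ _ hA hR m1 m2) h
      · intro h
        have m1 := memg h
        have m2 := m1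
        rw [← hA] at m2
        exact Eq.mp (key _ _ _ _ hA hR m2 m1).symm h
  refine h1.trans ?_
  rw [Nat.card_sigma]
  calc ∑ A : Finset (Fin n), Nat.card (Fin 4 → Tup n A → Prop)
      ≤ ∑ A : Finset (Fin n), 2 ^ m := by
        refine Finset.sum_le_sum (fun A _ => ?_)
        rw [card_relA]
        exact Nat.pow_le_pow_right (by norm_num) (hm A)
    _ = 2 ^ n * 2 ^ m := by
        simp

theorem cntC_even (m : ℕ) : 2 ^ ((2 * m) ^ 4) ≤ cntC (2 * m) := by
  obtain ⟨A, _, hA⟩ := Finset.exists_subset_card_eq (s := (Finset.univ : Finset (Fin (2 * m))))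
    (n := m) (by simp; omega)
  have h := le_cntC (2 * m) A
  rw [hA] at h
  refine le_trans (le_of_eq ?_) h
  congr 1
  have : 2 * m - m = m := by omega
  rw [this]
  ring

theorem cntC_odd (m : ℕ) :
    cntC (2 * m + 1) ≤ 2 ^ (2 * m + 1) * 2 ^ (((2 * m + 1) ^ 2 - 1) * (2 * m + 1) ^ 2) := by
  refine cntC_le _ _ ?_
  intro A
  have hA : A.card ≤ 2 * m + 1 := by
    have := Finset.card_le_univ A
    simpa using this
  refine Nat.mul_le_mul_right _ ?_
  obtain ⟨b, hb⟩ := Nat.exists_eq_add_of_le hA
  generalize A.card = a at *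
  have h1 : 2 * m + 1 - a = b := by omega
  rw [h1]
  have h2 : (a : ℤ) - b ≠ 0 := by omega
  have h3 : 1 ≤ ((a : ℤ) - b) ^ 2 := by
    have := Int.one_le_abs h2
    nlinarith [sq_abs ((a : ℤ) - b)]
  have h4 : 4 * (a * b) + 1 ≤ (2 * m + 1) ^ 2 := by
    zify
    have h5 : (2 * (m : ℤ) + 1) = a + b := by exact_mod_cast hb
    rw [h5]
    nlinarith
  omega


/-- Enumeration of the forbidden structures. -/
noncomputable def idxEquiv : Fin 20 ≃ Idx :=
  (Fintype.equivFinOfCardEq (by simp [Idx])).symm

theorem card_numer (n : ℕ) :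
    Nat.card {M : Lg.Structure (Fin n) //
      (∀ i : Fin 20, IsEmpty (@FirstOrder.Language.Hom Lg (Fin 8) (Fin n) (forb (idxEquiv i)) M)) ∧
        Fin n ⊨ phi} = cntA n := by
  unfold cntA
  refine Nat.card_congr (Equiv.subtypeEquiv (strEquiv (Fin n)) ?_)
  intro M
  refine and_congr ?_ (phi_iff M)
  refine Iff.trans ?_ (isEmpty_hom_iff M)
  constructor
  · intro h p
    have := h (idxEquiv.symm p)
    rwa [Equiv.apply_symm_apply] at this
  · intro h i
    exact h _

theorem card_denom (n : ℕ) :
    Nat.card {M : Lg.Structure (Fin n) //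
      ∀ i : Fin 20, IsEmpty (@FirstOrder.Language.Hom Lg (Fin 8) (Fin n) (forb (idxEquiv i)) M)}
        = cntB n := by
  unfold cntB
  refine Nat.card_congr (Equiv.subtypeEquiv (strEquiv (Fin n)) ?_)
  intro M
  refine Iff.trans ?_ (isEmpty_hom_iff M)
  constructor
  · intro h p
    have := h (idxEquiv.symm p)
    rwa [Equiv.apply_symm_apply] at this
  · intro h i
    exact h _

theorem even_bound (m : ℕ) : (cntA (2 * m) : ℝ) / (cntB (2 * m) : ℝ) ≤ 1 / 2 := by
  have h1 : cntA (2 * m) ≤ cntC (2 * m) := (cntA_le _).trans (cntC_even m)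
  have h2 : 2 * cntA (2 * m) ≤ cntB (2 * m) := by
    rw [cntB_eq]
    omega
  rcases Nat.eq_zero_or_pos (cntB (2 * m)) with h0 | h0
  · rw [h0]
    simp
  · rw [div_le_div_iff₀ (by exact_mod_cast h0) (by norm_num)]
    have : (2 : ℝ) * cntA (2 * m) ≤ cntB (2 * m) := by exact_mod_cast h2
    linarith

theorem odd_bound (m : ℕ) :
    3 / 4 ≤ (cntA (2 * (m + 1) + 1) : ℝ) / (cntB (2 * (m + 1) + 1) : ℝ) := by
  set n := 2 * (m + 1) + 1 with hn
  have hC := cntC_odd (m + 1)
  have hA := le_cntA n
  rw [← hn] at hC
  have hn3 : 3 ≤ n := by omega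
  -- exponent comparison
  have hexp : n + (n ^ 2 - 1) * n ^ 2 + 3 ≤ n ^ 4 := by
    have h1 : (n ^ 2 - 1) * n ^ 2 + n ^ 2 = n ^ 4 := by
      have : 1 ≤ n ^ 2 := Nat.one_le_pow _ _ (by omega)
      obtain ⟨q, hq⟩ := Nat.exists_eq_add_of_le this
      have h4 : n ^ 4 = n ^ 2 * n ^ 2 := by ring
      rw [h4, hq]
      have : 1 + q - 1 = q := by omega
      rw [this]
      ring
    have h2 : n + 3 ≤ n ^ 2 := by nlinarith
    omega
  have hC2 : cntC n * 8 ≤ 2 ^ (n ^ 4) := by
    calc cntC n * 8 ≤ (2 ^ n * 2 ^ ((n ^ 2 - 1) * n ^ 2)) * 2 ^ 3 := by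
          have : (2 : ℕ) ^ 3 = 8 := by norm_num
          rw [this]
          exact Nat.mul_le_mul_right _ hC
      _ = 2 ^ (n + (n ^ 2 - 1) * n ^ 2 + 3) := by
          rw [pow_add _ (n + (n ^ 2 - 1) * n ^ 2) 3, pow_add _ n]
      _ ≤ 2 ^ (n ^ 4) := Nat.pow_le_pow_right (by norm_num) hexp
  have hbig : 8 ≤ 2 ^ (n ^ 4) := by
    calc 8 = 2 ^ 3 := by norm_num
      _ ≤ 2 ^ (n ^ 4) := Nat.pow_le_pow_right (by norm_num) (by omega)
  have key : 3 * cntB n ≤ 4 * cntA n := by
    rw [cntB_eq]
    omega
  have hBpos : 0 < cntB n := by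
    rw [cntB_eq]
    omega
  rw [div_le_div_iff₀ (by norm_num) (by exact_mod_cast hBpos)]
  have : (3 : ℝ) * cntB n ≤ 4 * cntA n := by exact_mod_cast key
  linarith

/-- The negation of the preceding statement: For every finite relational signature, finite forbidden family and first-order sentence φ: among labeled structures on n points admitting no homomorphism from any forbidden structure, the fraction satisfying φ converges as n grows. -/
theorem result :
    ¬ (∀ (L : FirstOrder.Language.{0, 0}), (∀ l, IsEmpty (L.Functions l)) →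
      Finite (Σ l, L.Relations l) →
      ∀ (k : ℕ) (m : Fin k → ℕ) (S : (i : Fin k) → L.Structure (Fin (m i))) (φ : L.Sentence),
        ∃ c : ℝ, Filter.Tendsto
          (fun n : ℕ =>
            (Nat.card {M : L.Structure (Fin n) //
                (∀ i, IsEmpty (@FirstOrder.Language.Hom L (Fin (m i)) (Fin n) (S i) M)) ∧
                  Fin n ⊨ φ} : ℝ) /
            (Nat.card {M : L.Structure (Fin n) //
                ∀ i, IsEmpty (@FirstOrder.Language.Hom L (Fin (m i)) (Fin n) (S i) M)} : ℝ))
          Filter.atTop (nhds c)) := by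
  intro H
  have hfun : ∀ l, IsEmpty (Lg.Functions l) := fun l => ⟨fun x => x.elim⟩
  have hfin : Finite (Σ l, Lg.Relations l) := by
    refine Finite.of_surjective
      (fun i : Option (Fin 4) => (⟨4, Rel.mk i⟩ : Σ l, Lg.Relations l)) ?_
    rintro ⟨l, r⟩
    cases r with
    | mk i => exact ⟨i, rfl⟩
  obtain ⟨c, hc⟩ := H Lg hfun hfin 20 (fun _ => 8) (fun i => forb (idxEquiv i)) phi
  have hc' : Filter.Tendsto (fun n : ℕ => (cntA n : ℝ) / (cntB n : ℝ)) Filter.atTop (nhds c) := by
    refine hc.congr (fun n => ?_)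
    rw [← card_numer, ← card_denom]
  have he : Filter.Tendsto (fun m : ℕ => 2 * m) Filter.atTop Filter.atTop :=
    Filter.tendsto_atTop_mono (fun m => by simp only [id]; omega) Filter.tendsto_id
  have ho : Filter.Tendsto (fun m : ℕ => 2 * (m + 1) + 1) Filter.atTop Filter.atTop :=
    Filter.tendsto_atTop_mono (fun m => by simp only [id]; omega) Filter.tendsto_id
  have h1 : c ≤ 1 / 2 := le_of_tendsto' (hc'.comp he) even_bound
  have h2 : 3 / 4 ≤ c := ge_of_tendsto' (hc'.comp ho) odd_bound
  linarith

end Pool.Agent.S15538
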