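import Pool.Statements.S15955
import Pool.Agent.Helper25.KW.Fin3
import Pool.Agent.Helper55.CE.CB_1_m1
import Pool.Agent.Helper55.CE.CB_m1_1

set_option autoImplicit false
open Pool Pool.MP_0a4b47_nt

namespace Pool.Agent.S15955

/-- For odd primes p<q<r, if every coefficient of the cyclotomic polynomial of order pqr has absolute value at most 1, then q is congruent to 1 or -1 mod p, or r is congruent to 1 or -1 mod pq. -/
theorem result :
    ∀ p q r : ℕ, p.Prime → q.Prime → r.Prime → Odd p → Odd q → Odd r →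
      p < q → q < r →
      (∀ k : ℕ, |(Polynomial.cyclotomic (p * q * r) ℤ).coeff k| ≤ 1) →
      (Int.ModEq (p : ℤ) (q : ℤ) 1 ∨ Int.ModEq (p : ℤ) (q : ℤ) (-1)) ∨
      (Int.ModEq ((p * q : ℕ) : ℤ) (r : ℤ) 1 ∨ Int.ModEq ((p * q : ℕ) : ℤ) (r : ℤ) (-1)) :=
  Helper25.KW.main_of3 Helper55.CD.cb_1_m1.x Helper55.CD.cb_m1_1.x

end Pool.Agent.S15955
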