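import Pool.Statements.S17475
import Pool.Agent.Helper2.Final

set_option autoImplicit false
open Pool Pool.MP_773b62_nt

namespace Pool.Agent.S17475

/-- For every ε>0 there are arbitrarily large composite n such that the number of residues a mod n with a^(n-1) ≡ 1 mod n exceeds (1-ε)n, i.e. the limsup over composites of F(n)/n equals 1. -/
theorem result :
    ∀ ε : ℝ, 0 < ε → ∀ N : ℕ, ∃ n : ℕ, N < n ∧ 1 < n ∧ ¬ Nat.Prime n ∧
      (1 - ε) * (n : ℝ) <
        (((Finset.range n).filter (fun a => a ^ (n - 1) ≡ 1 [MOD n])).card : ℝ) := by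
  intro ε hε N
  obtain ⟨m₀, hm₀⟩ := exists_nat_gt (1 / ε)
  set m : ℕ := max (max m₀ N) 100000 with hm
  have h1 : m₀ ≤ m := (le_max_left _ _).trans (le_max_left _ _)
  have h2 : N ≤ m := (le_max_right _ _).trans (le_max_left _ _)
  have h3 : 100000 ≤ m := le_max_right _ _
  obtain ⟨n, hn1, hn2, hn3⟩ := Pool.Agent.Helper2.many_liars m h3
  refine ⟨n, by omega, by omega, hn2, lt_of_lt_of_le ?_ hn3⟩
  have hnpos : (0 : ℝ) < n := by exact_mod_cast (by omega : 0 < n)
  have hmpos : (0 : ℝ) < m := by exact_mod_cast (by omega : 0 < m)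
  have h4 : 1 / (m : ℝ) < ε := by
    rw [div_lt_iff₀ hmpos]
    have h5 : 1 / ε < (m : ℝ) := lt_of_lt_of_le hm₀ (by exact_mod_cast h1)
    rw [div_lt_iff₀ hε] at h5
    linarith
  rw [mul_comm (n : ℝ)]
  exact mul_lt_mul_of_pos_right (by linarith) hnpos

end Pool.Agent.S17475
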