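import Pool.Statements.S19135
import Pool.Agent.Helper85.RCLieb

set_option autoImplicit false
open Classical
open Pool Pool.MP_0b6541_pr

namespace Pool.Agent.S19135

open Pool.Agent.Helper85.RC in
/-- Separated form: Lieb inequality, then monotonicity in the edge set. -/
theorem simon {V : Type} [Fintype V] {p q : ℝ} (hp : 0 ≤ p) (hp1 : p ≤ 1) (hq : 1 ≤ q)
    (hq2 : q ≤ 2) (G : SimpleGraph V) (E : Finset (Sym2 V)) (hE : ∀ e, e ∈ E ↔ e ∈ G.edgeSet)
    (x z : V) (W : Finset V) (hxW : x ∉ W)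
    (hsep : ∀ w : G.Walk x z, ∃ y ∈ W, y ∈ w.support) :
    ex p q E (ind x z) ≤ ∑ y ∈ W, ex p q E (ind x y) * ex p q E (ind y z) := by
  set U : Set V := {v | ∃ w : G.Walk x v, ∀ y ∈ w.support, y ∉ W} with hU
  have hzU : z ∉ U := by
    rintro ⟨w, hw⟩
    obtain ⟨y, hy, hyw⟩ := hsep w
    exact hw y hyw hy
  have hxU : x ∈ U := ⟨SimpleGraph.Walk.nil, by
    intro y hy
    rw [SimpleGraph.Walk.support_nil, List.mem_singleton] at hy
    rw [hy]; exact hxW⟩
  set F : Finset (Sym2 V) := E.filter (fun e => ∃ v ∈ e, v ∈ U) with hF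
  set K : Finset (Sym2 V) := E.filter (fun e => ¬ ∃ v ∈ e, v ∈ U) with hKdef
  have hunion : F ∪ K = E := Finset.filter_union_filter_not_eq _ _
  have hdisj : Disjoint F K := Finset.disjoint_filter_filter_not _ _ _
  have hK : ∀ e ∈ K, ∀ v ∈ e, v ∉ U := by
    intro e he v hv hvU
    exact (Finset.mem_filter.mp he).2 ⟨v, hv, hvU⟩
  have hFW : ∀ e ∈ F, ∀ v ∈ e, v ∈ U ∨ v ∈ W := by
    intro e he v hv
    obtain ⟨heE, u, hue, huU⟩ := Finset.mem_filter.mp he
    by_cases huv : u = v
    · exact Or.inl (huv ▸ huU)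
    · have hadj : G.Adj u v := by
        have : e = s(u, v) := ((Sym2.mem_and_mem_iff huv).mp ⟨hue, hv⟩)
        rw [← SimpleGraph.mem_edgeSet, ← this]
        exact (hE e).mp heE
      by_cases hvW : v ∈ W
      · exact Or.inr hvW
      · left
        obtain ⟨w, hw⟩ := huU
        refine ⟨w.concat hadj, ?_⟩
        intro y hy
        rw [SimpleGraph.Walk.support_concat] at hy
        rw [List.mem_append, List.mem_singleton] at hy
        rcases hy with hy | rfl
        · exact hw y hy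
        · exact hvW
  have key := lieb_aux hp hp1 hq hq2 hK hzU F.card F le_rfl hFW hdisj (fun _ => 1)
    (fun _ => zero_le_one) (fun _ _ _ => le_rfl) x (Or.inl hxU)
  simp only [one_mul] at key
  have e1 : (fun ω => ind x z ω) = ind x z := rfl
  rw [hunion] at key
  refine key.trans (Finset.sum_le_sum fun y _ => ?_)
  refine mul_le_mul_of_nonneg_right ?_ (ex_nonneg hp hp1 hq _ (ind_nonneg y z))
  have := ex_union_mono hp hp1 hq F K (ind_nonneg x y) (ind_mono x y)
  rw [hunion] at this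
  exact this

/-- For every finite simple graph, p in [0,1] and q in [1,2], with φ the random-cluster connection probability, any vertex set W avoiding x≠z and meeting every x–z path satisfies φ(x↔z) ≤ Σ_{y∈W} φ(x↔y)φ(y↔z). -/
theorem result :
  ∀ (V : Type) [Fintype V] [DecidableEq V] (G : SimpleGraph V) [DecidableRel G.Adj]
    (p q : ℝ), 0 ≤ p → p ≤ 1 → 1 ≤ q → q ≤ 2 →
  ∀ φ : V → V → ℝ,
    (∀ a b : V, φ a b =
      (∑ ω ∈ G.edgeFinset.powerset,
        if (SimpleGraph.fromEdgeSet (ω : Set (Sym2 V))).Reachable a b then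
          p ^ ω.card * (1 - p) ^ (G.edgeFinset.card - ω.card) *
            q ^ Nat.card (SimpleGraph.fromEdgeSet (ω : Set (Sym2 V))).ConnectedComponent
        else 0) /
      (∑ ω ∈ G.edgeFinset.powerset,
          p ^ ω.card * (1 - p) ^ (G.edgeFinset.card - ω.card) *
            q ^ Nat.card (SimpleGraph.fromEdgeSet (ω : Set (Sym2 V))).ConnectedComponent)) →
  ∀ (x z : V) (W : Finset V), x ≠ z → x ∉ W → z ∉ W →
    (∀ w : G.Walk x z, ∃ y ∈ W, y ∈ w.support) →
    φ x z ≤ ∑ y ∈ W, φ x y * φ y z := by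
  intro V _ _ G _ p q hp hp1 hq hq2 φ hφ x z W hxz hxW hzW hsep
  have key : ∀ a b, φ a b = Pool.Agent.Helper85.RC.ex p q G.edgeFinset
      (Pool.Agent.Helper85.RC.ind a b) := by
    intro a b
    rw [hφ a b]
    unfold Pool.Agent.Helper85.RC.ex Pool.Agent.Helper85.RC.S Pool.Agent.Helper85.RC.wt
      Pool.Agent.Helper85.RC.ind Pool.Agent.Helper85.RC.Conn Pool.Agent.Helper85.RC.kc
      Pool.Agent.Helper85.RC.gr
    congr 1
    · refine Finset.sum_congr rfl fun ω _ => ?_
      split_ifs with h1 <;> simp_all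
    · refine Finset.sum_congr rfl fun ω _ => ?_
      rw [mul_one]
  rw [key x z]
  simp only [key]
  exact simon hp hp1 hq hq2 G G.edgeFinset (fun e => SimpleGraph.mem_edgeFinset) x z W hxW hsep

end Pool.Agent.S19135
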