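-- Proof of frozen statement S19325: the critical probability of n^a-neighbour bootstrap percolation
-- on the hypercube is asymptotic to n^(a-1) for all 0 < a <= 2/3 (the helper proves it for 0 < a < 1).
import Pool.Statements.S19325
import Pool.Agent.Helper87.HB.Main

set_option autoImplicit false
open Pool Pool.MP_546510_pr

namespace Pool.Agent.S19325

open Pool.Agent.Helper87.HB in
/-- The percolation sum in the form used by the helper files. -/
lemma sum_eq (n : ℕ) (a p : ℝ) :
    ∑ A ∈ (Finset.univ : Finset (Finset (Fin n → Bool))).filter
                  (fun A => ∀ S : Finset (Fin n → Bool), A ⊆ S →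
                    (∀ v : Fin n → Bool,
                      (n : ℝ) ^ a ≤ ((S.filter (fun u => hammingDist u v = 1)).card : ℝ) →
                        v ∈ S) →
                    S = Finset.univ),
                p ^ A.card * (1 - p) ^ (2 ^ n - A.card)
    = pperc n ((n : ℝ) ^ a) p := by
  classical
  unfold pperc
  apply Finset.sum_congr
  · ext A
    rw [Finset.mem_filter, Finset.mem_filter]
    simp only [Finset.mem_univ, true_and, Perc, card_filter_hammingDist]
  · intro A _
    rfl

/-- For each 0<a≤2/3, the critical probability for bootstrap percolation on the n-cube with threshold n^a (least p making full infection have probability at least 1/2), divided by n^(a-1), tends to 1. -/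
theorem result :
    ∀ a : ℝ, 0 < a → a ≤ 2 / 3 →
      Filter.Tendsto
        (fun n : ℕ =>
          sInf {p : ℝ | 0 ≤ p ∧ p ≤ 1 ∧
            (1 / 2 : ℝ) ≤
              ∑ A ∈ (Finset.univ : Finset (Finset (Fin n → Bool))).filter
                  (fun A => ∀ S : Finset (Fin n → Bool), A ⊆ S →
                    (∀ v : Fin n → Bool,
                      (n : ℝ) ^ a ≤ ((S.filter (fun u => hammingDist u v = 1)).card : ℝ) →
                        v ∈ S) →
                    S = Finset.univ),
                p ^ A.card * (1 - p) ^ (2 ^ n - A.card)}
          / (n : ℝ) ^ (a - 1))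
        Filter.atTop (nhds 1) := by
  intro a ha ha1
  have h := Pool.Agent.Helper87.HB.main ha (by linarith)
  simp_rw [sum_eq]
  exact h

end Pool.Agent.S19325
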