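import Pool.Statements.S19525
import Pool.Agent.Helper7.GGC.Assembly
import Pool.Agent.Helper7.GGC.BetaMom
import Pool.Agent.Helper7.GGC.BetaLevy

set_option autoImplicit false
open Pool Pool.MP_9f3825_pr

namespace Pool.Agent.S19525

/-- For all α₁,α₂>0 and s≥1, the Laplace transform of B^(-s), B~Beta(α₁,α₂), equals exp(-aλ - ∫ log(1+λ/t) U(dt)) for some a≥0 and a Thorin measure U on (0,∞), i.e. B^(-s) is a generalized gamma convolution. -/
theorem result :
    ∀ α₁ α₂ s : ℝ, 0 < α₁ → 0 < α₂ → 1 ≤ s →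
      ∃ a : ℝ, 0 ≤ a ∧ ∃ U : MeasureTheory.Measure ℝ, U (Set.Iic 0) = 0 ∧
        ∀ l : ℝ, 0 < l →
          MeasureTheory.Integrable (fun t : ℝ => Real.log (1 + l / t)) U ∧
          (∫ x in Set.Ioo (0:ℝ) 1,
              Real.exp (-(l * x ^ (-s))) * x ^ (α₁ - 1) * (1 - x) ^ (α₂ - 1)) =
            (∫ x in Set.Ioo (0:ℝ) 1, x ^ (α₁ - 1) * (1 - x) ^ (α₂ - 1)) *
              Real.exp (-(a * l) - ∫ t, Real.log (1 + l / t) ∂U) := by
  intro a b s ha hb hs
  exact Pool.Agent.Helper7.GGC.final_of ha hb (by linarith)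
    (Pool.Agent.Helper7.GGC.betw_integrable ha hb) (Pool.Agent.Helper7.GGC.betZ_pos ha hb)
    (fun r hr => Pool.Agent.Helper7.GGC.bet_moment ha hb hr)
    (Pool.Agent.Helper7.GGC.cone_beta ha hb hs
      (fun r hr => Pool.Agent.Helper7.GGC.betM_le_one
        (Pool.Agent.Helper7.GGC.betw_integrable ha hb) (Pool.Agent.Helper7.GGC.betZ_pos ha hb)
        (fun r hr => Pool.Agent.Helper7.GGC.bet_moment ha hb hr) hr)
      (fun k hk => Pool.Agent.Helper7.GGC.beta_levy ha hb (by linarith) hk))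

end Pool.Agent.S19525
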