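import Pool.Statements.S19689
import Pool.Agent.Helper84.LE.All

set_option autoImplicit false
open MeasureTheory Filter Topology
open Pool Pool.MP_e167eb_pr

namespace Pool.Agent.S19689

/-- In high dimensions, critical bond percolation on Z^d has constants A,σ>0 with Σ_x P(0↔x at cluster distance n)·e^{ik·x/√n} → A·exp(−σ²∣k∣²/(2d)) for every k. -/
theorem result :
    ∃ d0 : ℕ, 6 < d0 ∧ ∀ d : ℕ, d0 ≤ d →
      ∀ G : ℝ → (((Fin d → ℤ) × Fin d) → unitInterval) → SimpleGraph (Fin d → ℤ),
        (∀ (p : ℝ) (ω : ((Fin d → ℤ) × Fin d) → unitInterval),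
          G p ω = SimpleGraph.fromRel (fun x y : Fin d → ℤ =>
            ∃ i : Fin d, y = x + Pi.single i (1 : ℤ) ∧ ((ω (x, i) : ℝ) < p))) →
        ∀ pc : ℝ,
          pc = sSup {p : ℝ |
            Measure.infinitePi (fun _ : (Fin d → ℤ) × Fin d => (volume : Measure unitInterval))
              {ω : ((Fin d → ℤ) × Fin d) → unitInterval |
                {x : Fin d → ℤ | (G p ω).Reachable 0 x}.Infinite} = 0} →
          ∃ A σ : ℝ, 0 < A ∧ 0 < σ ∧ ∀ k : Fin d → ℝ,
            Tendsto
              (fun n : ℕ => ∑' x : Fin d → ℤ,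
                (((Measure.infinitePi
                    (fun _ : (Fin d → ℤ) × Fin d => (volume : Measure unitInterval))
                    {ω : ((Fin d → ℤ) × Fin d) → unitInterval |
                      (G pc ω).Reachable 0 x ∧ (G pc ω).dist 0 x = n}).toReal : ℝ) : ℂ) *
                  Complex.exp (Complex.I *
                    (((∑ j : Fin d, k j * (x j : ℝ)) / Real.sqrt (n : ℝ) : ℝ) : ℂ)))
              atTop
              (𝓝 ((A : ℂ) *
                Complex.exp ((-(σ ^ 2 * (∑ j : Fin d, k j ^ 2) / (2 * (d : ℝ))) : ℝ) : ℂ))) := by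
  obtain ⟨h1, h2, h3, h4, h5, h6⟩ := Pool.LE.allMain
  exact Pool.LE.final h1 h2 h3 h4 h5 h6

end Pool.Agent.S19689
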